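import Pool.Agent.Lib_helper53.Deg2.Types
import Pool.Agent.Lib_helper53.Deg.Degrees

/-!
# Degrees: realising pointed finite partial orders
-/

namespace DegC

open DegB

/-- the degree of the even columns -/
noncomputable def aa (m : ℕ) : TuringDegree := degSet (toS (EvS m))
/-- the least degree -/
noncomputable def zz : TuringDegree := degSet (toS fun _ => false)
/-- the degree of the complete set -/
noncomputable def kk : TuringDegree := degSet (toS Kl)

theorem aa_mem (m : ℕ) : aa m ∈ DN (m+1) := mem_DN.2 ⟨_, EvS_NCE m, rfl⟩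

theorem aa_not_mem (m : ℕ) : aa m ∉ DN m := by
  intro h
  obtain ⟨W, hW, hWe⟩ := mem_DN.1 h
  exact not_mce m hW (degS_le.1 hWe.ge) (degS_le.1 hWe.le)

theorem NCE_zeroset (n : ℕ) : NCE n (fun _ => false) :=
  ⟨fun _ _ => false, by fun_prop, fun _ => rfl, fun _ => ⟨0, fun _ _ => rfl⟩, fun x => by
    simp [chg]⟩

theorem zz_mem (n : ℕ) : zz ∈ DN n := mem_DN.2 ⟨_, NCE_zeroset n, rfl⟩

theorem zz_le {d : TuringDegree} {n : ℕ} (h : d ∈ DN n) : zz ≤ d := by
  obtain ⟨A, _, rfl⟩ := mem_DN.1 h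
  exact degS_le.2 (TR_of_computable (Computable.const false) _)

theorem kk_mem {n : ℕ} (h : 1 ≤ n) : kk ∈ DN n := mem_DN.2 ⟨_, NCE_K.mono h, rfl⟩

theorem le_kk {d : TuringDegree} {n : ℕ} (h : d ∈ DN n) : d ≤ kk := by
  obtain ⟨A, hA, rfl⟩ := mem_DN.1 h
  exact degS_le.2 (K_top hA)

theorem zz_lt_aa (m : ℕ) : zz < aa m := by
  refine lt_of_le_of_ne (zz_le (aa_mem m)) (fun h => ?_)
  apply aa_not_mem m
  rw [← h]
  exact zz_mem m

theorem aa_lt_kk (m : ℕ) : aa m < kk := by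
  refine lt_of_le_not_ge (le_kk (aa_mem m)) (fun h => ?_)
  exact K_not_le m 1 ((degS_le.1 h).trans (EvS_le' m))

section
variable {P : Type} [PartialOrder P] [Finite P] (p : P)

/-- pointed posets below a degree above `aa m` -/
theorem above_deg (m : ℕ) {c : TuringDegree} (hc : c ∈ DN (m+1)) (hac : aa m < c) :
    ∃ f : P ↪o TuringDegree, f p = aa m ∧ ∀ q, f q ∈ DN (m+1) ∧ f q < c := by
  obtain ⟨C, hC, rfl⟩ := mem_DN.1 hc
  obtain ⟨F, h1, h2, h3, h4, h5⟩ := above_sets p m hC (degS_le.1 hac.le)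
    (fun h => not_le_of_gt hac (degS_le.2 h))
  refine ⟨OrderEmbedding.ofMapLEIff (fun q => degSet (toS (F q))) (fun q q' => by
    rw [degS_le]; exact h2 q q'), ?_, fun q => ⟨mem_DN.2 ⟨_, h1 q, rfl⟩, ?_⟩⟩
  · exact le_antisymm (degS_le.2 h3) (degS_le.2 h4)
  · exact lt_of_le_not_ge (degS_le.2 (h5 q).1) (fun h => (h5 q).2 (degS_le.1 h))

/-- pointed posets above a degree below `aa m` -/
theorem below_deg (m : ℕ) {n : ℕ} (hmn : m + 1 ≤ n) {b : TuringDegree} (hb : b ∈ DN n)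
    (hba : b < aa m) :
    ∃ f : P ↪o TuringDegree, f p = aa m ∧ ∀ q, f q ∈ DN n ∧ b < f q := by
  obtain ⟨B, hB, rfl⟩ := mem_DN.1 hb
  obtain ⟨F, h1, h2, h3, h4, h5⟩ := below_sets p m hmn hB (degS_le.1 hba.le)
    (fun h => not_le_of_gt hba (degS_le.2 h))
  refine ⟨OrderEmbedding.ofMapLEIff (fun q => degSet (toS (F q))) (fun q q' => by
    rw [degS_le]; exact h2 q q'), ?_, fun q => ⟨mem_DN.2 ⟨_, h1 q, rfl⟩, ?_⟩⟩
  · exact le_antisymm (degS_le.2 h3) (degS_le.2 h4)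
  · exact lt_of_le_not_ge (degS_le.2 (h5 q).1) (fun h => (h5 q).2 (degS_le.1 h))

end

end DegC
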