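import Pool.Agent.Lib_helper53.Deg2.Sel

/-!
# The second priority engine: definitions, primitive recursiveness, locality

As `Deg.Engine`, with the Friedberg-Muchnik requirements replaced by the requirements that a
column is not computed by the other columns and a part of the splitting, and with two pairs
(target, base) for each splitting.
-/

namespace DegC

open DegB

open Nat.Partrec (Code)

/-- `t` is a possible start of requirement `j` -/
def legit (a : ℕ → ℕ) (j t : ℕ) : Bool :=
  decide (j ≤ t) && (decide (t = j) || decide (a (t-1) < j))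
/-- no requirement of higher priority acted in `[t,s)` -/
def alive (a : ℕ → ℕ) (j t s : ℕ) : Bool :=
  ball s (fun t' => decide (t' < t) || decide (j ≤ a t'))
/-- number of actions of `j` between `t` and `s` before the first injury -/
def cnt (a : ℕ → ℕ) (j t s : ℕ) : ℕ :=
  bcnt s (fun t' => decide (t ≤ t') && (decide (a t' = j) && alive a j t t'))
/-- the master set at stage `s` -/
def M (a : ℕ → ℕ) (s x : ℕ) : Bool :=
  legit a x.ufst x.usnd && (decide (x.usnd < s) &&
    decide (cnt a x.ufst x.usnd s % 2 = 1))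
/-- column of an element -/
def colm (x : ℕ) : ℕ :=
  bif decide (x.ufst.ufst = 0) then 0 else x.ufst.usnd.ufst
/-- selection of columns: `0` even columns, `1` all columns, `i+2` all columns but `i` -/
def sel (k c : ℕ) : Bool :=
  bif decide (k = 0) then decide (c % 2 = 0) else (decide (k = 1) || !decide (c + 2 = k))
/-- selected part of the master set -/
def MS (a : ℕ → ℕ) (s k x : ℕ) : Bool :=
  M a s x && (decide (x.ufst.ufst ≤ 1) && sel k (colm x))

/-- Cooper strategy -/
def wantR (a : ℕ → ℕ) (s j x : ℕ) : Bool :=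
  bex (s+1) fun u =>
    ball s (fun t' => !decide (a t' = j) || decide (t' ≤ u)) &&
    (decide (U j.usnd.usnd.ufst x (pre (fun z => Xap j.usnd.ufst s z) u) =
      some (MS a s 0 x).toNat) &&
    ball u (fun z => decide (U j.usnd.usnd.usnd z (pre (fun v => MS a s 0 v) s) =
      some (Xap j.usnd.ufst s z).toNat)))

/-- is `j` a requirement of block `b` of the splitting `c'`? -/
def isN (j c' b : ℕ) : Bool :=
  (decide (j.ufst = 2) && (decide (j.usnd.ufst = c') &&
    decide (j.usnd.usnd.ufst = b))) ||
  (decide (j.ufst = 1) && (decide (j.usnd.usnd.ufst = c') &&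
    decide (j.usnd.usnd.usnd.ufst = b)))
/-- block `b` restrains `x` at stage `t` -/
def blk (a : ℕ → ℕ) (c' x t b : ℕ) : Bool :=
  bex t (fun t' => decide (x < t') && isN (a t') c' b)
/-- first entry -/
def fe (c x t : ℕ) : Bool := Xap c t x && ball t (fun t' => !Xap c t' x)
/-- the home of `x` entering at stage `t` -/
def hm (a : ℕ → ℕ) (c' x t : ℕ) : ℕ :=
  ((ffind (t+1) (fun b => bif blk a c' x t b then some b else none)).getD 0).usnd
/-- `x` has entered by stage `s` and has home `i` -/
def hEq (a : ℕ → ℕ) (c' x s i : ℕ) : Bool :=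
  bex (s+1) (fun t => fe c'.ufst x t && decide (hm a c' x t = i))
/-- `x` has entered by stage `s` and has home different from `i` -/
def hNe (a : ℕ → ℕ) (c' x s i : ℕ) : Bool :=
  bex (s+1) (fun t => fe c'.ufst x t && !decide (hm a c' x t = i))
/-- the set `X` without the piece `i` -/
def Yap (a : ℕ → ℕ) (c' i s x : ℕ) : Bool := Xap c'.ufst s x && !hEq a c' x s i

/-- the certificate: `r = ⟨ψ, ⟨β, ⟨γ, τ⟩⟩⟩` -/
def crt (a : ℕ → ℕ) (c' r h s u u0 : ℕ) : Bool :=
  ball u0 (fun x => !hNe a c' x s h ||
      decide (U r.ufst x (pre (fun v => Xap r.usnd.ufst s v) u) =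
        some (Xap c'.ufst s x).toNat)) &&
    ball u (fun z => decide (U r.usnd.usnd.ufst z (pre (fun v => MS a s 1 v) s) =
      some (Xap r.usnd.ufst s z).toNat))
/-- certified agreement at argument `y` -/
def agr (a : ℕ → ℕ) (c' r b y s : ℕ) : Bool :=
  bex (s+1) fun u => bex (u+1) fun u0 =>
    decide (U b.ufst.usnd y (pre (join (fun v => Xap r.usnd.ufst s v)
      (fun v => Yap a c' b.usnd s v)) u0) =
        some (Xap r.usnd.usnd.usnd s y).toNat) &&
    crt a c' r b.usnd s u u0
/-- certified agreement up to `y` -/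
def agree (a : ℕ → ℕ) (c' r b y s : ℕ) : Bool := ball (y+1) (fun y' => agr a c' r b y' s)
/-- the pair (target, base) used by block `b` -/
def rho (c' b : ℕ) : ℕ :=
  bif decide (b.ufst.ufst = 0) then c'.usnd.ufst else c'.usnd.usnd
/-- block `b` may be injured at stage `t` -/
def inj (a : ℕ → ℕ) (c' b t : ℕ) : Bool :=
  bex t (fun x => fe c'.ufst x t && bex b (fun b' => blk a c' x t b'))
/-- `q` is the last stage of injury of block `b` -/
def okq (a : ℕ → ℕ) (c' b q s : ℕ) : Bool :=
  decide (q ≤ s) && ((decide (q = 0) || inj a c' b q) &&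
    ball (s+1) (fun t => decide (t ≤ q) || !inj a c' b t))
/-- splitting strategy -/
def wantN (a : ℕ → ℕ) (s p : ℕ) : Bool :=
  okq a p.ufst p.usnd.ufst p.usnd.usnd.usnd s &&
  (decide (p.usnd.ufst.ufst.ufst ≤ 1) &&
  agree a p.ufst (rho p.ufst p.usnd.ufst) p.usnd.ufst
    p.usnd.usnd.ufst s)
/-- independence strategy: `p = ⟨i, ⟨c', ⟨b, q⟩⟩⟩`, `x` is the witness -/
def wantT (a : ℕ → ℕ) (s j p x : ℕ) : Bool :=
  okq a p.usnd.ufst p.usnd.usnd.ufst p.usnd.usnd.usnd s &&
  (decide (p.usnd.usnd.ufst.ufst.ufst = 2) &&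
  (decide (p.usnd.usnd.ufst.ufst.usnd.ufst = p.ufst) &&
  bex (s+1) fun u =>
    ball s (fun t' => !decide (a t' = j) || decide (t' ≤ u)) &&
    (decide (U p.usnd.usnd.ufst.ufst.usnd.usnd x
      (pre (join (fun v => MS a s (p.ufst + 2) v)
        (fun v => Yap a p.usnd.ufst p.usnd.usnd.ufst.usnd s v)) u) =
      some (MS a s 1 x).toNat) &&
    bex (s+1) fun u' => crt a p.usnd.ufst p.usnd.ufst.usnd.ufst
      p.usnd.usnd.ufst.usnd s u' u)))

/-- requirement `j` wants to act at stage `s` -/
def wt (m : ℕ) (a : ℕ → ℕ) (s j : ℕ) : Bool :=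
  bex (s+1) fun t => legit a j t && (alive a j t s &&
    (bif decide (j.ufst = 0) then
      decide (cnt a j t s ≤ m) && wantR a s j (Nat.pair j t)
    else bif decide (j.ufst = 1) then
      decide (cnt a j t s ≤ m) && wantT a s j j.usnd (Nat.pair j t)
    else bif decide (j.ufst = 2) then
      decide (cnt a j t s = 0) && wantN a s j.usnd
    else false))

/-! ### locality -/

section congr
variable {a a' : ℕ → ℕ}

theorem legit_congr {j t : ℕ} (h : ∀ t' < t, a t' = a' t') : legit a j t = legit a' j t := by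
  unfold legit
  rcases Nat.eq_zero_or_pos t with ht | ht
  · subst ht
    rcases Nat.eq_zero_or_pos j with hj | hj
    · subst hj; simp
    · have : decide (j ≤ 0) = false := by simp; omega
      rw [this]; rfl
  · rw [h (t-1) (by omega)]

theorem alive_congr {j t s : ℕ} (h : ∀ t' < s, a t' = a' t') : alive a j t s = alive a' j t s := by
  unfold alive
  exact ball_congr fun k hk => by rw [h k hk]

theorem cnt_congr {j t s : ℕ} (h : ∀ t' < s, a t' = a' t') : cnt a j t s = cnt a' j t s := by
  unfold cnt
  exact bcnt_congr fun k hk => by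
    rw [h k hk, alive_congr (fun t' ht' => h t' (by omega))]

theorem M_congr {s x : ℕ} (h : ∀ t' < s, a t' = a' t') : M a s x = M a' s x := by
  unfold M
  by_cases hx : x.usnd < s
  · rw [cnt_congr h, legit_congr (fun t' ht' => h t' (by omega))]
  · have : decide (x.usnd < s) = false := by simpa using hx
    rw [this]; simp

theorem MS_congr {s k x : ℕ} (h : ∀ t' < s, a t' = a' t') : MS a s k x = MS a' s k x := by
  unfold MS
  rw [M_congr h]

theorem wantR_congr {s j x : ℕ} (h : ∀ t' < s, a t' = a' t') :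
    wantR a s j x = wantR a' s j x := by
  unfold wantR
  refine bex_congr fun u hu => ?_
  have h1 : ball s (fun t' => !decide (a t' = j) || decide (t' ≤ u)) =
      ball s (fun t' => !decide (a' t' = j) || decide (t' ≤ u)) :=
    ball_congr fun k hk => by rw [h k hk]
  have h2 : (fun v => MS a s 0 v) = fun v => MS a' s 0 v := by
    funext v; exact MS_congr h
  rw [h1, MS_congr h, h2]

theorem blk_congr {c' x t b : ℕ} (h : ∀ t' < t, a t' = a' t') :
    blk a c' x t b = blk a' c' x t b := by
  unfold blk
  exact bex_congr fun k hk => by rw [h k hk]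

theorem hm_congr {c' x t : ℕ} (h : ∀ t' < t, a t' = a' t') : hm a c' x t = hm a' c' x t := by
  unfold hm
  have : ffind (t+1) (fun b => bif blk a c' x t b then some b else none) =
      ffind (t+1) (fun b => bif blk a' c' x t b then some b else none) :=
    ffind_congr fun k hk => by rw [blk_congr h]
  rw [this]

theorem hEq_congr {c' x s i : ℕ} (h : ∀ t' < s, a t' = a' t') :
    hEq a c' x s i = hEq a' c' x s i := by
  unfold hEq
  exact bex_congr fun k hk => by rw [hm_congr (fun t' ht' => h t' (by omega))]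

theorem hNe_congr {c' x s i : ℕ} (h : ∀ t' < s, a t' = a' t') :
    hNe a c' x s i = hNe a' c' x s i := by
  unfold hNe
  exact bex_congr fun k hk => by rw [hm_congr (fun t' ht' => h t' (by omega))]

theorem Yap_congr {c' i s x : ℕ} (h : ∀ t' < s, a t' = a' t') :
    Yap a c' i s x = Yap a' c' i s x := by
  unfold Yap
  rw [hEq_congr h]

theorem crt_congr {c' r h' s u u0 : ℕ} (h : ∀ t' < s, a t' = a' t') :
    crt a c' r h' s u u0 = crt a' c' r h' s u u0 := by
  unfold crt
  have h2 : (fun v => MS a s 1 v) = fun v => MS a' s 1 v := by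
    funext v; exact MS_congr h
  have h3 : ball u0 (fun x => !hNe a c' x s h' ||
      decide (U r.ufst x (pre (fun v => Xap r.usnd.ufst s v) u) =
        some (Xap c'.ufst s x).toNat)) = ball u0 (fun x => !hNe a' c' x s h' ||
      decide (U r.ufst x (pre (fun v => Xap r.usnd.ufst s v) u) =
        some (Xap c'.ufst s x).toNat)) :=
    ball_congr fun k hk => by rw [hNe_congr h]
  rw [h2, h3]

theorem agr_congr {c' r b y s : ℕ} (h : ∀ t' < s, a t' = a' t') :
    agr a c' r b y s = agr a' c' r b y s := by
  unfold agr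
  refine bex_congr fun u hu => bex_congr fun u0 hu0 => ?_
  have h1 : (fun v => Yap a c' b.usnd s v) = fun v => Yap a' c' b.usnd s v := by
    funext v; exact Yap_congr h
  rw [h1, crt_congr h]

theorem agree_congr {c' r b y s : ℕ} (h : ∀ t' < s, a t' = a' t') :
    agree a c' r b y s = agree a' c' r b y s := by
  unfold agree
  exact ball_congr fun k hk => agr_congr h

theorem inj_congr {c' b t : ℕ} (h : ∀ t' < t, a t' = a' t') : inj a c' b t = inj a' c' b t := by
  unfold inj
  refine bex_congr fun x hx => ?_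
  have : bex b (fun b' => blk a c' x t b') = bex b (fun b' => blk a' c' x t b') :=
    bex_congr fun k hk => blk_congr h
  rw [this]

theorem okq_congr {c' b q s : ℕ} (h : ∀ t' < s, a t' = a' t') :
    okq a c' b q s = okq a' c' b q s := by
  unfold okq
  by_cases hq : q ≤ s
  · have h1 : ball (s+1) (fun t => decide (t ≤ q) || !inj a c' b t) =
      ball (s+1) (fun t => decide (t ≤ q) || !inj a' c' b t) :=
      ball_congr fun k hk => by rw [inj_congr (fun t' ht' => h t' (by omega))]
    rw [h1, inj_congr (fun t' ht' => h t' (by omega))]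
  · have : decide (q ≤ s) = false := by simpa using hq
    rw [this]; rfl

theorem wantN_congr {s p : ℕ} (h : ∀ t' < s, a t' = a' t') : wantN a s p = wantN a' s p := by
  unfold wantN
  rw [okq_congr h, agree_congr h]

theorem wantT_congr {s j p x : ℕ} (h : ∀ t' < s, a t' = a' t') :
    wantT a s j p x = wantT a' s j p x := by
  unfold wantT
  rw [okq_congr h]
  congr 3
  refine bex_congr fun u hu => ?_
  have h1 : ball s (fun t' => !decide (a t' = j) || decide (t' ≤ u)) =
      ball s (fun t' => !decide (a' t' = j) || decide (t' ≤ u)) :=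
    ball_congr fun k hk => by rw [h k hk]
  have h2 : (fun v => MS a s (p.ufst + 2) v) = fun v => MS a' s (p.ufst + 2) v := by
    funext v; exact MS_congr h
  have h3 : (fun v => Yap a p.usnd.ufst p.usnd.usnd.ufst.usnd s v) =
      fun v => Yap a' p.usnd.ufst p.usnd.usnd.ufst.usnd s v := by
    funext v; exact Yap_congr h
  rw [h1, MS_congr h, h2, h3]
  congr 2
  exact bex_congr fun u' hu' => crt_congr h

theorem wt_congr {m s j : ℕ} (h : ∀ t' < s, a t' = a' t') : wt m a s j = wt m a' s j := by
  unfold wt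
  refine bex_congr fun t ht => ?_
  rw [legit_congr (fun t' ht' => h t' (by omega)), alive_congr h, cnt_congr h, wantR_congr h,
    wantT_congr h, wantN_congr h]

end congr

/-! ### primitive recursiveness -/

/-- the function given by a list -/
def al (h : List ℕ) (t : ℕ) : ℕ := h.getD t 0

section prim
variable {α : Type*} [Primcodable α]

@[fun_prop] theorem pr_al {h : α → List ℕ} {t : α → ℕ} (hh : Primrec h) (ht : Primrec t) :
    Primrec fun q => al (h q) (t q) := by
  unfold al
  fun_prop

/-- list version -/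
def legitL (h : List ℕ) (j t : ℕ) : Bool := legit (al h) j t
@[fun_prop] theorem pr_legitL {h : α → List ℕ} {j t : α → ℕ} (hh : Primrec h) (hj : Primrec j)
    (ht : Primrec t) : Primrec fun q => legitL (h q) (j q) (t q) := by
  unfold legitL legit
  fun_prop

/-- list version -/
def aliveL (h : List ℕ) (j t s : ℕ) : Bool := alive (al h) j t s
@[fun_prop] theorem pr_aliveL {h : α → List ℕ} {j t s : α → ℕ} (hh : Primrec h) (hj : Primrec j)
    (ht : Primrec t) (hs : Primrec s) : Primrec fun q => aliveL (h q) (j q) (t q) (s q) := by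
  unfold aliveL alive
  fun_prop

/-- list version -/
def cntL (h : List ℕ) (j t s : ℕ) : ℕ := cnt (al h) j t s
@[fun_prop] theorem pr_cntL {h : α → List ℕ} {j t s : α → ℕ} (hh : Primrec h) (hj : Primrec j)
    (ht : Primrec t) (hs : Primrec s) : Primrec fun q => cntL (h q) (j q) (t q) (s q) := by
  show Primrec fun q => bcnt (s q) (fun t' => decide (t q ≤ t') && (decide (al (h q) t' = j q) &&
    aliveL (h q) (j q) (t q) t'))
  fun_prop

/-- list version -/
def ML (h : List ℕ) (s x : ℕ) : Bool := M (al h) s x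
@[fun_prop] theorem pr_ML {h : α → List ℕ} {s x : α → ℕ} (hh : Primrec h) (hs : Primrec s)
    (hx : Primrec x) : Primrec fun q => ML (h q) (s q) (x q) := by
  show Primrec fun q => legitL (h q) (x q).ufst (x q).usnd &&
    (decide ((x q).usnd < s q) && decide (cntL (h q) (x q).ufst (x q).usnd (s q) % 2 = 1))
  fun_prop

@[fun_prop] theorem pr_colm {x : α → ℕ} (hx : Primrec x) : Primrec fun q => colm (x q) := by
  unfold colm
  fun_prop
@[fun_prop] theorem pr_sel {k c : α → ℕ} (hk : Primrec k) (hc : Primrec c) :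
    Primrec fun q => sel (k q) (c q) := by
  unfold sel
  fun_prop

/-- list version -/
def MSL (h : List ℕ) (s k x : ℕ) : Bool := MS (al h) s k x
@[fun_prop] theorem pr_MSL {h : α → List ℕ} {s k x : α → ℕ} (hh : Primrec h) (hs : Primrec s)
    (hk : Primrec k) (hx : Primrec x) : Primrec fun q => MSL (h q) (s q) (k q) (x q) := by
  show Primrec fun q => ML (h q) (s q) (x q) && (decide ((x q).ufst.ufst ≤ 1) &&
    sel (k q) (colm (x q)))
  fun_prop

/-- list version -/
def wantRL (h : List ℕ) (s j x : ℕ) : Bool := wantR (al h) s j x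
@[fun_prop] theorem pr_wantRL {h : α → List ℕ} {s j x : α → ℕ} (hh : Primrec h) (hs : Primrec s)
    (hj : Primrec j) (hx : Primrec x) : Primrec fun q => wantRL (h q) (s q) (j q) (x q) := by
  show Primrec fun q => bex (s q+1) fun u =>
    ball (s q) (fun t' => !decide (al (h q) t' = j q) || decide (t' ≤ u)) &&
    (decide (U (j q).usnd.usnd.ufst (x q)
      (pre (fun z => Xap (j q).usnd.ufst (s q) z) u) = some (MSL (h q) (s q) 0 (x q)).toNat) &&
    ball u (fun z => decide (U (j q).usnd.usnd.usnd z
      (pre (fun v => MSL (h q) (s q) 0 v) (s q)) =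
      some (Xap (j q).usnd.ufst (s q) z).toNat)))
  fun_prop

@[fun_prop] theorem pr_isN {j c b : α → ℕ} (hj : Primrec j) (hc : Primrec c) (hb : Primrec b) :
    Primrec fun q => isN (j q) (c q) (b q) := by
  unfold isN
  exact pr_or (pr_and (pr_deq (by fun_prop) (by fun_prop)) (pr_and (pr_deq (by fun_prop)
    (by fun_prop)) (pr_deq (by fun_prop) (by fun_prop)))) (pr_and (pr_deq (by fun_prop)
    (by fun_prop)) (pr_and (pr_deq (by fun_prop) (by fun_prop)) (pr_deq (by fun_prop)
    (by fun_prop))))

/-- list version -/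
def blkL (h : List ℕ) (c' x t b : ℕ) : Bool := blk (al h) c' x t b
@[fun_prop] theorem pr_blkL {h : α → List ℕ} {c' x t b : α → ℕ} (hh : Primrec h)
    (hc : Primrec c') (hx : Primrec x) (ht : Primrec t) (hb : Primrec b) :
    Primrec fun q => blkL (h q) (c' q) (x q) (t q) (b q) := by
  unfold blkL blk
  fun_prop

@[fun_prop] theorem pr_fe {c x t : α → ℕ} (hc : Primrec c) (hx : Primrec x) (ht : Primrec t) :
    Primrec fun q => fe (c q) (x q) (t q) := by
  unfold fe
  fun_prop

/-- list version -/
def hmL (h : List ℕ) (c' x t : ℕ) : ℕ := hm (al h) c' x t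
@[fun_prop] theorem pr_hmL {h : α → List ℕ} {c' x t : α → ℕ} (hh : Primrec h)
    (hc : Primrec c') (hx : Primrec x) (ht : Primrec t) :
    Primrec fun q => hmL (h q) (c' q) (x q) (t q) := by
  show Primrec fun q => ((ffind (t q+1) (fun b => bif blkL (h q) (c' q) (x q) (t q) b then some b
    else none)).getD 0).usnd
  fun_prop

/-- list version -/
def hEqL (h : List ℕ) (c' x s i : ℕ) : Bool := hEq (al h) c' x s i
@[fun_prop] theorem pr_hEqL {h : α → List ℕ} {c' x s i : α → ℕ} (hh : Primrec h)
    (hc : Primrec c') (hx : Primrec x) (hs : Primrec s) (hi : Primrec i) :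
    Primrec fun q => hEqL (h q) (c' q) (x q) (s q) (i q) := by
  show Primrec fun q => bex (s q+1) (fun t => fe (c' q).ufst (x q) t &&
    decide (hmL (h q) (c' q) (x q) t = i q))
  fun_prop

/-- list version -/
def hNeL (h : List ℕ) (c' x s i : ℕ) : Bool := hNe (al h) c' x s i
@[fun_prop] theorem pr_hNeL {h : α → List ℕ} {c' x s i : α → ℕ} (hh : Primrec h)
    (hc : Primrec c') (hx : Primrec x) (hs : Primrec s) (hi : Primrec i) :
    Primrec fun q => hNeL (h q) (c' q) (x q) (s q) (i q) := by
  show Primrec fun q => bex (s q+1) (fun t => fe (c' q).ufst (x q) t &&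
    !decide (hmL (h q) (c' q) (x q) t = i q))
  fun_prop

/-- list version -/
def YapL (h : List ℕ) (c' i s x : ℕ) : Bool := Yap (al h) c' i s x
@[fun_prop] theorem pr_YapL {h : α → List ℕ} {c' i s x : α → ℕ} (hh : Primrec h)
    (hc : Primrec c') (hi : Primrec i) (hs : Primrec s) (hx : Primrec x) :
    Primrec fun q => YapL (h q) (c' q) (i q) (s q) (x q) := by
  show Primrec fun q => Xap (c' q).ufst (s q) (x q) && !hEqL (h q) (c' q) (x q) (s q) (i q)
  fun_prop

@[fun_prop] theorem pr_join {A B : α → ℕ → Bool} {n : α → ℕ}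
    (hA : Primrec fun q : α × ℕ => A q.1 q.2) (hB : Primrec fun q : α × ℕ => B q.1 q.2)
    (hn : Primrec n) : Primrec fun q => join (A q) (B q) (n q) := by
  unfold join
  refine pr_cond (by fun_prop) ?_ ?_
  · exact hA.comp (f := fun q : α × ℕ => A q.1 q.2) (g := fun q => (q, n q / 2)) (by fun_prop)
  · exact hB.comp (f := fun q : α × ℕ => B q.1 q.2) (g := fun q => (q, n q / 2)) (by fun_prop)

@[fun_prop] theorem pr_rho {c' b : α → ℕ} (hc : Primrec c') (hb : Primrec b) :
    Primrec fun q => rho (c' q) (b q) := by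
  unfold rho
  fun_prop

/-- list version -/
def crtL (h : List ℕ) (c' r k s u u0 : ℕ) : Bool := crt (al h) c' r k s u u0
@[fun_prop] theorem pr_crtL {h : α → List ℕ} {c' r k s u u0 : α → ℕ} (hh : Primrec h)
    (hc : Primrec c') (hr : Primrec r) (hk : Primrec k) (hs : Primrec s) (hu : Primrec u)
    (hu0 : Primrec u0) :
    Primrec fun q => crtL (h q) (c' q) (r q) (k q) (s q) (u q) (u0 q) := by
  show Primrec fun q => ball (u0 q) (fun x => !hNeL (h q) (c' q) x (s q) (k q) ||
      decide (U (r q).ufst x (pre (fun v => Xap (r q).usnd.ufst (s q) v) (u q)) =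
        some (Xap (c' q).ufst (s q) x).toNat)) &&
    ball (u q) (fun z => decide (U (r q).usnd.usnd.ufst z
      (pre (fun v => MSL (h q) (s q) 1 v) (s q)) =
      some (Xap (r q).usnd.ufst (s q) z).toNat))
  fun_prop

/-- list version -/
def agrL (h : List ℕ) (c' r b y s : ℕ) : Bool := agr (al h) c' r b y s
@[fun_prop] theorem pr_agrL {h : α → List ℕ} {c' r b y s : α → ℕ} (hh : Primrec h)
    (hc : Primrec c') (hr : Primrec r) (hb : Primrec b) (hy : Primrec y) (hs : Primrec s) :
    Primrec fun q => agrL (h q) (c' q) (r q) (b q) (y q) (s q) := by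
  show Primrec fun q => bex (s q+1) fun u => bex (u+1) fun u0 =>
    decide (U (b q).ufst.usnd (y q) (pre (fun w => join
      (fun v => Xap (r q).usnd.ufst (s q) v)
      (fun v => YapL (h q) (c' q) (b q).usnd (s q) v) w) u0) =
        some (Xap (r q).usnd.usnd.usnd (s q) (y q)).toNat) &&
    crtL (h q) (c' q) (r q) (b q).usnd (s q) u u0
  fun_prop

/-- list version -/
def agreeL (h : List ℕ) (c' r b y s : ℕ) : Bool := agree (al h) c' r b y s
@[fun_prop] theorem pr_agreeL {h : α → List ℕ} {c' r b y s : α → ℕ} (hh : Primrec h)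
    (hc : Primrec c') (hr : Primrec r) (hb : Primrec b) (hy : Primrec y) (hs : Primrec s) :
    Primrec fun q => agreeL (h q) (c' q) (r q) (b q) (y q) (s q) := by
  show Primrec fun q => ball (y q+1) (fun y' => agrL (h q) (c' q) (r q) (b q) y' (s q))
  fun_prop

/-- list version -/
def injL (h : List ℕ) (c' b t : ℕ) : Bool := inj (al h) c' b t
@[fun_prop] theorem pr_injL {h : α → List ℕ} {c' b t : α → ℕ} (hh : Primrec h)
    (hc : Primrec c') (hb : Primrec b) (ht : Primrec t) :
    Primrec fun q => injL (h q) (c' q) (b q) (t q) := by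
  show Primrec fun q => bex (t q) (fun x => fe (c' q).ufst x (t q) &&
    bex (b q) (fun b' => blkL (h q) (c' q) x (t q) b'))
  fun_prop

/-- list version -/
def okqL (h : List ℕ) (c' b q s : ℕ) : Bool := okq (al h) c' b q s
@[fun_prop] theorem pr_okqL {h : α → List ℕ} {c' b k s : α → ℕ} (hh : Primrec h)
    (hc : Primrec c') (hb : Primrec b) (hk : Primrec k) (hs : Primrec s) :
    Primrec fun q => okqL (h q) (c' q) (b q) (k q) (s q) := by
  show Primrec fun q => decide (k q ≤ s q) && ((decide (k q = 0) ||
    injL (h q) (c' q) (b q) (k q)) &&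
    ball (s q+1) (fun t => decide (t ≤ k q) || !injL (h q) (c' q) (b q) t))
  fun_prop

/-- list version -/
def wantNL (h : List ℕ) (s p : ℕ) : Bool := wantN (al h) s p
@[fun_prop] theorem pr_wantNL {h : α → List ℕ} {s p : α → ℕ} (hh : Primrec h)
    (hs : Primrec s) (hp : Primrec p) : Primrec fun q => wantNL (h q) (s q) (p q) := by
  show Primrec fun q => okqL (h q) (p q).ufst (p q).usnd.ufst
      (p q).usnd.usnd.usnd (s q) &&
    (decide ((p q).usnd.ufst.ufst.ufst ≤ 1) &&
    agreeL (h q) (p q).ufst (rho (p q).ufst (p q).usnd.ufst)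
      (p q).usnd.ufst (p q).usnd.usnd.ufst (s q))
  exact pr_and (by fun_prop) (pr_and (pr_dle (by fun_prop) (by fun_prop)) (by fun_prop))

/-- list version -/
def wantTL (h : List ℕ) (s j p x : ℕ) : Bool := wantT (al h) s j p x
@[fun_prop] theorem pr_wantTL {h : α → List ℕ} {s j p x : α → ℕ} (hh : Primrec h)
    (hs : Primrec s) (hj : Primrec j) (hp : Primrec p) (hx : Primrec x) :
    Primrec fun q => wantTL (h q) (s q) (j q) (p q) (x q) := by
  show Primrec fun q => okqL (h q) (p q).usnd.ufst (p q).usnd.usnd.ufst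
      (p q).usnd.usnd.usnd (s q) &&
    (decide ((p q).usnd.usnd.ufst.ufst.ufst = 2) &&
    (decide ((p q).usnd.usnd.ufst.ufst.usnd.ufst = (p q).ufst) &&
    bex (s q+1) fun u =>
      ball (s q) (fun t' => !decide (al (h q) t' = j q) || decide (t' ≤ u)) &&
      (decide (U (p q).usnd.usnd.ufst.ufst.usnd.usnd (x q)
        (pre (fun w => join (fun v => MSL (h q) (s q) ((p q).ufst + 2) v)
          (fun v => YapL (h q) (p q).usnd.ufst
            (p q).usnd.usnd.ufst.usnd (s q) v) w) u) =
        some (MSL (h q) (s q) 1 (x q)).toNat) &&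
      bex (s q+1) fun u' => crtL (h q) (p q).usnd.ufst
        (p q).usnd.ufst.usnd.ufst
        (p q).usnd.usnd.ufst.usnd (s q) u' u)))
  refine pr_and (by fun_prop) (pr_and (pr_deq (by fun_prop) (by fun_prop)) (pr_and (pr_deq
    (by fun_prop) (by fun_prop)) (pr_bex (by fun_prop) (pr_and ?_ (pr_and (pr_deqo ?_ ?_)
    (pr_bex ?_ ?_))))))
  · fun_prop
  · fun_prop
  · fun_prop
  · fun_prop
  · fun_prop

/-- list version -/
def wtL (m : ℕ) (h : List ℕ) (s j : ℕ) : Bool := wt m (al h) s j
@[fun_prop] theorem pr_wtL (m : ℕ) {h : α → List ℕ} {s j : α → ℕ} (hh : Primrec h)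
    (hs : Primrec s) (hj : Primrec j) : Primrec fun q => wtL m (h q) (s q) (j q) := by
  show Primrec fun q => bex (s q+1) fun t => legitL (h q) (j q) t && (aliveL (h q) (j q) t (s q) &&
    (bif decide ((j q).ufst = 0) then
      decide (cntL (h q) (j q) t (s q) ≤ m) && wantRL (h q) (s q) (j q) (Nat.pair (j q) t)
    else bif decide ((j q).ufst = 1) then
      decide (cntL (h q) (j q) t (s q) ≤ m) && wantTL (h q) (s q) (j q) (j q).usnd
        (Nat.pair (j q) t)
    else bif decide ((j q).ufst = 2) then
      decide (cntL (h q) (j q) t (s q) = 0) && wantNL (h q) (s q) (j q).usnd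
    else false))
  fun_prop

end prim

end DegC
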