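import Pool.Agent.Lib_helper53.Deg2.Degrees

/-!
# Formulas that cannot separate the two degrees
-/

namespace DegC

open DegB FirstOrder FirstOrder.Language FirstOrder.Language.BoundedFormula

/-- `D_n` as a structure for the language `≤`. -/
instance instDN (n : ℕ) : Language.order.Structure (DN n) := orderStructure _

instance instDN' (n : ℕ) : Language.order.OrderedStructure (DN n) := ⟨fun _ => Iff.rfl⟩

/-- The class `Γ` of formulas `φ(x)` of the language `≤`: it contains the existential formulas, the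
universal formulas, the formulas `∀ y ≤ x, θ(x, y)` and `∀ y ≥ x, θ(x, y)` with `θ` existential,
the formulas `∃ y ≤ x, θ(x, y)` with `θ` universal, and is closed under conjunction and
disjunction. (The variable `x` is `&0`, the variable `y` is `&1`.) -/
inductive Gam : Language.order.BoundedFormula Empty 1 → Prop
  | exist {φ : Language.order.BoundedFormula Empty 1} : φ.IsExistential → Gam φ
  | univ {φ : Language.order.BoundedFormula Empty 1} : φ.IsUniversal → Gam φ
  | allBelow {θ : Language.order.BoundedFormula Empty 2} :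
      θ.IsExistential → Gam (((&1 : Language.order.Term (Empty ⊕ Fin 2)).le &0).imp θ).all
  | allAbove {θ : Language.order.BoundedFormula Empty 2} :
      θ.IsExistential → Gam (((&0 : Language.order.Term (Empty ⊕ Fin 2)).le &1).imp θ).all
  | exBelow {θ : Language.order.BoundedFormula Empty 2} :
      θ.IsUniversal → Gam (((&1 : Language.order.Term (Empty ⊕ Fin 2)).le &0) ⊓ θ).ex
  | and {φ ψ : Language.order.BoundedFormula Empty 1} : Gam φ → Gam ψ → Gam (φ ⊓ ψ)
  | or {φ ψ : Language.order.BoundedFormula Empty 1} : Gam φ → Gam ψ → Gam (φ ⊔ ψ)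

section transfer

variable {M : Type} [PartialOrder M] [Language.order.Structure M]
  [Language.order.OrderedStructure M]

omit [Language.order.Structure M] [Language.order.OrderedStructure M] in
/-- the finite poset of a tuple -/
theorem finite_type {n : ℕ} {xs : Fin n → M} :
    ∃ (P : Type) (_ : PartialOrder P) (_ : Finite P) (g : P ↪o M) (ps : Fin n → P), g ∘ ps = xs := by
  refine ⟨Set.range xs, inferInstance, Set.finite_range xs |>.to_subtype,
    OrderEmbedding.subtype _, fun i => ⟨xs i, ⟨i, rfl⟩⟩, ?_⟩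
  funext i; rfl

attribute [local instance] orderStructure

omit [PartialOrder M] [Language.order.Structure M] [Language.order.OrderedStructure M] in
theorem default_comp {P : Type} (f : P → M) : f ∘ (default : Empty → P) = default := by
  funext x
  exact x.elim

omit [PartialOrder M] [Language.order.Structure M] [Language.order.OrderedStructure M] in
theorem snoc_castSucc {n : ℕ} (ps : Fin (n+1) → M) :
    (Fin.snoc (ps ∘ Fin.castSucc) (ps (Fin.last n)) : Fin (n+1) → M) = ps := by
  funext i
  refine Fin.lastCases ?_ (fun i => ?_) i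
  · simp
  · simp

theorem exist_down {n : ℕ} {θ : Language.order.BoundedFormula Empty n} (h : θ.IsExistential)
    {xs : Fin n → M} (hθ : θ.Realize default xs) :
    ∃ (P : Type) (_ : PartialOrder P) (_ : Finite P) (g : P ↪o M) (ps : Fin n → P),
      g ∘ ps = xs ∧ θ.Realize (M := P) default ps := by
  induction h with
  | of_isQF hQF =>
    obtain ⟨P, i1, i2, g, ps, hps⟩ := finite_type (xs := xs)
    have : Language.order.OrderedStructure P := ⟨fun _ => Iff.rfl⟩
    refine ⟨P, i1, i2, g, ps, hps, ?_⟩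
    refine (hQF.realize_embedding g (v := default) (xs := ps)).1 ?_
    rw [hps, default_comp]
    exact hθ
  | ex _ ih =>
    rw [realize_ex] at hθ
    obtain ⟨a, ha⟩ := hθ
    obtain ⟨P, i1, i2, g, ps, hps, hr⟩ := ih ha
    refine ⟨P, i1, i2, g, ps ∘ Fin.castSucc, ?_, ?_⟩
    · funext i
      have := congrFun hps i.castSucc
      simpa using this
    · rw [realize_ex]
      refine ⟨ps (Fin.last _), ?_⟩
      rw [snoc_castSucc]
      exact hr

theorem univ_down {n : ℕ} {θ : Language.order.BoundedFormula Empty n} (h : θ.IsUniversal)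
    {xs : Fin n → M} (hθ : ¬ θ.Realize default xs) :
    ∃ (P : Type) (_ : PartialOrder P) (_ : Finite P) (g : P ↪o M) (ps : Fin n → P),
      g ∘ ps = xs ∧ ¬ θ.Realize (M := P) default ps := by
  induction h with
  | of_isQF hQF =>
    obtain ⟨P, i1, i2, g, ps, hps⟩ := finite_type (xs := xs)
    have : Language.order.OrderedStructure P := ⟨fun _ => Iff.rfl⟩
    refine ⟨P, i1, i2, g, ps, hps, fun hc => hθ ?_⟩
    have := (hQF.realize_embedding g (v := default) (xs := ps)).2 hc
    rw [hps, default_comp] at this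
    exact this
  | all _ ih =>
    rw [realize_all] at hθ
    push Not at hθ
    obtain ⟨a, ha⟩ := hθ
    obtain ⟨P, i1, i2, g, ps, hps, hr⟩ := ih ha
    refine ⟨P, i1, i2, g, ps ∘ Fin.castSucc, ?_, ?_⟩
    · funext i
      have := congrFun hps i.castSucc
      simpa using this
    · rw [realize_all]
      intro hall
      apply hr
      have := hall (ps (Fin.last _))
      rw [snoc_castSucc] at this
      exact this

theorem exist_up {n : ℕ} {θ : Language.order.BoundedFormula Empty n} (h : θ.IsExistential)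
    {P : Type} [PartialOrder P] {ps : Fin n → P} (hr : θ.Realize (M := P) default ps)
    (f : P ↪o M) : θ.Realize default (f ∘ ps) := by
  have : Language.order.OrderedStructure P := ⟨fun _ => Iff.rfl⟩
  have h1 := h.realize_embedding f hr
  rw [default_comp] at h1
  exact h1

theorem univ_up {n : ℕ} {θ : Language.order.BoundedFormula Empty n} (h : θ.IsUniversal)
    {P : Type} [PartialOrder P] {ps : Fin n → P} (f : P ↪o M)
    (hr : θ.Realize default (f ∘ ps)) : θ.Realize (M := P) default ps := by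
  have : Language.order.OrderedStructure P := ⟨fun _ => Iff.rfl⟩
  refine h.realize_embedding f ?_
  rw [default_comp]
  exact hr

theorem snoc_eq (a y : M) : (Fin.snoc ![a] y : Fin 2 → M) = ![a, y] := by
  funext i
  match i with
  | 0 => rfl
  | 1 => rfl

theorem realize_allBelow {θ : Language.order.BoundedFormula Empty 2} {a : M} :
    (((&1 : Language.order.Term (Empty ⊕ Fin 2)).le &0).imp θ).all.Realize default ![a] ↔
      ∀ y ≤ a, θ.Realize default ![a, y] := by
  rw [realize_all]
  refine forall_congr' fun y => ?_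
  rw [realize_imp, Term.realize_le, snoc_eq]
  exact Iff.rfl

theorem realize_allAbove {θ : Language.order.BoundedFormula Empty 2} {a : M} :
    (((&0 : Language.order.Term (Empty ⊕ Fin 2)).le &1).imp θ).all.Realize default ![a] ↔
      ∀ y ≥ a, θ.Realize default ![a, y] := by
  rw [realize_all]
  refine forall_congr' fun y => ?_
  rw [realize_imp, Term.realize_le, snoc_eq]
  exact Iff.rfl

theorem realize_exBelow {θ : Language.order.BoundedFormula Empty 2} {a : M} :
    (((&1 : Language.order.Term (Empty ⊕ Fin 2)).le &0) ⊓ θ).ex.Realize default ![a] ↔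
      ∃ y ≤ a, θ.Realize default ![a, y] := by
  rw [realize_ex]
  refine exists_congr fun y => ?_
  rw [realize_inf, Term.realize_le, snoc_eq]
  exact Iff.rfl

/-- all pointed finite posets are realised around `a` -/
def R1 (a : M) : Prop := ∀ (P : Type) [PartialOrder P] [Finite P] (p : P), ∃ f : P ↪o M, f p = a
/-- all pointed finite posets are realised around `a`, below every `y > a` -/
def R2 (a : M) : Prop := ∀ y > a, ∀ (P : Type) [PartialOrder P] [Finite P] (p : P),
  ∃ f : P ↪o M, f p = a ∧ ∀ q, f q < y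
/-- all pointed finite posets are realised around `a`, above every `y < a` -/
def R3 (a : M) : Prop := ∀ y < a, ∀ (P : Type) [PartialOrder P] [Finite P] (p : P),
  ∃ f : P ↪o M, f p = a ∧ ∀ q, y < f q

omit [Language.order.Structure M] [Language.order.OrderedStructure M] in
theorem ext_bot {a y : M} (hy : y < a) (h : R3 a) {P : Type} [PartialOrder P] [Finite P]
    {p b : P} (hb : ∀ q, b ≤ q) (hpb : p ≠ b) : ∃ f : P ↪o M, f p = a ∧ f b = y := by
  classical
  obtain ⟨f, hf1, hf2⟩ := h y hy {q : P // q ≠ b} ⟨p, hpb⟩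
  let F : P → M := fun q => if hq : q = b then y else f ⟨q, hq⟩
  have hFb : F b = y := by simp [F]
  have hFq : ∀ q (hq : q ≠ b), F q = f ⟨q, hq⟩ := fun q hq => by simp [F, hq]
  refine ⟨OrderEmbedding.ofMapLEIff F (fun q q' => ?_), ?_, hFb⟩
  · by_cases h1 : q = b
    · subst h1
      rw [hFb]
      refine iff_of_true ?_ (hb _)
      by_cases h2 : q' = q
      · rw [h2, hFb]
      · rw [hFq q' h2]; exact (hf2 _).le
    · by_cases h2 : q' = b
      · subst h2
        rw [hFb, hFq q h1]
        refine iff_of_false (not_le_of_gt (hf2 _)) (fun h3 => h1 (le_antisymm h3 (hb q)))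
      · rw [hFq q h1, hFq q' h2, f.le_iff_le]
        exact Iff.rfl
  · show F p = a
    rw [hFq p hpb]; exact hf1

omit [Language.order.Structure M] [Language.order.OrderedStructure M] in
theorem ext_top {a y : M} (hy : a < y) (h : R2 a) {P : Type} [PartialOrder P] [Finite P]
    {p b : P} (hb : ∀ q, q ≤ b) (hpb : p ≠ b) : ∃ f : P ↪o M, f p = a ∧ f b = y := by
  classical
  obtain ⟨f, hf1, hf2⟩ := h y hy {q : P // q ≠ b} ⟨p, hpb⟩
  let F : P → M := fun q => if hq : q = b then y else f ⟨q, hq⟩
  have hFb : F b = y := by simp [F]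
  have hFq : ∀ q (hq : q ≠ b), F q = f ⟨q, hq⟩ := fun q hq => by simp [F, hq]
  refine ⟨OrderEmbedding.ofMapLEIff F (fun q q' => ?_), ?_, hFb⟩
  · by_cases h2 : q' = b
    · subst h2
      rw [hFb]
      refine iff_of_true ?_ (hb _)
      by_cases h1 : q = q'
      · rw [h1, hFb]
      · rw [hFq q h1]; exact (hf2 _).le
    · by_cases h1 : q = b
      · subst h1
        rw [hFb, hFq q' h2]
        refine iff_of_false (not_le_of_gt (hf2 _)) (fun h3 => h2 (le_antisymm (hb q') h3))
      · rw [hFq q h1, hFq q' h2, f.le_iff_le]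
        exact Iff.rfl
  · show F p = a
    rw [hFq p hpb]; exact hf1

omit [Language.order.Structure M] [Language.order.OrderedStructure M] in
theorem comp_pair {P : Type} [PartialOrder P] (f : P ↪o M) (ps : Fin 2 → P) :
    f ∘ ps = ![f (ps 0), f (ps 1)] := by
  funext i
  match i with
  | 0 => rfl
  | 1 => rfl

omit [Language.order.Structure M] [Language.order.OrderedStructure M] in
theorem comp_one {P : Type} [PartialOrder P] (f : P ↪o M) (ps : Fin 1 → P) :
    f ∘ ps = ![f (ps 0)] := by
  funext i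
  match i with
  | 0 => rfl

/-- an existential formula true of two comparable elements of one kind is true of others -/
theorem ex_transfer {θ : Language.order.BoundedFormula Empty 2} (hθ : θ.IsExistential)
    {a b a' b' : M} (h : θ.Realize default ![a, b])
    (hF : ∀ (P : Type) [PartialOrder P] [Finite P] (p q : P), (∃ g : P ↪o M, g p = a ∧ g q = b) →
      ∃ f : P ↪o M, f p = a' ∧ f q = b') : θ.Realize default ![a', b'] := by
  obtain ⟨P, i1, i2, g, ps, hps, hr⟩ := exist_down hθ h
  rw [comp_pair] at hps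
  have h0 : g (ps 0) = a := congrFun hps 0
  have h1 : g (ps 1) = b := congrFun hps 1
  obtain ⟨f, hf0, hf1⟩ := hF P (ps 0) (ps 1) ⟨g, h0, h1⟩
  have := exist_up hθ hr f
  rwa [comp_pair, hf0, hf1] at this

theorem un_transfer {θ : Language.order.BoundedFormula Empty 2} (hθ : θ.IsUniversal)
    {a b a' b' : M} (h : θ.Realize default ![a, b])
    (hF : ∀ (P : Type) [PartialOrder P] [Finite P] (p q : P), (∃ g : P ↪o M, g p = a' ∧ g q = b') →
      ∃ f : P ↪o M, f p = a ∧ f q = b) : θ.Realize default ![a', b'] := by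
  by_contra hcon
  obtain ⟨P, i1, i2, g, ps, hps, hr⟩ := univ_down hθ hcon
  rw [comp_pair] at hps
  have h0 : g (ps 0) = a' := congrFun hps 0
  have h1 : g (ps 1) = b' := congrFun hps 1
  obtain ⟨f, hf0, hf1⟩ := hF P (ps 0) (ps 1) ⟨g, h0, h1⟩
  apply hr
  apply univ_up hθ f
  rwa [comp_pair, hf0, hf1]

theorem gam_transfer {a₀ a₁ z k : M} (hz : ∀ x, z ≤ x) (hk : ∀ x, x ≤ k) (hz0 : z < a₀)
    (hz1 : z < a₁) (hk0 : a₀ < k) (h10 : R1 a₀) (h11 : R1 a₁) (h21 : R2 a₁) (h30 : R3 a₀)
    (h31 : R3 a₁) {φ : Language.order.BoundedFormula Empty 1} (hφ : Gam φ)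
    (h : φ.Realize default ![a₀]) : φ.Realize default ![a₁] := by
  -- the case `y = x`
  have same : ∀ {a a' : M}, R1 a' → ∀ (P : Type) [PartialOrder P] [Finite P] (p q : P),
      (∃ g : P ↪o M, g p = a ∧ g q = a) → ∃ f : P ↪o M, f p = a' ∧ f q = a' := by
    intro a a' ha P _ _ p q hg
    obtain ⟨g, hg1, hg2⟩ := hg
    have hpq : p = q := g.injective (hg1.trans hg2.symm)
    subst hpq
    obtain ⟨f, hf⟩ := ha P p
    exact ⟨f, hf, hf⟩
  -- the case `z`, bottom
  have bott : ∀ {a a' y : M}, z < a → y < a' → R3 a' → ∀ (P : Type) [PartialOrder P] [Finite P]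
      (p q : P), (∃ g : P ↪o M, g p = a ∧ g q = z) → ∃ f : P ↪o M, f p = a' ∧ f q = y := by
    intro a a' y hza hya ha P _ _ p q hg
    obtain ⟨g, hg1, hg2⟩ := hg
    refine ext_bot hya ha (fun r => ?_) ?_
    · rw [← g.le_iff_le, hg2]; exact hz _
    · intro hpq
      rw [hpq, hg2] at hg1
      rw [hg1] at hza
      exact lt_irrefl _ hza
  induction hφ with
  | exist hE =>
    obtain ⟨P, i1, i2, g, ps, hps, hr⟩ := exist_down hE h
    obtain ⟨f, hf⟩ := h11 P (ps 0)
    have := exist_up hE hr f
    rwa [comp_one, hf] at this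
  | univ hU =>
    by_contra hcon
    obtain ⟨P, i1, i2, g, ps, hps, hr⟩ := univ_down hU hcon
    obtain ⟨f, hf⟩ := h10 P (ps 0)
    apply hr
    apply univ_up hU f
    rwa [comp_one, hf]
  | allBelow hE =>
    rw [realize_allBelow] at h ⊢
    intro y hy
    rcases eq_or_lt_of_le hy with rfl | hy
    · exact ex_transfer hE (h a₀ le_rfl) (same h11)
    · exact ex_transfer hE (h z (hz _)) (bott hz0 hy h31)
  | allAbove hE =>
    rw [realize_allAbove] at h ⊢
    intro y hy
    rcases eq_or_lt_of_le hy with rfl | hy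
    · exact ex_transfer hE (h a₀ le_rfl) (same h11)
    · refine ex_transfer hE (h k (hk _)) ?_
      intro P _ _ p q hg
      obtain ⟨g, hg1, hg2⟩ := hg
      refine ext_top hy h21 (fun r => ?_) ?_
      · rw [← g.le_iff_le, hg2]; exact hk _
      · intro hpq
        rw [hpq, hg2] at hg1
        rw [hg1] at hk0
        exact lt_irrefl _ hk0
  | exBelow hU =>
    rw [realize_exBelow] at h ⊢
    obtain ⟨y, hy, h⟩ := h
    rcases eq_or_lt_of_le hy with rfl | hy
    · exact ⟨a₁, le_rfl, un_transfer hU h (same h10)⟩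
    · exact ⟨z, hz _, un_transfer hU h (bott hz1 hy h30)⟩
  | and _ _ ih1 ih2 =>
    rw [realize_inf] at h ⊢
    exact ⟨ih1 h.1, ih2 h.2⟩
  | or _ _ ih1 ih2 =>
    rw [realize_sup] at h ⊢
    exact h.imp ih1 ih2

end transfer

/-- restriction of an embedding into the degrees -/
theorem to_DN {n : ℕ} {P : Type} [PartialOrder P] (f : P ↪o TuringDegree) (hf : ∀ q, f q ∈ DN n) :
    ∃ g : P ↪o DN n, ∀ q, (g q : TuringDegree) = f q :=
  ⟨OrderEmbedding.ofMapLEIff (fun q => (⟨f q, hf q⟩ : DN n)) (fun q q' => f.le_iff_le),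
    fun _ => rfl⟩

theorem R3_DN {m n : ℕ} (hmn : m + 1 ≤ n) : R3 (⟨aa m, DN_mono hmn (aa_mem m)⟩ : DN n) := by
  intro y hy P _ _ p
  obtain ⟨f, hf1, hf2⟩ := below_deg p m hmn y.2 (b := y) hy
  obtain ⟨g, hg⟩ := to_DN f (fun q => (hf2 q).1)
  refine ⟨g, Subtype.ext ((hg p).trans hf1), fun q => ?_⟩
  show (y : TuringDegree) < (g q : TuringDegree)
  rw [hg]
  exact (hf2 q).2

theorem R2_DN (m : ℕ) : R2 (⟨aa m, aa_mem m⟩ : DN (m+1)) := by
  intro y hy P _ _ p
  obtain ⟨f, hf1, hf2⟩ := above_deg p m y.2 (c := y) hy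
  obtain ⟨g, hg⟩ := to_DN f (fun q => (hf2 q).1)
  refine ⟨g, Subtype.ext ((hg p).trans hf1), fun q => ?_⟩
  show (g q : TuringDegree) < (y : TuringDegree)
  rw [hg]
  exact (hf2 q).2

theorem R1_DN {m n : ℕ} (hmn : m + 1 ≤ n) : R1 (⟨aa m, DN_mono hmn (aa_mem m)⟩ : DN n) := by
  intro P _ _ p
  obtain ⟨f, hf1, hf2⟩ := below_deg p m hmn (zz_mem n) (zz_lt_aa m)
  obtain ⟨g, hg⟩ := to_DN f (fun q => (hf2 q).1)
  exact ⟨g, Subtype.ext ((hg p).trans hf1)⟩

/-- **Main theorem.** -/
theorem gam_main (n : ℕ) : ∃ a₀ a₁ : DN (n+1), (a₀ : TuringDegree) ∈ DN 1 ∧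
    (a₁ : TuringDegree) ∉ DN n ∧ ∀ φ : Language.order.BoundedFormula Empty 1, Gam φ →
      φ.Realize default ![a₀] → φ.Realize default ![a₁] := by
  have h1 : 0 + 1 ≤ n + 1 := by omega
  refine ⟨⟨aa 0, DN_mono h1 (aa_mem 0)⟩, ⟨aa n, aa_mem n⟩, aa_mem 0, aa_not_mem n, ?_⟩
  intro φ hφ h
  refine gam_transfer (z := ⟨zz, zz_mem _⟩) (k := ⟨kk, kk_mem h1⟩) (fun x => zz_le x.2)
    (fun x => le_kk x.2) (zz_lt_aa 0) (zz_lt_aa n) (aa_lt_kk 0) (R1_DN h1) (R1_DN le_rfl)
    (R2_DN n) (R3_DN h1) (R3_DN le_rfl) hφ h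

end DegC
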