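import Pool.Agent.Lib_helper53.Deg2.VerT

/-!
# A complete c.e. set
-/

namespace DegC

open DegB

theorem bcnt_le_encard {p : ℕ → Bool} (n : ℕ) : (bcnt n p : ℕ∞) ≤ {t | p t = true}.encard := by
  have h : bcnt n p = ((Finset.range n).filter (fun t => p t = true)).card := by
    induction n with
    | zero => simp
    | succ n ih =>
      rw [bcnt_succ, Finset.range_add_one, Finset.filter_insert, ih]
      cases h : p n
      · simp
      · simp
  rw [h, ← Set.encard_coe_eq_coe_finsetCard]
  apply Set.encard_le_encard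
  intro t ht
  simp only [Finset.coe_filter, Finset.mem_range, Set.mem_ofPred_eq] at ht
  exact ht.2

/-- number of changes of the `c`-th approximation at `x` before stage `s` -/
def nch (c x s : ℕ) : ℕ :=
  bcnt s (fun t => !(decide ((Xap c t x).toNat = (Xap c (t+1) x).toNat)))

theorem nch_parity (c x s : ℕ) : Xap c s x = decide (nch c x s % 2 = 1) := by
  unfold nch
  induction s with
  | zero => rfl
  | succ s ih =>
    rw [bcnt_succ]
    cases h1 : Xap c s x <;> cases h2 : Xap c (s+1) x <;> rw [h1] at ih <;> simp at ih ⊢ <;> omega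

theorem nch_mono {c x s s' : ℕ} (h : s ≤ s') : nch c x s ≤ nch c x s' := by
  refine monotone_nat_of_le_succ (f := nch c x) (fun n => ?_) h
  unfold nch
  rw [bcnt_succ]; omega

theorem nch_le {c x n : ℕ} (h : (chg fun s => Xap c s x).encard ≤ n) (s : ℕ) : nch c x s ≤ n := by
  have h1 := bcnt_le_encard (p := fun t => !(decide ((Xap c t x).toNat = (Xap c (t+1) x).toNat))) s
  have h2 : {t | (!(decide ((Xap c t x).toNat = (Xap c (t+1) x).toNat))) = true} =
      chg fun s => Xap c s x := by
    ext t
    simp only [Set.mem_ofPred_eq, chg]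
    cases Xap c t x <;> cases Xap c (t+1) x <;> simp
  rw [h2] at h1
  have h3 := h1.trans h
  exact_mod_cast h3

/-- approximation of the complete set -/
def Kg (z s : ℕ) : Bool :=
  decide (0 < s) && decide (z.usnd.usnd ≤ nch z.ufst z.usnd.ufst s)

/-- the complete set -/
noncomputable def Kl (z : ℕ) : Bool := @decide (∃ s, Kg z s = true) (Classical.dec _)

theorem Kl_iff' {z : ℕ} : Kl z = true ↔ ∃ s, Kg z s = true := by
  unfold Kl
  exact @decide_eq_true_iff _ (Classical.dec _)

theorem Kg_mono {z s s' : ℕ} (h : s ≤ s') (hk : Kg z s = true) : Kg z s' = true := by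
  unfold Kg at hk ⊢
  rw [Bool.and_eq_true, decide_eq_true_eq, decide_eq_true_eq] at hk ⊢
  exact ⟨by omega, hk.2.trans (nch_mono h)⟩

theorem Kl_lim (z : ℕ) : ∃ s0, ∀ s ≥ s0, Kg z s = Kl z := by
  by_cases h : ∃ s, Kg z s = true
  · obtain ⟨s0, hs0⟩ := h
    refine ⟨s0, fun s hs => ?_⟩
    rw [Kg_mono hs hs0, eq_comm]
    exact Kl_iff'.2 ⟨s0, hs0⟩
  · refine ⟨0, fun s _ => ?_⟩
    have h1 : Kg z s = false := by
      rw [Bool.eq_false_iff]; intro hc; exact h ⟨s, hc⟩
    rw [h1, eq_comm, Bool.eq_false_iff]
    exact fun hc => h (Kl_iff'.1 hc)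

theorem pr_nch {α : Type*} [Primcodable α] {c x s : α → ℕ} (hc : Primrec c) (hx : Primrec x)
    (hs : Primrec s) : Primrec fun q => nch (c q) (x q) (s q) := by
  unfold nch
  refine pr_bcnt hs (pr_not (pr_deq ?_ ?_))
  · fun_prop
  · fun_prop

theorem Approx_K : Approx 1 Kg Kl := by
  refine ⟨?_, fun z => rfl, Kl_lim, fun z => ?_⟩
  · apply Primrec.to_comp
    unfold Kg
    refine pr_and (by fun_prop) (pr_dle (by fun_prop) (pr_nch ?_ ?_ ?_))
    · fun_prop
    · fun_prop
    · fun_prop
  · rw [Nat.cast_one, Set.encard_le_one_iff]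
    intro s s' hs hs'
    simp only [chg, Set.mem_ofPred_eq] at hs hs'
    have key : ∀ t, Kg z t ≠ Kg z (t+1) → Kg z t = false ∧ Kg z (t+1) = true := by
      intro t ht
      cases h1 : Kg z t
      · cases h2 : Kg z (t+1)
        · rw [h1, h2] at ht; exact absurd rfl ht
        · exact ⟨rfl, rfl⟩
      · have := Kg_mono (Nat.le_succ t) h1
        rw [h1, this] at ht; exact absurd rfl ht
    obtain ⟨h1, h2⟩ := key s hs
    obtain ⟨h3, h4⟩ := key s' hs'
    rcases Nat.lt_trichotomy s s' with h | h | h
    · have := Kg_mono (z := z) (show s + 1 ≤ s' by omega) h2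
      rw [h3] at this; simp at this
    · exact h
    · have := Kg_mono (z := z) (show s' + 1 ≤ s by omega) h4
      rw [h1] at this; simp at this

theorem NCE_K : NCE 1 Kl := ⟨Kg, Approx_K⟩

theorem Kl_iff {z : ℕ} : Kl z = true ↔ ∃ s, 0 < s ∧ z.usnd.usnd ≤ nch z.ufst z.usnd.ufst s := by
  rw [Kl_iff']
  unfold Kg
  simp

theorem K_top {n : ℕ} {A : ℕ → Bool} (hA : NCE n A) : TR A Kl := by
  obtain ⟨g, hg⟩ := hA
  obtain ⟨c, hc1, hc2, _⟩ := exists_index hg
  rw [TR_iff]
  refine ⟨fun x σ => bif ball (n+2) (fun i => decide (Nat.pair c (Nat.pair x i) < σ.length)) then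
    some ((decide (bcnt (n+2) (fun i => σ.getD (Nat.pair c (Nat.pair x i)) false) % 2 = 0)).toNat)
    else none, ?_, ?_, ?_⟩
  · show Computable fun q : ℕ × List Bool =>
      bif ball (n+2) (fun i => decide (Nat.pair c (Nat.pair q.1 i) < q.2.length)) then
      some ((decide (bcnt (n+2) (fun i => q.2.getD (Nat.pair c (Nat.pair q.1 i)) false) % 2 = 0)).toNat)
      else none
    apply Primrec.to_comp
    refine pr_cond (pr_ball (by fun_prop) (by fun_prop)) (pr_some (pr_toNat (pr_deq (pr_mod
      (pr_bcnt (by fun_prop) ?_) (by fun_prop)) (by fun_prop)))) (by fun_prop)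
    exact pr_lgetD (by fun_prop) (by fun_prop)
  · intro x σ τ v hs hv
    simp only at hv ⊢
    cases hb : ball (n+2) (fun i => decide (Nat.pair c (Nat.pair x i) < σ.length))
    · rw [hb] at hv; simp at hv
    · rw [hb, cond_true] at hv
      rw [ball_iff] at hb
      have h1 : ball (n+2) (fun i => decide (Nat.pair c (Nat.pair x i) < τ.length)) = true := by
        rw [ball_iff]
        intro k hk
        have := hb k hk
        rw [decide_eq_true_eq] at this ⊢
        exact this.trans_le hs.length_le
      rw [h1, cond_true, ← hv]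
      have h2 : bcnt (n+2) (fun i => τ.getD (Nat.pair c (Nat.pair x i)) false) =
          bcnt (n+2) (fun i => σ.getD (Nat.pair c (Nat.pair x i)) false) := by
        refine bcnt_congr fun k hk => ?_
        have := hb k hk
        rw [decide_eq_true_eq] at this
        obtain ⟨t, rfl⟩ := hs
        rw [List.getD_eq_getElem?_getD, List.getD_eq_getElem?_getD, List.getElem?_append_left this]
      rw [h2]
  · intro x
    obtain ⟨s0, hs0⟩ := hc1 x
    -- the number of changes is eventually constant
    obtain ⟨s1, hs1⟩ : ∃ s1, ∀ s, nch c x s ≤ nch c x s1 := by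
      have : ∀ k, (∀ s, nch c x s ≤ k) → ∃ s1, ∀ s, nch c x s ≤ nch c x s1 := by
        intro k
        induction k with
        | zero => intro h; exact ⟨0, fun s => (h s).trans (Nat.zero_le _)⟩
        | succ k ih =>
          intro h
          by_cases h' : ∃ s, nch c x s = k + 1
          · obtain ⟨s, hs⟩ := h'
            exact ⟨s, fun s' => (h s').trans hs.ge⟩
          · apply ih
            intro s
            have h1 := h s
            have h2 : nch c x s ≠ k + 1 := fun hc => h' ⟨s, hc⟩
            omega
      exact this n (fun s => nch_le (hc2 x) s)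
    have hN : ∀ i, Kl (Nat.pair c (Nat.pair x i)) = decide (i ≤ nch c x s1) := by
      intro i
      rw [Bool.eq_iff_iff, decide_eq_true_eq, Kl_iff]
      simp only [Nat.ufst_pair, Nat.usnd_pair]
      constructor
      · rintro ⟨s, _, hs⟩
        exact hs.trans (hs1 s)
      · intro h
        exact ⟨s1+1, by omega, h.trans (nch_mono (by omega))⟩
    have hcnt : ∀ k, bcnt k (fun i => decide (i ≤ nch c x s1)) = min k (nch c x s1 + 1) := by
      intro k
      induction k with
      | zero => simp
      | succ k ih =>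
        rw [bcnt_succ, ih]
        by_cases h : k ≤ nch c x s1
        · simp only [h, decide_true, Bool.toNat_true]; omega
        · simp only [h, decide_false, Bool.toNat_false]; omega
    have hA : A x = decide (nch c x s1 % 2 = 1) := by
      have h1 := hs0 (max s0 s1) (by omega)
      rw [← h1, nch_parity]
      have h2 : nch c x (max s0 s1) = nch c x s1 :=
        le_antisymm (hs1 _) (nch_mono (le_max_right _ _))
      rw [h2]
    obtain ⟨L, hL⟩ : ∃ L, ∀ i < n + 2, Nat.pair c (Nat.pair x i) < L := by
      have : ∀ k, ∃ L, ∀ i < k, Nat.pair c (Nat.pair x i) < L := by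
        intro k
        induction k with
        | zero => exact ⟨0, fun i hi => absurd hi (Nat.not_lt_zero _)⟩
        | succ k ih =>
          obtain ⟨L, hL⟩ := ih
          refine ⟨max L (Nat.pair c (Nat.pair x k) + 1), fun i hi => ?_⟩
          rcases Nat.lt_succ_iff_lt_or_eq.1 hi with h | h
          · have := hL i h; omega
          · subst h; omega
      exact this (n+2)
    refine ⟨L, ?_⟩
    simp only
    have h1 : ball (n+2) (fun i => decide (Nat.pair c (Nat.pair x i) < (pre Kl L).length)) = true := by
      rw [ball_iff]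
      intro k hk
      rw [decide_eq_true_eq, pre_length]
      exact hL k hk
    rw [h1, cond_true]
    have h2 : bcnt (n+2) (fun i => (pre Kl L).getD (Nat.pair c (Nat.pair x i)) false) =
        bcnt (n+2) (fun i => decide (i ≤ nch c x s1)) := by
      refine bcnt_congr fun k hk => ?_
      rw [List.getD_eq_getElem?_getD, pre_getElem?, if_pos (hL k hk), Option.getD_some, hN]
    rw [h2, hcnt, hA]
    have h3 := nch_le (hc2 x) s1
    have h4 : min (n+2) (nch c x s1 + 1) = nch c x s1 + 1 := by omega
    rw [h4]
    congr 2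
    rcases Nat.mod_two_eq_zero_or_one (nch c x s1) with h5 | h5
    · have h6 : (nch c x s1 + 1) % 2 = 1 := by omega
      simp [h5, h6]
    · have h6 : (nch c x s1 + 1) % 2 = 0 := by omega
      simp [h5, h6]

end DegC
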