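import Pool.Agent.Lib_helper53.Deg2.Halt

/-!
# The pieces of the splitting, selections of columns
-/

namespace DegC

open DegB

/-- the part of `X` selected by `P` (element, home) -/
noncomputable def Zl (m c' : ℕ) (X : ℕ → Bool) (P : ℕ → ℕ → Bool) (x : ℕ) : Bool :=
  X x && P x (home m c' x)

theorem Zl_true (m c' : ℕ) (X : ℕ → Bool) : Zl m c' X (fun _ _ => true) = X := by
  funext x; simp [Zl]

theorem Yl_eq (m c' : ℕ) (X : ℕ → Bool) (i : ℕ) :
    Yl m c' X i = Zl m c' X (fun _ k => !decide (k = i)) := rfl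

theorem home_hmL {m c' x t : ℕ} (h : fe c'.ufst x t = true) :
    hmL (hist m t) c' x t = home m c' x := by
  rw [home_eq h]
  exact hm_congr (fun t' ht' => al_hist ht')

section
variable {m c' : ℕ} {X : ℕ → Bool} (hX : ∀ x, ∃ s0, ∀ s ≥ s0, Xap c'.ufst s x = X x)

include hX in
theorem TR_piece {P Q : ℕ → ℕ → Bool} (hP : Computable fun q : ℕ × ℕ => P q.1 q.2)
    (hPQ : ∀ x i, P x i = true → Q x i = true) :
    TR (Zl m c' X P) (Zl m c' X Q) := by
  rw [TR_iff]
  refine ⟨fun x σ => (σ[x]?).bind fun b => bif b then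
    (ffind σ.length (fun t => bif fe c'.ufst x t then some t else none)).map
      (fun t => (P x (hmL (hist m t) c' x t)).toNat) else some 0, ?_, ?_, ?_⟩
  · show Computable fun q : ℕ × List Bool => (q.2[q.1]?).bind fun b => bif b then
      (ffind q.2.length (fun t => bif fe c'.ufst q.1 t then some t else none)).map
        (fun t => (P q.1 (hmL (hist m t) c' q.1 t)).toNat) else some 0
    have h1 : Computable fun q : ℕ × List Bool =>
        ffind q.2.length (fun t => bif fe c'.ufst q.1 t then some t else none) := by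
      apply Primrec.to_comp
      fun_prop
    have h2 : Computable fun r : ℕ × ℕ => hmL (hist m r.2) c' r.1 r.2 := by
      apply Primrec.to_comp
      fun_prop
    refine co_obind (by fun_prop) ?_
    refine co_cond (by fun_prop) ?_ (by fun_prop)
    refine co_omap (f := fun q : (ℕ × List Bool) × Bool =>
      ffind q.1.2.length (fun t => bif fe c'.ufst q.1.1 t then some t else none))
      (h1.comp (co_fst co_id)) ?_
    refine co_toNat (hP.comp (f := fun q : ℕ × ℕ => P q.1 q.2)
      (g := fun q : ((ℕ × List Bool) × Bool) × ℕ => (q.1.1.1, hmL (hist m q.2) c' q.1.1.1 q.2)) ?_)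
    refine co_mk (by fun_prop) ?_
    exact h2.comp (f := fun r : ℕ × ℕ => hmL (hist m r.2) c' r.1 r.2)
      (g := fun q : ((ℕ × List Bool) × Bool) × ℕ => (q.1.1.1, q.2)) (by fun_prop)
  · intro x σ τ v hs hv
    simp only [Option.bind_eq_some_iff] at hv ⊢
    obtain ⟨b, hb, hv⟩ := hv
    have hb' : τ[x]? = some b := by
      obtain ⟨t, rfl⟩ := hs
      have hy : x < σ.length := by
        by_contra hc
        rw [List.getElem?_eq_none (by omega)] at hb
        simp at hb
      rw [List.getElem?_append_left hy]; exact hb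
    refine ⟨b, hb', ?_⟩
    cases b
    · exact hv
    · simp only [cond_true, Option.map_eq_some_iff] at hv ⊢
      obtain ⟨t, h1, h2⟩ := hv
      exact ⟨t, ffind_mono hs.length_le h1, h2⟩
  · intro x
    cases hZ : Zl m c' X Q x
    · refine ⟨x+1, ?_⟩
      simp only [pre_getElem?, Nat.lt_succ_self, if_true, Option.bind_some, hZ, cond_false]
      have : Zl m c' X P x = false := by
        rw [Bool.eq_false_iff]
        intro h
        unfold Zl at h hZ
        rw [Bool.and_eq_true] at h
        rw [h.1, hPQ _ _ h.2] at hZ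
        simp at hZ
      rw [this]; rfl
    · have hXx : X x = true := by
        unfold Zl at hZ
        rw [Bool.and_eq_true] at hZ
        exact hZ.1
      obtain ⟨s0, hs0⟩ := hX x
      obtain ⟨t, _, ht⟩ := fe_exists (c := c'.ufst) (x := x) (s := s0)
        (by rw [hs0 s0 le_rfl]; exact hXx)
      refine ⟨max (x+1) (t+1), ?_⟩
      simp only [pre_getElem?, pre_length]
      rw [if_pos (by omega), Option.bind_some, hZ, cond_true, Option.map_eq_some_iff]
      refine ⟨t, ffind_eq_some.2 ⟨t, by omega, by rw [ht]; rfl, fun k hk => ?_⟩, ?_⟩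
      · have : fe c'.ufst x k = false := by
          rw [Bool.eq_false_iff]; intro hc
          have := fe_unique hc ht; omega
        rw [this]; rfl
      · rw [home_hmL ht]
        unfold Zl
        rw [hXx]; simp

include hX in
theorem NCE_piece {n : ℕ} (hc : ∀ x, (chg fun s => Xap c'.ufst s x).encard ≤ n)
    {P : ℕ → ℕ → Bool} (hP : Computable fun q : ℕ × ℕ => P q.1 q.2) : NCE n (Zl m c' X P) := by
  refine ⟨fun x s => Xap c'.ufst s x &&
    bex (s+1) (fun t => fe c'.ufst x t && P x (hmL (hist m t) c' x t)), ?_, ?_, ?_, ?_⟩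
  · show Computable fun q : ℕ × ℕ => Xap c'.ufst q.2 q.1 &&
      bex (q.2+1) (fun t => fe c'.ufst q.1 t && P q.1 (hmL (hist m t) c' q.1 t))
    have h1 : Computable fun q : ℕ × ℕ => Xap c'.ufst q.2 q.1 := by
      apply Primrec.to_comp
      fun_prop
    have h2 : Computable fun r : (ℕ × ℕ) × ℕ => fe c'.ufst r.1.1 r.2 := by
      apply Primrec.to_comp
      fun_prop
    have h3 : Computable fun r : (ℕ × ℕ) × ℕ => hmL (hist m r.2) c' r.1.1 r.2 := by
      apply Primrec.to_comp
      fun_prop
    refine co_and h1 (co_bex (by fun_prop) (co_and h2 ?_))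
    exact hP.comp (f := fun q : ℕ × ℕ => P q.1 q.2)
      (g := fun r : (ℕ × ℕ) × ℕ => (r.1.1, hmL (hist m r.2) c' r.1.1 r.2)) (co_mk (by fun_prop) h3)
  · intro x; simp
  · intro x
    obtain ⟨s0, hs0⟩ := hX x
    refine ⟨s0, fun s hs => ?_⟩
    rw [hs0 s hs]
    unfold Zl
    cases hXx : X x
    · rfl
    · obtain ⟨t, h1, ht⟩ := fe_exists (c := c'.ufst) (x := x) (s := s)
        (by rw [hs0 s hs]; exact hXx)
      rw [Bool.true_and, Bool.true_and]
      cases hPx : P x (home m c' x)
      · rw [Bool.eq_false_iff]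
        intro h
        rw [bex_iff] at h
        obtain ⟨t', _, h'⟩ := h
        rw [Bool.and_eq_true] at h'
        rw [home_hmL h'.1, hPx] at h'
        simp at h'
      · rw [bex_iff]
        exact ⟨t, by omega, by rw [ht, home_hmL ht, hPx]; rfl⟩
  · intro x
    refine (Set.encard_le_encard ?_).trans (hc x)
    intro s hs hcon
    apply hs
    simp only at hcon ⊢
    rw [← hcon]
    cases hXs : Xap c'.ufst s x
    · rfl
    · obtain ⟨t, h1, ht⟩ := fe_exists hXs
      rw [Bool.true_and, Bool.true_and]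
      rw [bex_succ (s+1)]
      have : fe c'.ufst x (s+1) = false := by
        rw [Bool.eq_false_iff]; intro h
        have := fe_unique h ht; omega
      rw [this]; simp

end

theorem TR_or (A B : ℕ → Bool) : TR (fun x => A x || B x) (join A B) := by
  rw [TR_iff]
  refine ⟨fun y σ => (σ[2*y]?).bind fun a => (σ[2*y+1]?).map fun b => (a || b).toNat, ?_, ?_, ?_⟩
  · show Computable fun q : ℕ × List Bool => (q.2[2*q.1]?).bind fun a => (q.2[2*q.1+1]?).map
      fun b => (a || b).toNat
    fun_prop
  · intro y σ τ v hs hv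
    simp only [Option.bind_eq_some_iff, Option.map_eq_some_iff] at hv ⊢
    obtain ⟨a, ha, b, hb, rfl⟩ := hv
    obtain ⟨t, rfl⟩ := hs
    have hy : 2 * y + 1 < σ.length := by
      by_contra hc
      rw [List.getElem?_eq_none (l := σ) (i := 2*y+1) (by omega)] at hb
      simp at hb
    exact ⟨a, by rw [List.getElem?_append_left (by omega)]; exact ha, b,
      by rw [List.getElem?_append_left hy]; exact hb, rfl⟩
  · intro y
    refine ⟨2*y+2, ?_⟩
    show ((pre (join A B) (2*y+2))[2*y]?).bind _ = _
    rw [pre_getElem?, if_pos (by omega), join_even, pre_getElem?, if_pos (by omega), join_odd]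
    rfl

theorem join_mono {A A' B B' : ℕ → Bool} (h1 : TR A A') (h2 : TR B B') :
    TR (join A B) (join A' B') :=
  TR_join (h1.trans (TR_join_left _ _)) (h2.trans (TR_join_right _ _))

/-- many-one reduction -/
theorem TR_of_comp {A W : ℕ → Bool} {f : ℕ → ℕ} (hf : Computable f) (h : ∀ x, A x = W (f x)) :
    TR A W := by
  rw [TR_iff]
  refine ⟨fun y σ => (σ[f y]?).map fun b => b.toNat, ?_, ?_, ?_⟩
  · show Computable fun q : ℕ × List Bool => (q.2[f q.1]?).map fun b => b.toNat
    refine co_omap (co_lget (by fun_prop) ?_) (by fun_prop)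
    exact hf.comp (co_fst co_id)
  · intro y σ τ v hs hv
    simp only [Option.map_eq_some_iff] at hv ⊢
    obtain ⟨b, hb, rfl⟩ := hv
    obtain ⟨t, rfl⟩ := hs
    have hy : f y < σ.length := by
      by_contra hc
      rw [List.getElem?_eq_none (by omega)] at hb
      simp at hb
    exact ⟨b, by rw [List.getElem?_append_left hy]; exact hb, rfl⟩
  · intro y
    refine ⟨f y+1, ?_⟩
    show ((pre W (f y+1))[f y]?).map _ = _
    rw [pre_getElem?, if_pos (by omega), h]
    rfl

/-- selection of columns of the master set -/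
noncomputable def Vs (m : ℕ) (P : ℕ → Bool) (x : ℕ) : Bool :=
  Ml m x && (decide (x.ufst.ufst ≤ 1) && P (colm x))

theorem MSl_eq (m k : ℕ) : MSl m k = Vs m (sel k) := rfl
theorem Vcol_eq (m i : ℕ) : Vcol m i = Vs m (fun c => decide (c = i)) := rfl

theorem co_sel (k : ℕ) : Computable (sel k) := by
  apply Primrec.to_comp
  show Primrec fun c => sel k c
  fun_prop

theorem NCE_Vs (m : ℕ) {P : ℕ → Bool} (hP : Computable P) : NCE (m+1) (Vs m P) := by
  have hPc : Computable fun x : ℕ => P (colm x) := hP.comp (by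
    apply Primrec.to_comp
    fun_prop)
  refine ⟨fun x s => ML (hist m s) s x && (decide (x.ufst.ufst ≤ 1) && P (colm x)), ?_, ?_, ?_, ?_⟩
  · have h1 : Computable fun q : ℕ × ℕ => ML (hist m q.2) q.2 q.1 := by
      apply Primrec.to_comp
      fun_prop
    have h2 : Computable fun q : ℕ × ℕ => decide (q.1.ufst.ufst ≤ 1) := by
      apply Primrec.to_comp
      exact pr_dle (by fun_prop) (by fun_prop)
    have h3 : Computable fun q : ℕ × ℕ => P (colm q.1) := hPc.comp (f := fun x : ℕ => P (colm x))
      (g := fun q : ℕ × ℕ => q.1) (Computable.fst)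
    exact co_and h1 (co_and h2 h3)
  · intro x
    show (M (al (hist m 0)) 0 x && _) = false
    unfold M
    simp
  · intro x
    obtain ⟨s0, hs0⟩ := Ml_spec m x
    refine ⟨s0, fun s hs => ?_⟩
    show (M (al (hist m s)) s x && _) = _
    rw [M_congr (a' := act m) (fun t ht => al_hist ht), hs0 s hs]
    rfl
  · intro x
    refine (Set.encard_le_encard ?_).trans (M_chg m x)
    intro s hs hcon
    apply hs
    simp only at hcon ⊢
    have h1 : ML (hist m s) s x = M (act m) s x := M_congr (fun t ht => al_hist ht)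
    have h2 : ML (hist m (s+1)) (s+1) x = M (act m) (s+1) x := M_congr (fun t ht => al_hist ht)
    rw [h1, h2, hcon]

theorem TR_Vs (m : ℕ) {P Q : ℕ → Bool} (hP : Computable P) (hPQ : ∀ c, P c = true → Q c = true) :
    TR (Vs m P) (Vs m Q) := by
  have hPc : Computable fun x : ℕ => P (colm x) := hP.comp (by
    apply Primrec.to_comp
    fun_prop)
  rw [TR_iff]
  refine ⟨fun y σ => (σ[y]?).map fun b => (b && P (colm y)).toNat, ?_, ?_, ?_⟩
  · show Computable fun q : ℕ × List Bool => (q.2[q.1]?).map fun b => (b && P (colm q.1)).toNat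
    refine co_omap (by fun_prop) (co_toNat (co_and (by fun_prop) ?_))
    exact hPc.comp (f := fun x : ℕ => P (colm x)) (g := fun q : (ℕ × List Bool) × Bool => q.1.1)
      (by fun_prop)
  · intro y σ τ v hs hv
    simp only [Option.map_eq_some_iff] at hv ⊢
    obtain ⟨b, hb, rfl⟩ := hv
    obtain ⟨t, rfl⟩ := hs
    have hy : y < σ.length := by
      by_contra hc
      rw [List.getElem?_eq_none (by omega)] at hb
      simp at hb
    exact ⟨b, by rw [List.getElem?_append_left hy]; exact hb, rfl⟩
  · intro y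
    refine ⟨y+1, ?_⟩
    show ((pre (Vs m Q) (y+1))[y]?).map _ = _
    rw [pre_getElem?, if_pos (by omega)]
    unfold Vs
    simp only [Option.map_some]
    cases hPy : P (colm y)
    · simp
    · rw [hPQ _ hPy]
      simp

theorem co_mem (S : Finset ℕ) : Computable fun i => decide (i ∈ S) := by
  classical
  induction S using Finset.induction_on with
  | empty => simpa using Computable.const false
  | insert a S ha ih =>
    have : (fun i => decide (i ∈ insert a S)) = fun i => decide (i = a) || decide (i ∈ S) := by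
      funext i
      simp [Finset.mem_insert, Bool.decide_or]
    rw [this]
    exact co_or (by fun_prop) ih

theorem not_mce (m : ℕ) {W : ℕ → Bool} (hW : NCE m W) (h1 : TR (MSl m 0) W)
    (h2 : TR W (MSl m 0)) : False := by
  obtain ⟨g, hg⟩ := hW
  obtain ⟨w, hw1, hw2, _⟩ := exists_index hg
  obtain ⟨φ, hφ⟩ := TR_iff_U.1 h1
  obtain ⟨ψ, hψ⟩ := TR_iff_U.1 h2
  exact no_m_ce m hw1 hw2 hφ hψ

/-- the complete set is not computable -/
theorem K_not_computable : ¬ TR Kl (fun _ => false) := by
  intro h
  have h1 : NCE (0+1) (MSl 0 0) := NCE_Vs 0 (co_sel 0)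
  refine not_mce 0 (W := fun _ => false) ?_ ((K_top h1).trans h)
    (TR_of_computable (Computable.const false) _)
  exact ⟨fun _ _ => false, by fun_prop, fun _ => rfl, fun _ => ⟨0, fun _ _ => rfl⟩, fun x => by
    simp [chg]⟩

/-- indices for a pair (target, base) -/
theorem exists_pair {m n n' k : ℕ} {c : ℕ} {g : ℕ → ℕ → Bool} {X B T : ℕ → Bool}
    (hg : Approx k g X) (hcg : ∀ s x, Xap c s x = true → ∃ t, g x t = true)
    (hL : TR (LA g X) B) (hB : NCE n B) (hBM : TR B (MSl m 1)) (hT : NCE n' T) (hN : ¬ TR T B) :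
    ∃ r : ℕ, (∀ x, ∃ s0, ∀ s ≥ s0, Xap r.usnd.usnd.usnd s x = T x) ∧
  (∀ x, ∃ s0, ∀ s ≥ s0, Xap r.usnd.ufst s x = B x) ∧
  (∀ z, ∃ n, U r.usnd.usnd.ufst z (pre (MSl m 1) n) = some (B z).toNat) ∧
  (∀ x, (∃ s, Xap c s x = true) → ∃ n, U r.ufst x (pre B n) = some (X x).toNat) ∧
  ¬ TR T B := by
  obtain ⟨ψ, hψ⟩ := exists_psi hg hL
  obtain ⟨gB, hgB⟩ := hB
  obtain ⟨β, hβ1, _, _⟩ := exists_index hgB
  obtain ⟨γ, hγ⟩ := TR_iff_U.1 hBM
  obtain ⟨gT, hgT⟩ := hT
  obtain ⟨τ, hτ1, _, _⟩ := exists_index hgT
  refine ⟨Nat.pair ψ (Nat.pair β (Nat.pair γ τ)), ?_, ?_, ?_, ?_, hN⟩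
  · simpa using hτ1
  · simpa using hβ1
  · simpa using hγ
  · rintro x ⟨s, hs⟩
    have := hψ x (hcg s x hs)
    simpa using this

/-- no column is computed by the others -/
theorem indep0 (m i : ℕ) : ¬ TR (Vcol m i) (MSl m (i+2)) := by
  have hA : Approx 0 (fun _ _ => false) (fun _ => false) :=
    ⟨by fun_prop, fun _ => rfl, fun _ => ⟨0, fun _ _ => rfl⟩, fun x => by simp [chg]⟩
  obtain ⟨c, hc1, hc2, hc3⟩ := exists_index hA
  have hLc : TR (LA (fun _ _ => false) (fun _ => false)) (fun _ => false) := by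
    have := TR_LA hA
    exact this
  obtain ⟨r, hr⟩ := exists_pair (m := m) (k := 0) (c := c) hA hc3 hLc (n := 0) ⟨_, hA⟩
    (TR_of_computable (Computable.const false) _) NCE_K K_not_computable
  obtain ⟨c', hc'⟩ : ∃ c', c' = Nat.pair c (Nat.pair r r) := ⟨_, rfl⟩
  have e1 : c'.ufst = c := by rw [hc']; simp
  have e2 : c'.usnd.ufst = r := by rw [hc']; simp
  have e3 : c'.usnd.usnd = r := by rw [hc']; simp
  have hG0 : Good m c' c'.usnd.ufst (fun _ => false) (fun _ => false) Kl := by
    unfold Good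
    rw [e1, e2]
    exact hr
  have hG1 : Good m c' c'.usnd.usnd (fun _ => false) (fun _ => false) Kl := by
    unfold Good
    rw [e1, e3]
    exact hr
  intro h
  refine indepT (m := m) (c' := c') (i := i) (k := 0) (X := fun _ => false) (by rw [e1]; exact hc1)
    (fun x => ?_) hG0 hG1 (h.trans (TR_join_left _ _))
  rw [e1]
  exact (hc2 x).trans (by simp)

/-- the complete set is not below any selection missing a column -/
theorem K_not_le (m i : ℕ) : ¬ TR Kl (MSl m (i+2)) := by
  intro h
  have h1 : NCE (m+1) (Vcol m i) := by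
    rw [Vcol_eq]
    exact NCE_Vs m (by fun_prop)
  exact indep0 m i ((K_top h1).trans h)

end DegC
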