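import Pool.Agent.Lib_helper53.Deg.NCE

/-!
# Projections as constants
-/

namespace Nat

/-- first component -/
def ufst (x : ℕ) : ℕ := x.unpair.1
/-- second component -/
def usnd (x : ℕ) : ℕ := x.unpair.2

@[simp] theorem ufst_pair (a b : ℕ) : (Nat.pair a b).ufst = a := by unfold ufst; simp
@[simp] theorem usnd_pair (a b : ℕ) : (Nat.pair a b).usnd = b := by unfold usnd; simp
theorem pair_uu (x : ℕ) : Nat.pair x.ufst x.usnd = x := Nat.pair_unpair x
theorem ufst_le (x : ℕ) : x.ufst ≤ x := Nat.unpair_left_le x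
theorem usnd_le (x : ℕ) : x.usnd ≤ x := Nat.unpair_right_le x

end Nat

namespace DegC

open DegB

section
variable {α : Type*} [Primcodable α]

@[fun_prop] theorem pr_ufst {f : α → ℕ} (hf : Primrec f) : Primrec fun q => (f q).ufst :=
  pr_fst (pr_unpair hf)
@[fun_prop] theorem pr_usnd {f : α → ℕ} (hf : Primrec f) : Primrec fun q => (f q).usnd :=
  pr_snd (pr_unpair hf)
@[fun_prop] theorem co_ufst {f : α → ℕ} (hf : Computable f) : Computable fun q => (f q).ufst :=
  co_fst (co_unpair hf)
@[fun_prop] theorem co_usnd {f : α → ℕ} (hf : Computable f) : Computable fun q => (f q).usnd :=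
  co_snd (co_unpair hf)

end

end DegC
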