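import Pool.Agent.Lib_helper53.Deg2.Pieces

/-!
# Realising pointed finite partial orders around the even columns
-/

namespace DegC

open DegB

/-- the even columns -/
noncomputable def EvS (m : ℕ) : ℕ → Bool := MSl m 0

theorem EvS_NCE (m : ℕ) : NCE (m+1) (EvS m) := NCE_Vs m (co_sel 0)

theorem EvS_le (m : ℕ) : TR (EvS m) (MSl m 1) :=
  TR_Vs m (co_sel 0) (fun c _ => by simp [sel])

theorem EvS_le' (m : ℕ) : TR (EvS m) (MSl m (1+2)) := by
  refine TR_Vs m (co_sel 0) (fun c hc => ?_)
  have h : c % 2 = 0 := by simpa [sel] using hc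
  have : c ≠ 1 := by omega
  simp [sel, this]

section
variable {P : Type} [PartialOrder P] [Finite P] (p : P)

/-- Pointed posets around the even columns, below a given set. -/
theorem above_sets (m : ℕ) {C : ℕ → Bool} (hC : NCE (m+1) C)
    (hAC : TR (EvS m) C) (hCA : ¬ TR C (EvS m)) :
    ∃ F : P → ℕ → Bool, (∀ q, NCE (m+1) (F q)) ∧ (∀ q q', TR (F q) (F q') ↔ q ≤ q') ∧
      TR (F p) (EvS m) ∧ TR (EvS m) (F p) ∧ ∀ q, TR (F q) C ∧ ¬ TR C (F q) := by
  classical
  have := Fintype.ofFinite P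
  let e : P ≃ Fin (Fintype.card P) := Fintype.equivFin P
  have he : ∀ q t : P, (e q : ℕ) = (e t : ℕ) → q = t := fun q t h => e.injective (Fin.ext h)
  obtain ⟨k, g, X, hk, hg, hXC, hXA, hLA⟩ := lachlan_chain hC hCA
  obtain ⟨c, hc1, hc2, hc3⟩ := exists_index hg
  obtain ⟨r, hr⟩ := exists_pair (m := m) (c := c) hg hc3 hLA (EvS_NCE m) (EvS_le m) ⟨g, hg⟩ hXA
  obtain ⟨c', hc'⟩ : ∃ c', c' = Nat.pair c (Nat.pair r r) := ⟨_, rfl⟩
  have e1 : c'.ufst = c := by rw [hc']; simp
  have e2 : c'.usnd.ufst = r := by rw [hc']; simp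
  have e3 : c'.usnd.usnd = r := by rw [hc']; simp
  have hG0 : Good m c' c'.usnd.ufst X (EvS m) X := by
    unfold Good
    rw [e1, e2]
    exact hr
  have hG1 : Good m c' c'.usnd.usnd X (EvS m) X := by
    unfold Good
    rw [e1, e3]
    exact hr
  have hX : ∀ x, ∃ s0, ∀ s ≥ s0, Xap c'.ufst s x = X x := by rw [e1]; exact hc1
  have hchg : ∀ x, (chg fun s => Xap c'.ufst s x).encard ≤ k := by rw [e1]; exact hc2
  have hchg' : ∀ x, (chg fun s => Xap c'.ufst s x).encard ≤ (m + 1 : ℕ) := fun x =>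
    (hchg x).trans (by exact_mod_cast hk)
  have hN : ∀ i, ¬ TR X (join (EvS m) (Yl m c' X i)) := fun i => split_not_TR0 hX hG0 hG1 i
  have hT : ∀ i k, ¬ TR (Vcol m i) (join (MSl m (i+2)) (Yl m c' X k)) := fun i k =>
    indepT hX hchg' hG0 hG1
  -- the columns and the pieces
  let Sq : P → Finset ℕ := fun q => (Finset.univ.filter (fun t => t ≤ q ∧ t ≤ p)).image
    (fun t => 2 * (e t : ℕ))
  let Dq : P → Finset ℕ := fun q => (Finset.univ.filter (fun t => t ≤ q ∧ ¬ t ≤ p)).image
    (fun t => (e t : ℕ))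
  have hSmem : ∀ q c, c ∈ Sq q ↔ ∃ t, (t ≤ q ∧ t ≤ p) ∧ 2 * (e t : ℕ) = c := by
    intro q c
    simp only [Sq, Finset.mem_image, Finset.mem_filter, Finset.mem_univ, true_and]
  have hDmem : ∀ q c, c ∈ Dq q ↔ ∃ t, (t ≤ q ∧ ¬ t ≤ p) ∧ (e t : ℕ) = c := by
    intro q c
    simp only [Dq, Finset.mem_image, Finset.mem_filter, Finset.mem_univ, true_and]
  let PC : P → ℕ → Bool := fun q c => bif decide (p ≤ q) then sel 0 c else decide (c ∈ Sq q)
  let PD : P → ℕ → ℕ → Bool := fun q _ i => decide (i ∈ Dq q)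
  have hPC : ∀ q, Computable (PC q) := by
    intro q
    by_cases h : p ≤ q
    · have : PC q = sel 0 := by funext c; simp [PC, h]
      rw [this]; exact co_sel 0
    · have : PC q = fun c => decide (c ∈ Sq q) := by funext c; simp [PC, h]
      rw [this]; exact co_mem _
  have hPD : ∀ q, Computable fun z : ℕ × ℕ => PD q z.1 z.2 := by
    intro q
    exact (co_mem (Dq q)).comp (f := fun i => decide (i ∈ Dq q)) (g := fun z : ℕ × ℕ => z.2)
      Computable.snd
  have hPCe : ∀ q c, PC q c = true → sel 0 c = true := by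
    intro q c h
    by_cases h' : p ≤ q
    · simpa [PC, h'] using h
    · have h1 : c ∈ Sq q := by simpa [PC, h'] using h
      obtain ⟨t, _, rfl⟩ := (hSmem _ _).1 h1
      simp [sel]
  let F : P → ℕ → Bool := fun q => join (Vs m (PC q)) (Zl m c' X (PD q))
  have hZX : ∀ q, TR (Zl m c' X (PD q)) X := by
    intro q
    have := TR_piece (m := m) (c' := c') hX (Q := fun _ _ => true) (hPD q) (fun _ _ _ => rfl)
    rwa [Zl_true] at this
  have hVA : ∀ q, TR (Vs m (PC q)) (EvS m) := fun q => TR_Vs m (hPC q) (hPCe q)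
  have hFC : ∀ q, TR (F q) C := fun q =>
    TR_join ((hVA q).trans hAC) ((hZX q).trans hXC)
  -- upper bound when home `i` is missing
  have hFY : ∀ q i, i ∉ Dq q → TR (F q) (join (EvS m) (Yl m c' X i)) := by
    intro q i hi
    refine join_mono (hVA q) ?_
    rw [Yl_eq]
    refine TR_piece hX (hPD q) (fun x i' h => ?_)
    have h1 : i' ∈ Dq q := by simpa [PD] using h
    have : i' ≠ i := fun h2 => hi (h2 ▸ h1)
    simp [this]
  -- upper bound when column `i` and home `k` are missing
  have hFT : ∀ q i k, i ∉ Sq q → k ∉ Dq q → ¬ p ≤ q →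
      TR (F q) (join (MSl m (i+2)) (Yl m c' X k)) := by
    intro q i k hi hk hpq
    refine join_mono ?_ ?_
    · rw [MSl_eq]
      refine TR_Vs m (hPC q) (fun c hc => ?_)
      have h1 : c ∈ Sq q := by simpa [PC, hpq] using hc
      have h2 : c ≠ i := fun h => hi (h ▸ h1)
      simp [sel, h2]
    · rw [Yl_eq]
      refine TR_piece hX (hPD q) (fun x i' h => ?_)
      have h1 : i' ∈ Dq q := by simpa [PD] using h
      have : i' ≠ k := fun h2 => hk (h2 ▸ h1)
      simp [this]
  refine ⟨F, ?_, ?_, ?_, ?_, ?_⟩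
  · intro q
    exact NCE_join (NCE_Vs m (hPC q)) ((NCE_piece hX hchg (hPD q)).mono hk)
  · intro q q'
    constructor
    · intro h
      by_contra hqq
      by_cases hqp : q ≤ p
      · -- the column of `q`
        have hpq' : ¬ p ≤ q' := fun h' => hqq (hqp.trans h')
        have h1 : 2 * (e q : ℕ) ∉ Sq q' := by
          intro h'
          obtain ⟨t, ⟨ht1, _⟩, ht2⟩ := (hSmem _ _).1 h'
          have := he t q (by omega)
          rw [this] at ht1
          exact hqq ht1
        have h2 : (e q : ℕ) ∉ Dq q' := by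
          intro h'
          obtain ⟨t, ⟨_, ht1⟩, ht2⟩ := (hDmem _ _).1 h'
          have := he t q ht2
          rw [this] at ht1
          exact ht1 hqp
        apply hT (2 * (e q : ℕ)) (e q : ℕ)
        have h3 : TR (Vcol m (2 * (e q : ℕ))) (F q) := by
          refine TR.trans ?_ (TR_join_left _ _)
          rw [Vcol_eq]
          refine TR_Vs m (by fun_prop) (fun c hc => ?_)
          rw [decide_eq_true_eq] at hc
          subst hc
          by_cases hpq : p ≤ q
          · simp [PC, hpq, sel]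
          · have : 2 * (e q : ℕ) ∈ Sq q := (hSmem _ _).2 ⟨q, ⟨le_rfl, hqp⟩, rfl⟩
            simp [PC, hpq, this]
        exact h3.trans (h.trans (hFT q' _ _ h1 h2 hpq'))
      · -- the piece of `q`
        have h1 : (e q : ℕ) ∉ Dq q' := by
          intro h'
          obtain ⟨t, ⟨ht1, _⟩, ht2⟩ := (hDmem _ _).1 h'
          have := he t q ht2
          rw [this] at ht1
          exact hqq ht1
        have h2 : (e q : ℕ) ∈ Dq q := (hDmem _ _).2 ⟨q, ⟨le_rfl, hqp⟩, rfl⟩
        apply hN (e q : ℕ)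
        have h3 : TR (Zl m c' X fun _ i => decide (i = (e q : ℕ))) (F q) := by
          refine TR.trans ?_ (TR_join_right _ _)
          refine TR_piece hX ?_ (fun x i hi => ?_)
          · fun_prop
          · rw [decide_eq_true_eq] at hi
            subst hi
            simp [PD, h2]
        have h4 : TR (Zl m c' X fun _ i => decide (i = (e q : ℕ)))
            (join (EvS m) (Yl m c' X (e q : ℕ))) := h3.trans (h.trans (hFY q' _ h1))
        have h5 := TR_or (Zl m c' X fun _ i => decide (i = (e q : ℕ))) (Yl m c' X (e q : ℕ))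
        have h6 : (fun x => Zl m c' X (fun _ i => decide (i = (e q : ℕ))) x ||
            Yl m c' X (e q : ℕ) x) = X := by
          funext x
          unfold Zl Yl
          cases X x <;> by_cases h : home m c' x = (e q : ℕ) <;> simp [h]
        rw [h6] at h5
        exact h5.trans (TR_join h4 (TR_join_right _ _))
    · intro h
      refine join_mono (TR_Vs m (hPC q) (fun c hc => ?_)) (TR_piece hX (hPD q) (fun x i hi => ?_))
      · by_cases h' : p ≤ q'
        · have := hPCe q c hc
          simp [PC, h', this]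
        · have h'' : ¬ p ≤ q := fun h1 => h' (h1.trans h)
          have h1 : c ∈ Sq q := by simpa [PC, h''] using hc
          obtain ⟨t, ⟨ht1, ht2⟩, ht3⟩ := (hSmem _ _).1 h1
          have : c ∈ Sq q' := (hSmem _ _).2 ⟨t, ⟨ht1.trans h, ht2⟩, ht3⟩
          simp [PC, h', this]
      · have h1 : i ∈ Dq q := by simpa [PD] using hi
        obtain ⟨t, ⟨ht1, ht2⟩, ht3⟩ := (hDmem _ _).1 h1
        have : i ∈ Dq q' := (hDmem _ _).2 ⟨t, ⟨ht1.trans h, ht2⟩, ht3⟩
        simp [PD, this]
  · refine TR_join (hVA p) ?_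
    have h1 : Zl m c' X (PD p) = fun _ => false := by
      funext x
      unfold Zl
      have : home m c' x ∉ Dq p := by
        intro h'
        obtain ⟨t, ⟨ht1, ht2⟩, _⟩ := (hDmem _ _).1 h'
        exact ht2 ht1
      simp [PD, this]
    rw [h1]
    exact TR_of_computable (Computable.const false) _
  · refine TR.trans ?_ (TR_join_left _ _)
    refine TR_Vs m (co_sel 0) (fun c hc => ?_)
    simp [PC, hc]
  · intro q
    refine ⟨hFC q, fun h => ?_⟩
    obtain ⟨i, hi⟩ := Infinite.exists_notMem_finset (Dq q)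
    exact hN i (hXC.trans (h.trans (hFY q i hi)))

/-- Pointed posets around the even columns, above a given set. -/
theorem below_sets (m : ℕ) {n : ℕ} (hmn : m + 1 ≤ n) {B : ℕ → Bool} (hB : NCE n B)
    (hBA : TR B (EvS m)) (hAB : ¬ TR (EvS m) B) :
    ∃ F : P → ℕ → Bool, (∀ q, NCE n (F q)) ∧ (∀ q q', TR (F q) (F q') ↔ q ≤ q') ∧
      TR (F p) (EvS m) ∧ TR (EvS m) (F p) ∧ ∀ q, TR B (F q) ∧ ¬ TR (F q) B := by
  classical
  have := Fintype.ofFinite P
  let e : P ≃ Fin (Fintype.card P) := Fintype.equivFin P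
  have he : ∀ q t : P, (e q : ℕ) = (e t : ℕ) → q = t := fun q t h => e.injective (Fin.ext h)
  obtain ⟨k, g, X, hk, hg, hXA, hXB, hLB⟩ := lachlan_chain (EvS_NCE m) hAB
  have hk1 : 1 ≤ k := by
    rcases Nat.eq_zero_or_pos k with h | h
    · exfalso
      apply hXB
      have h1 : NCE 0 X := by rw [← h]; exact ⟨g, hg⟩
      rw [NCE_zero h1]
      exact TR_of_computable (Computable.const false) _
    · exact h
  -- the join of `X` and the complete set
  let Z : ℕ → Bool := join X Kl
  let gZ : ℕ → ℕ → Bool := fun x s => bif decide (x % 2 = 0) then g (x / 2) s else Kg (x / 2) s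
  have hZeven : ∀ x, Z (2*x) = X x := fun x => join_even _ _ _
  have hZodd : ∀ x, Z (2*x+1) = Kl x := fun x => join_odd _ _ _
  have hgZe : ∀ x s, gZ (2*x) s = g x s := by
    intro x s
    have h1 : (2 * x) % 2 = 0 := by omega
    have h2 : (2 * x) / 2 = x := by omega
    simp [gZ]
  have hgZo : ∀ x s, gZ (2*x+1) s = Kg x s := by
    intro x s
    have h1 : (2 * x + 1) % 2 = 1 := by omega
    have h2 : (2 * x + 1) / 2 = x := by omega
    simp [gZ, h1, h2]
  have hcases : ∀ x : ℕ, (∃ y, x = 2 * y) ∨ ∃ y, x = 2 * y + 1 := fun x => by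
    rcases Nat.mod_two_eq_zero_or_one x with h | h
    · exact Or.inl ⟨x / 2, by omega⟩
    · exact Or.inr ⟨x / 2, by omega⟩
  have hgZ : Approx k gZ Z := by
    refine ⟨?_, ?_, ?_, ?_⟩
    · show Computable fun q : ℕ × ℕ => bif decide (q.1 % 2 = 0) then g (q.1 / 2) q.2
        else Kg (q.1 / 2) q.2
      refine co_cond (by fun_prop) ?_ ?_
      · exact hg.comp.comp (f := fun q : ℕ × ℕ => g q.1 q.2) (g := fun q : ℕ × ℕ => (q.1/2, q.2))
          (by fun_prop)
      · exact Approx_K.comp.comp (f := fun q : ℕ × ℕ => Kg q.1 q.2)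
          (g := fun q : ℕ × ℕ => (q.1/2, q.2)) (by fun_prop)
    · intro x
      rcases hcases x with ⟨y, rfl⟩ | ⟨y, rfl⟩
      · rw [hgZe]; exact hg.zero y
      · rw [hgZo]; rfl
    · intro x
      rcases hcases x with ⟨y, rfl⟩ | ⟨y, rfl⟩
      · obtain ⟨s0, hs0⟩ := hg.lim y
        exact ⟨s0, fun s hs => by rw [hgZe, hZeven]; exact hs0 s hs⟩
      · obtain ⟨s0, hs0⟩ := Approx_K.lim y
        exact ⟨s0, fun s hs => by rw [hgZo, hZodd]; exact hs0 s hs⟩
    · intro x
      rcases hcases x with ⟨y, rfl⟩ | ⟨y, rfl⟩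
      · have : gZ (2*y) = g y := by funext s; exact hgZe y s
        rw [this]; exact hg.chg y
      · have : gZ (2*y+1) = Kg y := by funext s; exact hgZo y s
        rw [this]
        exact (Approx_K.chg y).trans (by exact_mod_cast hk1)
  -- its derivative
  have hLA : ∀ D : ℕ → Bool, TR (LA g X) D → TR (LA gZ Z) D := by
    intro D hD
    obtain ⟨F, hF1, hF2, hF3⟩ := TR_iff.1 hD
    rw [TR_iff]
    refine ⟨fun z σ => bif decide (z.ufst % 2 = 0) then F (Nat.pair (z.ufst / 2) z.usnd) σ
      else some 0, ?_, ?_, ?_⟩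
    · show Computable fun q : ℕ × List Bool => bif decide (q.1.ufst % 2 = 0) then
        F (Nat.pair (q.1.ufst / 2) q.1.usnd) q.2 else some 0
      have hF1' : Computable fun q : ℕ × List Bool => F q.1 q.2 := hF1
      have h1 : Computable fun q : ℕ × List Bool => decide (q.1.ufst % 2 = 0) := by
        apply Primrec.to_comp
        exact pr_deq (by fun_prop) (by fun_prop)
      refine co_cond h1 ?_ (by fun_prop)
      exact hF1'.comp (f := fun q : ℕ × List Bool => F q.1 q.2)
        (g := fun q : ℕ × List Bool => (Nat.pair (q.1.ufst / 2) q.1.usnd, q.2)) (by fun_prop)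
    · intro z σ τ v hs hv
      simp only at hv ⊢
      cases hz : decide (z.ufst % 2 = 0)
      · rw [hz] at hv; exact hv
      · rw [hz] at hv; exact hF2 _ _ _ _ hs hv
    · intro z
      rcases hcases z.ufst with ⟨y, hy⟩ | ⟨y, hy⟩
      · obtain ⟨n, hn⟩ := hF3 (Nat.pair y z.usnd)
        refine ⟨n, ?_⟩
        have h1 : decide (z.ufst % 2 = 0) = true := by simp; omega
        have h2 : z.ufst / 2 = y := by omega
        simp only [h1, cond_true, h2]
        rw [hn]
        unfold LA fent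
        have h3 : z.unpair.1 = 2 * y := hy
        have h4 : (Nat.pair y z.usnd).unpair.1 = y := Nat.ufst_pair _ _
        have h5 : (Nat.pair y z.usnd).unpair.2 = z.unpair.2 := Nat.usnd_pair _ _
        rw [h3, h4, h5, hZeven, hgZe]
        have h6 : (fun s' => !gZ (2*y) s') = fun s' => !g y s' := by funext s'; rw [hgZe]
        rw [h6]
      · refine ⟨0, ?_⟩
        have h1 : decide (z.ufst % 2 = 0) = false := by simp; omega
        simp only [h1, cond_false]
        unfold LA
        have h3 : z.unpair.1 = 2 * y + 1 := hy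
        rw [h3, hZodd]
        have h4 : (fent gZ (2*y+1) z.unpair.2 && !Kl y) = false := by
          cases h5 : fent gZ (2*y+1) z.unpair.2
          · rfl
          · have h6 := (fent_iff.1 h5).1
            rw [hgZo] at h6
            rw [Kl_iff'.2 ⟨_, h6⟩]; rfl
        rw [h4]; rfl
  obtain ⟨c, hc1, hc2, hc3⟩ := exists_index hgZ
  obtain ⟨r, hr⟩ := exists_pair (m := m) (c := c) hgZ hc3 (hLA B hLB) hB (hBA.trans (EvS_le m))
    ⟨g, hg⟩ hXB
  have hKA : ¬ TR Kl (EvS m) := fun h => K_not_le m 1 (h.trans (EvS_le' m))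
  obtain ⟨r', hr'⟩ := exists_pair (m := m) (c := c) hgZ hc3 (hLA (EvS m) (hLB.trans hBA))
    (EvS_NCE m) (EvS_le m) NCE_K hKA
  obtain ⟨c', hc'⟩ : ∃ c', c' = Nat.pair c (Nat.pair r r') := ⟨_, rfl⟩
  have e1 : c'.ufst = c := by rw [hc']; simp
  have e2 : c'.usnd.ufst = r := by rw [hc']; simp
  have e3 : c'.usnd.usnd = r' := by rw [hc']; simp
  have hG0 : Good m c' c'.usnd.ufst Z B X := by
    unfold Good
    rw [e1, e2]
    exact hr
  have hG1 : Good m c' c'.usnd.usnd Z (EvS m) Kl := by
    unfold Good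
    rw [e1, e3]
    exact hr'
  have hZl : ∀ x, ∃ s0, ∀ s ≥ s0, Xap c'.ufst s x = Z x := by rw [e1]; exact hc1
  have hchg : ∀ x, (chg fun s => Xap c'.ufst s x).encard ≤ k := by rw [e1]; exact hc2
  have hN0 : ∀ i, ¬ TR X (join B (Yl m c' Z i)) := fun i => split_not_TR0 hZl hG0 hG1 i
  have hN1 : ∀ i, ¬ TR Kl (join (EvS m) (Yl m c' Z i)) := fun i => split_not_TR1 hZl hG0 hG1 i
  -- the pieces
  let Sq : P → Finset ℕ := fun q => (Finset.univ.filter (fun t => t ≤ q ∧ t ≤ p)).image
    (fun t => (e t : ℕ))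
  let Dq : P → Finset ℕ := fun q => (Finset.univ.filter (fun t => t ≤ q ∧ ¬ t ≤ p)).image
    (fun t => (e t : ℕ))
  have hSmem : ∀ q c, c ∈ Sq q ↔ ∃ t, (t ≤ q ∧ t ≤ p) ∧ (e t : ℕ) = c := by
    intro q c
    simp only [Sq, Finset.mem_image, Finset.mem_filter, Finset.mem_univ, true_and]
  have hDmem : ∀ q c, c ∈ Dq q ↔ ∃ t, (t ≤ q ∧ ¬ t ≤ p) ∧ (e t : ℕ) = c := by
    intro q c
    simp only [Dq, Finset.mem_image, Finset.mem_filter, Finset.mem_univ, true_and]
  let Q : P → ℕ → ℕ → Bool := fun q x i =>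
    bif decide (x % 2 = 0) then decide (i ∈ Sq q) else decide (i ∈ Dq q)
  have hQ : ∀ q, Computable fun z : ℕ × ℕ => Q q z.1 z.2 := by
    intro q
    show Computable fun z : ℕ × ℕ => bif decide (z.1 % 2 = 0) then decide (z.2 ∈ Sq q)
      else decide (z.2 ∈ Dq q)
    refine co_cond (by fun_prop) ?_ ?_
    · exact (co_mem (Sq q)).comp (f := fun i => decide (i ∈ Sq q)) (g := fun z : ℕ × ℕ => z.2)
        Computable.snd
    · exact (co_mem (Dq q)).comp (f := fun i => decide (i ∈ Dq q)) (g := fun z : ℕ × ℕ => z.2)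
        Computable.snd
  have hQm : ∀ q x i, Q q x i = true → i ∈ Sq q ∨ i ∈ Dq q := by
    intro q x i h
    by_cases hx : x % 2 = 0
    · left; simpa [Q, hx] using h
    · right
      have hx' : x % 2 = 1 := by omega
      simpa [Q, hx'] using h
  let Bs : P → ℕ → Bool := fun q => if p ≤ q then EvS m else B
  let F : P → ℕ → Bool := fun q => join (Bs q) (Zl m c' Z (Q q))
  have hBs : ∀ q, TR B (Bs q) := by
    intro q
    by_cases h : p ≤ q
    · simpa [Bs, h] using hBA
    · simpa [Bs, h] using TR.refl B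
  have hBsA : ∀ q, TR (Bs q) (EvS m) := by
    intro q
    by_cases h : p ≤ q
    · simpa [Bs, h] using TR.refl (EvS m)
    · simpa [Bs, h] using hBA
  have hpieceY : ∀ q i, i ∉ Sq q → i ∉ Dq q → TR (Zl m c' Z (Q q)) (Yl m c' Z i) := by
    intro q i h1 h2
    rw [Yl_eq]
    refine TR_piece hZl (hQ q) (fun x i' h => ?_)
    have h3 := hQm q x i' h
    have : i' ≠ i := by
      rintro rfl
      rcases h3 with h | h
      · exact h1 h
      · exact h2 h
    simp [this]
  -- recovering `X` and the complete set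
  have hrec0 : ∀ (i : ℕ) (D : ℕ → Bool),
      TR (Zl m c' Z (fun x i' => decide (x % 2 = 0) && decide (i' = i))) D →
      TR (Yl m c' Z i) D → TR X D := by
    intro i D h1 h2
    have h3 := TR_or (Zl m c' Z (fun x i' => decide (x % 2 = 0) && decide (i' = i))) (Yl m c' Z i)
    have h4 : TR X (fun x => Zl m c' Z (fun x i' => decide (x % 2 = 0) && decide (i' = i)) x ||
        Yl m c' Z i x) := by
      refine TR_of_comp (f := fun x => 2 * x) (by fun_prop) (fun x => ?_)
      unfold Zl Yl
      rw [hZeven]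
      have h5 : (2 * x) % 2 = 0 := by omega
      cases X x <;> by_cases h : home m c' (2*x) = i <;> simp [h]
    exact h4.trans (h3.trans (TR_join h1 h2))
  have hrec1 : ∀ (i : ℕ) (D : ℕ → Bool),
      TR (Zl m c' Z (fun x i' => decide (x % 2 = 1) && decide (i' = i))) D →
      TR (Yl m c' Z i) D → TR Kl D := by
    intro i D h1 h2
    have h3 := TR_or (Zl m c' Z (fun x i' => decide (x % 2 = 1) && decide (i' = i))) (Yl m c' Z i)
    have h4 : TR Kl (fun x => Zl m c' Z (fun x i' => decide (x % 2 = 1) && decide (i' = i)) x ||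
        Yl m c' Z i x) := by
      refine TR_of_comp (f := fun x => 2 * x + 1) (by fun_prop) (fun x => ?_)
      unfold Zl Yl
      rw [hZodd]
      have h5 : (2 * x + 1) % 2 = 1 := by omega
      cases Kl x <;> by_cases h : home m c' (2*x+1) = i <;> simp [h, h5]
    exact h4.trans (h3.trans (TR_join h1 h2))
  -- the key facts
  have key0 : ∀ q (D : ℕ → Bool), q ≤ p → TR (F q) D →
      ¬ TR D (join B (Yl m c' Z (e q : ℕ))) := by
    intro q D hqp h h'
    refine hN0 (e q : ℕ) (hrec0 (e q : ℕ) _ ?_ (TR_join_right _ _))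
    refine TR.trans ?_ (h.trans h')
    refine TR.trans ?_ (TR_join_right _ _)
    refine TR_piece hZl ?_ (fun x i hi => ?_)
    · exact co_and (by fun_prop) (by fun_prop)
    · rw [Bool.and_eq_true, decide_eq_true_eq, decide_eq_true_eq] at hi
      have h1 : (e q : ℕ) ∈ Sq q := (hSmem _ _).2 ⟨q, ⟨le_rfl, hqp⟩, rfl⟩
      simp [Q, hi.1, hi.2, h1]
  have key1 : ∀ q (D : ℕ → Bool), ¬ q ≤ p → TR (F q) D →
      ¬ TR D (join (EvS m) (Yl m c' Z (e q : ℕ))) := by
    intro q D hqp h h'
    refine hN1 (e q : ℕ) (hrec1 (e q : ℕ) _ ?_ (TR_join_right _ _))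
    refine TR.trans ?_ (h.trans h')
    refine TR.trans ?_ (TR_join_right _ _)
    refine TR_piece hZl ?_ (fun x i hi => ?_)
    · exact co_and (by fun_prop) (by fun_prop)
    · rw [Bool.and_eq_true, decide_eq_true_eq, decide_eq_true_eq] at hi
      have h1 : (e q : ℕ) ∈ Dq q := (hDmem _ _).2 ⟨q, ⟨le_rfl, hqp⟩, rfl⟩
      simp [Q, hi.1, hi.2, h1]
  refine ⟨F, ?_, ?_, ?_, ?_, ?_⟩
  · intro q
    refine NCE_join ?_ ((NCE_piece hZl hchg (hQ q)).mono (hk.trans hmn))
    by_cases h : p ≤ q
    · simpa [Bs, h] using (EvS_NCE m).mono hmn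
    · simpa [Bs, h] using hB
  · intro q q'
    constructor
    · intro h
      by_contra hqq
      by_cases hqp : q ≤ p
      · have hpq' : ¬ p ≤ q' := fun h' => hqq (hqp.trans h')
        have h1 : (e q : ℕ) ∉ Sq q' := by
          intro h'
          obtain ⟨t, ⟨ht1, _⟩, ht2⟩ := (hSmem _ _).1 h'
          have := he t q ht2
          rw [this] at ht1
          exact hqq ht1
        have h2 : (e q : ℕ) ∉ Dq q' := by
          intro h'
          obtain ⟨t, ⟨_, ht1⟩, ht2⟩ := (hDmem _ _).1 h'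
          have := he t q ht2
          rw [this] at ht1
          exact ht1 hqp
        refine key0 q (F q') hqp h (join_mono ?_ (hpieceY q' _ h1 h2))
        simpa [Bs, hpq'] using TR.refl B
      · have h1 : (e q : ℕ) ∉ Sq q' := by
          intro h'
          obtain ⟨t, ⟨_, ht1⟩, ht2⟩ := (hSmem _ _).1 h'
          have := he t q ht2
          rw [this] at ht1
          exact hqp ht1
        have h2 : (e q : ℕ) ∉ Dq q' := by
          intro h'
          obtain ⟨t, ⟨ht1, _⟩, ht2⟩ := (hDmem _ _).1 h'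
          have := he t q ht2
          rw [this] at ht1
          exact hqq ht1
        exact key1 q (F q') hqp h (join_mono (hBsA q') (hpieceY q' _ h1 h2))
    · intro h
      refine join_mono ?_ (TR_piece hZl (hQ q) (fun x i hi => ?_))
      · by_cases h' : p ≤ q'
        · simpa [Bs, h'] using hBsA q
        · have h'' : ¬ p ≤ q := fun h1 => h' (h1.trans h)
          simpa [Bs, h', h''] using TR.refl B
      · by_cases hx : x % 2 = 0
        · have h1 : i ∈ Sq q := by simpa [Q, hx] using hi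
          obtain ⟨t, ⟨ht1, ht2⟩, ht3⟩ := (hSmem _ _).1 h1
          have : i ∈ Sq q' := (hSmem _ _).2 ⟨t, ⟨ht1.trans h, ht2⟩, ht3⟩
          simp [Q, hx, this]
        · have hx' : x % 2 = 1 := by omega
          have h1 : i ∈ Dq q := by simpa [Q, hx'] using hi
          obtain ⟨t, ⟨ht1, ht2⟩, ht3⟩ := (hDmem _ _).1 h1
          have : i ∈ Dq q' := (hDmem _ _).2 ⟨t, ⟨ht1.trans h, ht2⟩, ht3⟩
          simp [Q, hx', this]
  · refine TR_join (hBsA p) ?_
    -- only elements of `X` are selected
    refine TR.trans ?_ hXA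
    have h1 : TR (Zl m c' Z (Q p)) (Zl m c' Z (fun x _ => decide (x % 2 = 0))) := by
      refine TR_piece hZl (hQ p) (fun x i hi => ?_)
      by_cases hx : x % 2 = 0
      · simp [hx]
      · exfalso
        have hx' : x % 2 = 1 := by omega
        have h1 : i ∈ Dq p := by simpa [Q, hx'] using hi
        obtain ⟨t, ⟨ht1, ht2⟩, _⟩ := (hDmem _ _).1 h1
        exact ht2 ht1
    refine h1.trans ?_
    have h2 : Zl m c' Z (fun x _ => decide (x % 2 = 0)) = join X (fun _ => false) := by
      funext x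
      unfold Zl
      rcases hcases x with ⟨y, rfl⟩ | ⟨y, rfl⟩
      · rw [hZeven, join_even]; simp
      · rw [hZodd, join_odd]
        have : (2 * y + 1) % 2 = 1 := by omega
        simp [this]
    rw [h2]
    exact TR_join (TR.refl X) (TR_of_computable (Computable.const false) _)
  · refine TR.trans ?_ (TR_join_left _ _)
    simpa [Bs] using TR.refl (EvS m)
  · intro q
    refine ⟨(hBs q).trans (TR_join_left _ _), fun h => ?_⟩
    by_cases hqp : q ≤ p
    · exact key0 q B hqp h (TR_join_left _ _)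
    · exact key1 q B hqp h (hBA.trans (TR_join_left _ _))

end

end DegC
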