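import Pool.Agent.Lib_helper53.Deg2.VerR

/-!
# Verification of the splitting requirements
-/

namespace DegC

open DegB

theorem fe_iff {c x s : ℕ} :
    fe c x s = true ↔ Xap c s x = true ∧ ∀ s' < s, Xap c s' x = false := by
  unfold fe
  rw [Bool.and_eq_true, ball_iff]
  simp

theorem fe_unique {c x s s' : ℕ} (h : fe c x s = true) (h' : fe c x s' = true) : s = s' := by
  rw [fe_iff] at h h'
  rcases Nat.lt_trichotomy s s' with h1 | h1 | h1
  · have := h'.2 s h1; rw [h.1] at this; simp at this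
  · exact h1
  · have := h.2 s' h1; rw [h'.1] at this; simp at this

theorem fe_exists {c x s : ℕ} (h : Xap c s x = true) : ∃ s' ≤ s, fe c x s' = true := by
  classical
  have hex : ∃ s, Xap c s x = true := ⟨s, h⟩
  refine ⟨Nat.find hex, Nat.find_min' hex h, fe_iff.2 ⟨Nat.find_spec hex, fun s' hs' => ?_⟩⟩
  have := Nat.find_min hex hs'
  simpa using this

open Classical in
/-- the home of `x` -/
noncomputable def home (m c' x : ℕ) : ℕ :=
  if h : ∃ t, fe c'.ufst x t = true then hm (act m) c' x h.choose else 0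

theorem home_eq {m c' x t : ℕ} (h : fe c'.ufst x t = true) :
    home m c' x = hm (act m) c' x t := by
  have hex : ∃ t, fe c'.ufst x t = true := ⟨t, h⟩
  unfold home
  rw [dif_pos hex]
  have := fe_unique hex.choose_spec h
  rw [this]

theorem hEq_iff {m c' x s i : ℕ} : hEq (act m) c' x s i = true ↔
    (∃ t ≤ s, fe c'.ufst x t = true) ∧ home m c' x = i := by
  unfold hEq
  rw [bex_iff]
  constructor
  · rintro ⟨t, ht, h⟩
    rw [Bool.and_eq_true, decide_eq_true_eq] at h
    exact ⟨⟨t, by omega, h.1⟩, by rw [home_eq h.1]; exact h.2⟩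
  · rintro ⟨⟨t, ht, h⟩, h'⟩
    exact ⟨t, by omega, by rw [Bool.and_eq_true, decide_eq_true_eq]; exact ⟨h, by rw [← home_eq h]; exact h'⟩⟩

theorem hNe_iff {m c' x s i : ℕ} : hNe (act m) c' x s i = true ↔
    (∃ t ≤ s, fe c'.ufst x t = true) ∧ home m c' x ≠ i := by
  unfold hNe
  rw [bex_iff]
  constructor
  · rintro ⟨t, ht, h⟩
    rw [Bool.and_eq_true, Bool.not_eq_true', decide_eq_false_iff_not] at h
    exact ⟨⟨t, by omega, h.1⟩, by rw [home_eq h.1]; exact h.2⟩
  · rintro ⟨⟨t, ht, h⟩, h'⟩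
    exact ⟨t, by omega, by
      rw [Bool.and_eq_true, Bool.not_eq_true', decide_eq_false_iff_not]
      exact ⟨h, by rw [← home_eq h]; exact h'⟩⟩

/-- `X` without piece `i` -/
noncomputable def Yl (m c' : ℕ) (X : ℕ → Bool) (i x : ℕ) : Bool :=
  X x && !decide (home m c' x = i)

theorem Yap_EC {m c' : ℕ} {X : ℕ → Bool} (hX : ∀ x, ∃ s0, ∀ s ≥ s0, Xap c'.ufst s x = X x)
    (i x : ℕ) : ∃ s0, ∀ s ≥ s0, Yap (act m) c' i s x = Yl m c' X i x := by
  obtain ⟨s0, hs0⟩ := hX x
  refine ⟨s0, fun s hs => ?_⟩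
  unfold Yap Yl
  rw [hs0 s hs]
  cases hXx : X x
  · rfl
  · have h1 : ∃ t ≤ s, fe c'.ufst x t = true := fe_exists (by rw [hs0 s hs]; exact hXx)
    by_cases h2 : home m c' x = i
    · have : hEq (act m) c' x s i = true := hEq_iff.2 ⟨h1, h2⟩
      rw [this]; simp [h2]
    · have : hEq (act m) c' x s i = false := by
        rw [Bool.eq_false_iff]; intro h; exact h2 (hEq_iff.1 h).2
      rw [this]; simp [h2]

theorem blk_iff {m c' x t b : ℕ} : blk (act m) c' x t b = true ↔
    ∃ t' < t, x < t' ∧ isN (act m t') c' b = true := by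
  unfold blk
  rw [bex_iff]
  constructor
  · rintro ⟨t', h1, h2⟩
    rw [Bool.and_eq_true, decide_eq_true_eq] at h2
    exact ⟨t', h1, h2⟩
  · rintro ⟨t', h1, h2⟩
    exact ⟨t', h1, by rw [Bool.and_eq_true, decide_eq_true_eq]; exact h2⟩

theorem isN_iff {j c' b : ℕ} : isN j c' b = true ↔
    (∃ y q, j = Nat.pair 2 (Nat.pair c' (Nat.pair b (Nat.pair y q)))) ∨
    (∃ i q, j = Nat.pair 1 (Nat.pair i (Nat.pair c' (Nat.pair b q)))) := by
  unfold isN
  rw [Bool.or_eq_true, Bool.and_eq_true, Bool.and_eq_true, Bool.and_eq_true, Bool.and_eq_true,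
    decide_eq_true_eq, decide_eq_true_eq, decide_eq_true_eq, decide_eq_true_eq, decide_eq_true_eq,
    decide_eq_true_eq]
  constructor
  · rintro (⟨h1, h2, h3⟩ | ⟨h1, h2, h3⟩)
    · left
      refine ⟨j.usnd.usnd.usnd.ufst, j.usnd.usnd.usnd.usnd, ?_⟩
      rw [Nat.pair_uu, ← h3, Nat.pair_uu, ← h2, Nat.pair_uu, ← h1, Nat.pair_uu]
    · right
      refine ⟨j.usnd.ufst, j.usnd.usnd.usnd.usnd, ?_⟩
      rw [← h3, Nat.pair_uu, ← h2, Nat.pair_uu, Nat.pair_uu, ← h1, Nat.pair_uu]
  · rintro (⟨y, q, rfl⟩ | ⟨y, q, rfl⟩)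
    · left; simp
    · right; simp

theorem isN_le {m t c' b : ℕ} (h : isN (act m t) c' b = true) : act m t ≤ t ∧ b ≤ t := by
  have h1 : act m t ≤ t := by
    rcases act_spec m t with h' | h'
    · exact h'.1
    · rcases isN_iff.1 h with ⟨y, q, hj⟩ | ⟨y, q, hj⟩
      · have := h'.1.symm.trans hj
        rw [Nat.pair_eq_pair] at this
        omega
      · have := h'.1.symm.trans hj
        rw [Nat.pair_eq_pair] at this
        omega
  refine ⟨h1, ?_⟩
  rcases isN_iff.1 h with ⟨y, q, hj⟩ | ⟨i, q, hj⟩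
  · have h2 : b ≤ Nat.pair b (Nat.pair y q) := Nat.left_le_pair _ _
    have h3 : Nat.pair b (Nat.pair y q) ≤ Nat.pair c' (Nat.pair b (Nat.pair y q)) :=
      Nat.right_le_pair _ _
    have h4 : Nat.pair c' (Nat.pair b (Nat.pair y q)) ≤
      Nat.pair 2 (Nat.pair c' (Nat.pair b (Nat.pair y q))) := Nat.right_le_pair _ _
    omega
  · have h2 : b ≤ Nat.pair b q := Nat.left_le_pair _ _
    have h3 : Nat.pair b q ≤ Nat.pair c' (Nat.pair b q) := Nat.right_le_pair _ _
    have h4 : Nat.pair c' (Nat.pair b q) ≤ Nat.pair i (Nat.pair c' (Nat.pair b q)) :=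
      Nat.right_le_pair _ _
    have h5 : Nat.pair i (Nat.pair c' (Nat.pair b q)) ≤
      Nat.pair 1 (Nat.pair i (Nat.pair c' (Nat.pair b q))) := Nat.right_le_pair _ _
    omega

theorem inj_iff {m c' b t : ℕ} : inj (act m) c' b t = true ↔
    ∃ x < t, fe c'.ufst x t = true ∧ ∃ b' < b, blk (act m) c' x t b' = true := by
  unfold inj
  rw [bex_iff]
  constructor
  · rintro ⟨x, h1, h2⟩
    rw [Bool.and_eq_true, bex_iff] at h2
    exact ⟨x, h1, h2⟩
  · rintro ⟨x, h1, h2⟩
    exact ⟨x, h1, by rw [Bool.and_eq_true, bex_iff]; exact h2⟩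

/-- without injury, an element restrained by block `b` gets its home -/
theorem hm_of_blk {m c' b x t : ℕ} (hxt : x < t) (hf : fe c'.ufst x t = true)
    (hb : blk (act m) c' x t b = true) (hi : inj (act m) c' b t = false) :
    home m c' x = b.usnd := by
  rw [home_eq hf]
  unfold hm
  have hno : ∀ b' < b, blk (act m) c' x t b' = false := by
    intro b' hb'
    rw [Bool.eq_false_iff]
    intro hc
    rw [Bool.eq_false_iff] at hi
    exact hi (inj_iff.2 ⟨x, hxt, hf, b', hb', hc⟩)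
  have hbt : b ≤ t := by
    obtain ⟨t', h1, _, h2⟩ := blk_iff.1 hb
    have := (isN_le h2).2
    omega
  have : ffind (t+1) (fun b => bif blk (act m) c' x t b then some b else none) = some b := by
    rw [ffind_eq_some]
    refine ⟨b, by omega, by rw [hb]; rfl, fun b' hb' => by rw [hno b' hb']; rfl⟩
  rw [this]; rfl

section searchdefs
variable {α : Type*} [Primcodable α]

@[fun_prop] theorem pr_act' (m : ℕ) {f : α → ℕ} (hf : Primrec f) :
    Primrec fun q => act m (f q) := (pr_act m).comp hf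
@[fun_prop] theorem pr_hist' (m : ℕ) {f : α → ℕ} (hf : Primrec f) :
    Primrec fun q => hist m (f q) := (pr_hist m).comp hf

/-- certified computation, without the `γ`-part -/
def srch (h : List ℕ) (c' r b y s u : ℕ) : Bool :=
  bex (u+1) fun u0 =>
    decide (U b.ufst.usnd y (pre (fun w => join (fun v => Xap r.usnd.ufst s v)
      (fun v => YapL h c' b.usnd s v) w) u0) = some (Xap r.usnd.usnd.usnd s y).toNat) &&
    ball u0 (fun x => !hNeL h c' x s b.usnd ||
      decide (U r.ufst x (pre (fun v => Xap r.usnd.ufst s v) u) =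
        some (Xap c'.ufst s x).toNat))

@[fun_prop] theorem pr_srch {h : α → List ℕ} {c' r b y s u : α → ℕ} (hh : Primrec h)
    (hc : Primrec c') (hr : Primrec r) (hb : Primrec b) (hy : Primrec y) (hs : Primrec s)
    (hu : Primrec u) :
    Primrec fun q => srch (h q) (c' q) (r q) (b q) (y q) (s q) (u q) := by
  unfold srch
  refine pr_bex (by fun_prop) (pr_and (pr_deqo ?_ ?_) (pr_ball ?_ (pr_or ?_ (pr_deqo ?_ ?_))))
  · fun_prop
  · fun_prop
  · fun_prop
  · fun_prop
  · fun_prop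
  · fun_prop

/-- the search predicate -/
def srT (m c' r b q y : ℕ) (σ : List Bool) (s : ℕ) : Bool :=
  decide (q ≤ s) && (isN (act m s) c' b &&
    bex (s+1) (fun u => decide (u ≤ σ.length) &&
      (decide (pre (fun v => Xap r.usnd.ufst s v) u = σ.take u) &&
        srch (hist m s) c' r b y s u)))

@[fun_prop] theorem pr_srT (m c' r b q : ℕ) {y s : α → ℕ} {σ : α → List Bool} (hy : Primrec y)
    (hσ : Primrec σ) (hs : Primrec s) : Primrec fun k => srT m c' r b q (y k) (σ k) (s k) := by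
  unfold srT
  refine pr_and (by fun_prop) (pr_and (by fun_prop) (pr_bex (by fun_prop) (pr_and (by fun_prop)
    (pr_and (pr_deql ?_ ?_) ?_))))
  · fun_prop
  · fun_prop
  · fun_prop

/-- the search functional -/
def srF (m c' r b q : ℕ) (y : ℕ) (σ : List Bool) : Option ℕ :=
  ffind (σ.length+1) (fun s => bif srT m c' r b q y σ s then
    some (Xap r.usnd.usnd.usnd s y).toNat else none)

theorem co_srF (m c' r b q : ℕ) : Computable₂ (srF m c' r b q) := by
  show Computable fun k : ℕ × List Bool => srF m c' r b q k.1 k.2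
  apply Primrec.to_comp
  unfold srF
  refine pr_ffind (by fun_prop) (pr_cond (by fun_prop) ?_ (by fun_prop))
  fun_prop

theorem srF_mono (m c' r b q : ℕ) : Mono (srF m c' r b q) := by
  intro y σ τ v hs hv
  unfold srF at hv ⊢
  have hl := hs.length_le
  apply ffind_mono (n := σ.length + 1) (by omega)
  rw [← hv]
  apply ffind_congr
  intro s hsl
  have : srT m c' r b q y τ s = srT m c' r b q y σ s := by
    unfold srT
    congr 2
    refine bex_congr fun u hu => ?_
    have h1 : τ.take u = σ.take u := by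
      obtain ⟨t, rfl⟩ := hs
      rw [List.take_append_of_le_length (by omega)]
    have h2 : decide (u ≤ τ.length) = true := by simp; omega
    have h3 : decide (u ≤ σ.length) = true := by simp; omega
    rw [h1, h2, h3]
  rw [this]

end searchdefs

section main
variable {m c ψ β γ τ r : ℕ} {X B T : ℕ → Bool} (c' : ℕ)
  (hc'1 : c'.ufst = c) (hr2 : r.ufst = ψ)
  (hr3 : r.usnd.ufst = β) (hr4 : r.usnd.usnd.ufst = γ) (hr5 : r.usnd.usnd.usnd = τ)
  (hX : ∀ x, ∃ s0, ∀ s ≥ s0, Xap c s x = X x)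
  (hT : ∀ x, ∃ s0, ∀ s ≥ s0, Xap τ s x = T x)
  (hB : ∀ x, ∃ s0, ∀ s ≥ s0, Xap β s x = B x)
  (hγ : ∀ z, ∃ n, U γ z (pre (MSl m 1) n) = some (B z).toNat)
  (hψ : ∀ x, (∃ s, Xap c s x = true) → ∃ n, U ψ x (pre B n) = some (X x).toNat)
  (hN : ¬ TR T B)

theorem crt_iff' {k s u u0 : ℕ} : crt (act m) c' r k s u u0 = true ↔
    (∀ x < u0, hNe (act m) c' x s k = true →
      U r.ufst x (pre (fun v => Xap r.usnd.ufst s v) u) = some (Xap c'.ufst s x).toNat) ∧
    ∀ z < u, U r.usnd.usnd.ufst z (pre (fun v => MS (act m) s 1 v) s) =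
      some (Xap r.usnd.ufst s z).toNat := by
  unfold crt
  rw [Bool.and_eq_true, ball_iff, ball_iff]
  constructor
  · rintro ⟨h5, h6⟩
    refine ⟨fun x hx hne => ?_, fun z hz => by have := h6 z hz; rwa [decide_eq_true_eq] at this⟩
    have := h5 x hx
    rw [hne] at this
    simpa using this
  · rintro ⟨h4, h5⟩
    refine ⟨fun x hx => ?_, fun z hz => by rw [decide_eq_true_eq]; exact h5 z hz⟩
    by_cases hne : hNe (act m) c' x s k = true
    · rw [hne, h4 x hx hne]; simp
    · rw [Bool.not_eq_true] at hne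
      rw [hne]; simp

include hc'1 hr2 hr3 hr4 in
theorem crt_iff {k s u u0 : ℕ} : crt (act m) c' r k s u u0 = true ↔
    (∀ x < u0, hNe (act m) c' x s k = true →
      U ψ x (pre (fun v => Xap β s v) u) = some (Xap c s x).toNat) ∧
    ∀ z < u, U γ z (pre (fun v => MS (act m) s 1 v) s) = some (Xap β s z).toNat := by
  subst hc'1 hr2 hr3 hr4
  exact crt_iff' c'

include hc'1 hr2 hr3 hr4 hr5 in
theorem agr_iff {b y s : ℕ} : agr (act m) c' r b y s = true ↔ ∃ u ≤ s, ∃ u0 ≤ u,
    U b.ufst.usnd y (pre (join (fun v => Xap β s v) (fun v => Yap (act m) c' b.usnd s v)) u0) =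
      some (Xap τ s y).toNat ∧
    (∀ x < u0, hNe (act m) c' x s b.usnd = true →
      U ψ x (pre (fun v => Xap β s v) u) = some (Xap c s x).toNat) ∧
    ∀ z < u, U γ z (pre (fun v => MS (act m) s 1 v) s) = some (Xap β s z).toNat := by
  unfold agr
  rw [bex_iff]
  constructor
  · rintro ⟨u, h1, h2⟩
    rw [bex_iff] at h2
    obtain ⟨u0, h3, h4⟩ := h2
    rw [Bool.and_eq_true, decide_eq_true_eq, crt_iff c' hc'1 hr2 hr3 hr4, hr3, hr5] at h4
    exact ⟨u, by omega, u0, by omega, h4.1, h4.2.1, h4.2.2⟩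
  · rintro ⟨u, h1, u0, h2, h3, h4, h5⟩
    refine ⟨u, by omega, ?_⟩
    rw [bex_iff]
    refine ⟨u0, by omega, ?_⟩
    rw [Bool.and_eq_true, decide_eq_true_eq, crt_iff c' hc'1 hr2 hr3 hr4, hr3, hr5]
    exact ⟨h3, h4, h5⟩

theorem agree_iff {b y s : ℕ} : agree (act m) c' r b y s = true ↔
    ∀ y' ≤ y, agr (act m) c' r b y' s = true := by
  unfold agree
  rw [ball_iff]
  exact ⟨fun h y' hy' => h y' (by omega), fun h y' hy' => h y' (by omega)⟩

include hc'1 hX hψ in
/-- computations certified after the last injury and at an action of the block are true -/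
theorem true_comp {b s q : ℕ} (hqs : q ≤ s) (hq : ∀ t > q, inj (act m) c' b t = false)
    (hact : isN (act m s) c' b = true) {u0 u : ℕ} (hu0 : u0 ≤ u) (hu : u ≤ s)
    (hcert : ∀ x < u0, hNe (act m) c' x s b.usnd = true →
      U ψ x (pre (fun v => Xap β s v) u) = some (Xap c s x).toNat)
    (hBu : ∀ k < u, Xap β s k = B k) :
    ∀ k < u0, Yap (act m) c' b.usnd s k = Yl m c' X b.usnd k := by
  subst hc'1
  intro x hx
  by_cases hent : ∃ t ≤ s, fe c'.ufst x t = true
  · by_cases hh : home m c' x = b.usnd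
    · have h1 : hEq (act m) c' x s b.usnd = true := hEq_iff.2 ⟨hent, hh⟩
      unfold Yap Yl
      rw [h1, hh]; simp
    · have h1 : hNe (act m) c' x s b.usnd = true := hNe_iff.2 ⟨hent, hh⟩
      have h2 : hEq (act m) c' x s b.usnd = false := by
        rw [Bool.eq_false_iff]; intro h; exact hh (hEq_iff.1 h).2
      have h3 := hcert x hx h1
      have h4 : pre (fun v => Xap β s v) u = pre B u := pre_congr hBu
      rw [h4] at h3
      obtain ⟨t, _, ht⟩ := hent
      obtain ⟨n, hn⟩ := hψ x ⟨t, (fe_iff.1 ht).1⟩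
      have h5 := (U_mono ψ).unique h3 hn
      have h6 : Xap c'.ufst s x = X x := by
        cases h7 : Xap c'.ufst s x <;> cases h8 : X x <;> rw [h7, h8] at h5 <;> simp at h5 ⊢
      unfold Yap Yl
      rw [h6, h2]; simp [hh]
  · have h1 : Xap c'.ufst s x = false := by
      rw [Bool.eq_false_iff]
      intro h
      obtain ⟨t, ht, h'⟩ := fe_exists h
      exact hent ⟨t, ht, h'⟩
    have h2 : Yl m c' X b.usnd x = false := by
      unfold Yl
      cases hXx : X x
      · rfl
      · obtain ⟨s0, hs0⟩ := hX x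
        obtain ⟨t, _, ht⟩ := fe_exists (c := c'.ufst) (x := x) (s := s0)
          (by rw [hs0 s0 le_rfl]; exact hXx)
        have hts : s < t := by
          by_contra hc
          exact hent ⟨t, by omega, ht⟩
        have h3 : blk (act m) c' x t b = true := blk_iff.2 ⟨s, hts, by omega, hact⟩
        have := hm_of_blk (by omega) ht h3 (hq t (by omega))
        rw [this]; simp
    unfold Yap
    rw [h1, h2]; rfl

include hψ in
/-- bound for the certificates -/
theorem cert_exists (u0 : ℕ) :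
    ∃ u1, ∀ x < u0, (∃ s, Xap c s x = true) → U ψ x (pre B u1) = some (X x).toNat := by
  induction u0 with
  | zero => exact ⟨0, fun x hx => absurd hx (Nat.not_lt_zero x)⟩
  | succ N ih =>
    obtain ⟨u1, h1⟩ := ih
    by_cases hN : ∃ s, Xap c s N = true
    · obtain ⟨n, hn⟩ := hψ N hN
      refine ⟨max u1 n, fun x hx hxs => ?_⟩
      rcases Nat.lt_succ_iff_lt_or_eq.1 hx with h' | h'
      · exact (U_mono ψ).pre (le_max_left _ _) (h1 x h' hxs)
      · subst h'; exact (U_mono ψ).pre (le_max_right _ _) hn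
    · refine ⟨u1, fun x hx hxs => ?_⟩
      rcases Nat.lt_succ_iff_lt_or_eq.1 hx with h' | h'
      · exact h1 x h' hxs
      · subst h'; exact absurd hxs hN

include hc'1 hr2 hr3 hr4 hX hB hγ hψ in
/-- certificates appear at all late stages -/
theorem crt_late (k u0 : ℕ) : ∃ u, u0 ≤ u ∧ ∃ s0, ∀ s ≥ s0, crt (act m) c' r k s u u0 = true := by
  obtain ⟨u1, hu1⟩ := cert_exists hψ u0
  obtain ⟨s1, hs1⟩ := unif hB (max u0 u1)
  obtain ⟨s2, hs2⟩ := unif hX u0
  obtain ⟨s4, hs4⟩ := unifU (f := fun s x => MS (act m) s 1 x) (MS_EC m 1) hγ (max u0 u1)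
  refine ⟨max u0 u1, le_max_left _ _, max (max s1 s2) (max s4 (max u0 u1)), fun s hs => ?_⟩
  rw [crt_iff c' hc'1 hr2 hr3 hr4]
  refine ⟨?_, ?_⟩
  · intro x hx hne
    rw [hs2 s (by omega) x (by omega)]
    have : pre (fun v => Xap β s v) (max u0 u1) = pre B (max u0 u1) :=
      pre_congr (fun k hk => hs1 s (by omega) k hk)
    rw [this]
    obtain ⟨⟨t, _, ht⟩, _⟩ := hNe_iff.1 hne
    rw [hc'1] at ht
    exact (U_mono ψ).pre (le_max_right _ _) (hu1 x hx ⟨t, (fe_iff.1 ht).1⟩)
  · intro z hz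
    rw [hs1 s (by omega) z hz]
    exact hs4 s (by omega) z hz

include hc'1 hr2 hr3 hr4 hr5 hX hT hB hγ hψ in
/-- true reductions give agreement at all late stages -/
theorem agr_late {b y : ℕ} (h : ∃ n, U b.ufst.usnd y (pre (join B (Yl m c' X b.usnd)) n) =
    some (T y).toNat) : ∃ s0, ∀ s ≥ s0, agr (act m) c' r b y s = true := by
  obtain ⟨u0, hu0⟩ := h
  have hX' := hX
  rw [← hc'1] at hX'
  obtain ⟨u, huu, s5, hs5⟩ := crt_late c' hc'1 hr2 hr3 hr4 hX hB hγ hψ b.usnd u0
  obtain ⟨s1, hs1⟩ := unif hB u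
  obtain ⟨s2, hs2⟩ := hT y
  obtain ⟨s3, hs3⟩ := unif (fun x => Yap_EC (m := m) (c' := c') hX' b.usnd x) u0
  refine ⟨max (max s1 s2) (max (max s3 s5) u), fun s hs => ?_⟩
  rw [agr_iff c' hc'1 hr2 hr3 hr4 hr5]
  refine ⟨u, by omega, u0, by omega, ?_, (crt_iff c' hc'1 hr2 hr3 hr4).1 (hs5 s (by omega))⟩
  rw [hs2 s (by omega)]
  have : pre (join (fun v => Xap β s v) (fun v => Yap (act m) c' b.usnd s v)) u0 =
      pre (join B (Yl m c' X b.usnd)) u0 :=
    pre_join_congr (fun k hk => hs1 s (by omega) k (by omega)) (fun k hk => hs3 s (by omega) k hk)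
  rw [this]; exact hu0

theorem okq_iff {b q s : ℕ} : okq (act m) c' b q s = true ↔
    q ≤ s ∧ (q = 0 ∨ inj (act m) c' b q = true) ∧ ∀ t ≤ s, t ≤ q ∨ inj (act m) c' b t = false := by
  unfold okq
  rw [Bool.and_eq_true, Bool.and_eq_true, Bool.or_eq_true, ball_iff, decide_eq_true_eq,
    decide_eq_true_eq]
  refine and_congr Iff.rfl (and_congr Iff.rfl ⟨fun h t ht => ?_, fun h t ht => ?_⟩)
  · have := h t (by omega)
    rwa [Bool.or_eq_true, decide_eq_true_eq, Bool.not_eq_true'] at this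
  · rw [Bool.or_eq_true, decide_eq_true_eq, Bool.not_eq_true']
    exact h t (by omega)

theorem okq_of {b q s : ℕ} (hqs : q ≤ s) (hq0 : q = 0 ∨ inj (act m) c' b q = true)
    (hq : ∀ t > q, inj (act m) c' b t = false) : okq (act m) c' b q s = true := by
  rw [okq_iff]
  refine ⟨hqs, hq0, fun t _ => ?_⟩
  by_cases h : t ≤ q
  · exact Or.inl h
  · exact Or.inr (hq t (by omega))

/-- the parameter of an acting requirement is the last injury -/
theorem okq_unique {b q q' s : ℕ} (hqs : q ≤ s) (hq0 : q = 0 ∨ inj (act m) c' b q = true)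
    (hq : ∀ t > q, inj (act m) c' b t = false) (h : okq (act m) c' b q' s = true) : q' = q := by
  rw [okq_iff] at h
  obtain ⟨h1, h2, h3⟩ := h
  rcases Nat.lt_trichotomy q' q with h | h | h
  · exfalso
    rcases hq0 with h5 | h5
    · omega
    · rcases h3 q hqs with h6 | h6
      · omega
      · rw [h6] at h5; simp at h5
  · exact h
  · exfalso
    rcases h2 with h5 | h5
    · omega
    · rw [hq q' h] at h5; simp at h5

/-- if agreement is seen infinitely often, the requirement acts with a permanent computation -/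
theorem acts {b y q : ℕ} (hkd : b.ufst.ufst ≤ 1) (hrb : rho c' b = r)
    (hq0 : q = 0 ∨ inj (act m) c' b q = true)
    (hq : ∀ t > q, inj (act m) c' b t = false)
    (hinf : ∀ N, ∃ s ≥ N, agree (act m) c' r b y s = true) :
    ∃ s, q ≤ s ∧ act m s = Nat.pair 2 (Nat.pair c' (Nat.pair b (Nat.pair y q))) ∧
      agree (act m) c' r b y s = true ∧ ∀ v < s, MS (act m) s 1 v = MSl m 1 v := by
  obtain ⟨j, hj⟩ : ∃ j, j = Nat.pair 2 (Nat.pair c' (Nat.pair b (Nat.pair y q))) := ⟨_, rfl⟩
  have hj1 : j.ufst = 2 := by rw [hj]; simp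
  have hwN : ∀ s, wantN (act m) s j.usnd = true ↔ okq (act m) c' b q s = true ∧
      agree (act m) c' r b y s = true := by
    intro s
    have h2 : j.usnd.ufst = c' := by rw [hj]; simp
    have h3 : j.usnd.usnd.ufst = b := by rw [hj]; simp
    have h4 : j.usnd.usnd.usnd.ufst = y := by rw [hj]; simp
    have h5 : j.usnd.usnd.usnd.usnd = q := by rw [hj]; simp
    unfold wantN
    rw [h2, h3, h4, h5, hrb, Bool.and_eq_true, Bool.and_eq_true, decide_eq_true_eq]
    exact ⟨fun h => ⟨h.1, h.2.2⟩, fun h => ⟨h.1, hkd, h.2⟩⟩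
  rw [← hj]
  clear hj
  obtain ⟨t0, S, hS, hl, ha, hact, hjt⟩ := final_start m j
  obtain ⟨s, hs, hag⟩ := hinf (max S (max q t0))
  have hcnt : 0 < cnt (act m) j t0 s := by
    by_contra hc
    have hw : wt m (act m) s j = true :=
      wt_of (t := t0) (by omega) hl (ha _) (Or.inr (Or.inr ⟨hj1, by omega,
        (hwN s).2 ⟨okq_of c' (by omega) hq0 hq, hag⟩⟩))
    have h1 := act_le_of_wt hw (by omega)
    have h2 := hact s (by omega)
    omega
  obtain ⟨s', h1, h2, h3, h4⟩ := cnt_step hcnt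
  obtain ⟨t', h5, _, h6, h7, h8, h9⟩ := wt_spec (act_real h3 (by omega))
  have : t' = t0 := start_unique h6 hl h7 (ha s') h5 h2
  subst this
  have hwn : wantN (act m) s' j.usnd = true := by
    rcases h9 with h | h | h
    · rw [hj1] at h; omega
    · rw [hj1] at h; omega
    · exact h.2.2
  have h10 := (hwN s').1 hwn
  refine ⟨s', ((okq_iff c').1 h10.1).1, h3, h10.2, fun v hv => ?_⟩
  by_cases hvx : v = Nat.pair j t'
  · subst hvx
    unfold MS MSl
    rw [Nat.ufst_pair]
    simp [hj1]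
  · obtain ⟨s3, hs3⟩ := Ml_spec m v
    have := pres' hl ha h2 h3 hv hvx (max s' s3) (by omega)
    unfold MS MSl
    rw [← hs3 (max s' s3) (by omega), this]

include hc'1 hr2 hr3 hr4 hr5 hX hψ hγ in
/-- computations at permanent actions are true -/
theorem true_at {b y q s : ℕ} (hqs : q ≤ s) (hq : ∀ t > q, inj (act m) c' b t = false)
    (hact : isN (act m s) c' b = true) (hag : agr (act m) c' r b y s = true)
    (hM : ∀ v < s, MS (act m) s 1 v = MSl m 1 v) :
    ∃ u ≤ s, ∃ u0 ≤ u, (∀ k < u, Xap β s k = B k) ∧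
      (∀ x < u0, hNe (act m) c' x s b.usnd = true →
        U ψ x (pre (fun v => Xap β s v) u) = some (Xap c s x).toNat) ∧
      U b.ufst.usnd y (pre (join (fun v => Xap β s v) (fun v => Yap (act m) c' b.usnd s v)) u0) =
        some (Xap τ s y).toNat ∧
      U b.ufst.usnd y (pre (join B (Yl m c' X b.usnd)) u0) = some (Xap τ s y).toNat := by
  obtain ⟨u, h1, u0, h2, h3, h4, h5⟩ := (agr_iff c' hc'1 hr2 hr3 hr4 hr5).1 hag
  have hB' : ∀ k < u, Xap β s k = B k := by
    intro k hk
    have h6 := h5 k hk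
    have h7 : pre (fun v => MS (act m) s 1 v) s = pre (MSl m 1) s := pre_congr hM
    rw [h7] at h6
    obtain ⟨n, hn⟩ := hγ k
    have h8 := (U_mono γ).unique h6 hn
    cases h9 : Xap β s k <;> cases h10 : B k <;> rw [h9, h10] at h8 <;> simp at h8 ⊢
  refine ⟨u, h1, u0, h2, hB', h4, h3, ?_⟩
  have h6 := true_comp c' hc'1 hX hψ hqs hq hact h2 h1 h4 hB'
  have h7 : pre (join (fun v => Xap β s v) (fun v => Yap (act m) c' b.usnd s v)) u0 =
      pre (join B (Yl m c' X b.usnd)) u0 :=
    pre_join_congr (fun k hk => hB' k (by omega)) h6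
  rw [← h7]; exact h3

include hc'1 hr2 hr3 hr4 hr5 hX hT hB hγ hψ hN in
theorem not_reduction {b q : ℕ} (hkd : b.ufst.ufst ≤ 1) (hrb : rho c' b = r)
    (hq0 : q = 0 ∨ inj (act m) c' b q = true)
    (hq : ∀ t > q, inj (act m) c' b t = false) :
    ¬ ∀ y, ∃ n, U b.ufst.usnd y (pre (join B (Yl m c' X b.usnd)) n) = some (T y).toNat := by
  intro hred
  apply hN
  -- agreement at all late stages
  have hlate : ∀ y, ∃ s0, ∀ s ≥ s0, agree (act m) c' r b y s = true := by
    intro y
    have h1 : ∀ y', ∃ s0, ∀ s ≥ s0, agr (act m) c' r b y' s = true := fun y' =>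
      agr_late c' hc'1 hr2 hr3 hr4 hr5 hX hT hB hγ hψ (hred y')
    obtain ⟨s0, hs0⟩ := unif (f := fun s y' => agr (act m) c' r b y' s) (F := fun _ => true) h1 (y+1)
    exact ⟨s0, fun s hs => (agree_iff c').2 fun y' hy' => hs0 s hs y' (by omega)⟩
  have hYL : ∀ s, (fun w => join (fun v => Xap β s v) (fun v => YapL (hist m s) c' b.usnd s v) w)
      = join (fun v => Xap β s v) (fun v => Yap (act m) c' b.usnd s v) := by
    intro s
    have : (fun v => YapL (hist m s) c' b.usnd s v) = fun v => Yap (act m) c' b.usnd s v := by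
      funext v
      exact Yap_congr (fun t ht => al_hist ht)
    rw [this]
  have hNL : ∀ s x, hNeL (hist m s) c' x s b.usnd = hNe (act m) c' x s b.usnd := fun s x =>
    hNe_congr (fun t ht => al_hist ht)
  -- meaning of the search predicate
  have hTr : ∀ y σ s, srT m c' r b q y σ s = true ↔ q ≤ s ∧ isN (act m s) c' b = true ∧
      ∃ u ≤ s, u ≤ σ.length ∧ pre (fun v => Xap β s v) u = σ.take u ∧ ∃ u0 ≤ u,
        U b.ufst.usnd y (pre (join (fun v => Xap β s v)
          (fun v => Yap (act m) c' b.usnd s v)) u0) = some (Xap τ s y).toNat ∧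
        ∀ x < u0, hNe (act m) c' x s b.usnd = true →
          U ψ x (pre (fun v => Xap β s v) u) = some (Xap c s x).toNat := by
    intro y σ s
    unfold srT srch
    rw [hc'1, hr2, hr3, hr5, Bool.and_eq_true, Bool.and_eq_true, decide_eq_true_eq, bex_iff]
    constructor
    · rintro ⟨h1, h2, u, h3, h4⟩
      rw [Bool.and_eq_true, Bool.and_eq_true, decide_eq_true_eq, decide_eq_true_eq, bex_iff] at h4
      obtain ⟨h4, h5, u0, h6, h7⟩ := h4
      rw [Bool.and_eq_true, decide_eq_true_eq, ball_iff, hYL] at h7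
      refine ⟨h1, h2, u, by omega, h4, h5, u0, by omega, h7.1, fun x hx hne => ?_⟩
      have := h7.2 x hx
      rw [hNL, hne] at this
      simpa using this
    · rintro ⟨h1, h2, u, h3, h4, h5, u0, h6, h7, h8⟩
      refine ⟨h1, h2, u, by omega, ?_⟩
      rw [Bool.and_eq_true, Bool.and_eq_true, decide_eq_true_eq, decide_eq_true_eq, bex_iff]
      refine ⟨h4, h5, u0, by omega, ?_⟩
      rw [Bool.and_eq_true, decide_eq_true_eq, ball_iff, hYL]
      refine ⟨h7, fun x hx => ?_⟩
      rw [hNL]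
      by_cases hne : hNe (act m) c' x s b.usnd = true
      · rw [hne, h8 x hx hne]; simp
      · rw [Bool.not_eq_true] at hne
        rw [hne]; simp
  -- soundness
  have hsound : ∀ y n s, srT m c' r b q y (pre B n) s = true → Xap τ s y = T y := by
    intro y n s h
    obtain ⟨h1, h2, u, h3, h4, h5, u0, h6, h7, h8⟩ := (hTr _ _ _).1 h
    rw [pre_length] at h4
    rw [pre_take B h4] at h5
    have h9 : ∀ k < u, Xap β s k = B k := pre_eq_iff.1 h5
    have h10 := true_comp c' hc'1 hX hψ h1 hq h2 h6 h3 h8 h9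
    have h11 : pre (join (fun v => Xap β s v) (fun v => Yap (act m) c' b.usnd s v)) u0 =
      pre (join B (Yl m c' X b.usnd)) u0 :=
      pre_join_congr (fun k hk => h9 k (by omega)) h10
    rw [h11] at h7
    obtain ⟨n', hn'⟩ := hred y
    have h12 := (U_mono _).unique h7 hn'
    cases h13 : Xap τ s y <;> cases h14 : T y <;> rw [h13, h14] at h12 <;> simp at h12 ⊢
  have hval : ∀ y n v, srF m c' r b q y (pre B n) = some v → v = (T y).toNat := by
    intro y n v h
    obtain ⟨s, _, h1, _⟩ := ffind_eq_some.1 h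
    cases h2 : srT m c' r b q y (pre B n) s
    · rw [h2] at h1; simp at h1
    · rw [h2, hr5] at h1
      simp only [cond_true] at h1
      rw [← hsound y n s h2]
      exact (Option.some.inj h1).symm
  have hex : ∀ y, ∃ n, srF m c' r b q y (pre B n) = some (T y).toNat := by
    intro y
    obtain ⟨s, h1, h2, h3, h4⟩ := acts (m := m) (c' := c') (b := b) (y := y) (q := q) hkd hrb hq0 hq
      (fun N => by
        obtain ⟨s0, hs0⟩ := hlate y
        exact ⟨max N s0, by omega, hs0 _ (by omega)⟩)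
    have hisN : isN (act m s) c' b = true := isN_iff.2 (Or.inl ⟨y, q, h2⟩)
    have h5 := (agree_iff c').1 h3 y le_rfl
    obtain ⟨u, h6, u0, h7, h8, h9, h10, h11⟩ :=
      true_at c' hc'1 hr2 hr3 hr4 hr5 hX hγ hψ h1 hq hisN h5 h4
    have hTs : srT m c' r b q y (pre B s) s = true := by
      rw [hTr]
      refine ⟨h1, hisN, u, h6, by rw [pre_length]; exact h6, ?_, u0, h7, h10, h9⟩
      rw [pre_take B h6]
      exact pre_congr h8
    obtain ⟨v, k', _, h12, h13⟩ := ffind_exists (n := (pre B s).length + 1)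
      (p := fun s' => bif srT m c' r b q y (pre B s) s' then some (Xap r.usnd.usnd.usnd s' y).toNat
        else none)
      (k := s) (by rw [pre_length]; omega) (by rw [hTs]; rfl)
    refine ⟨s, ?_⟩
    have h14 : srF m c' r b q y (pre B s) = some v := h13
    rw [h14, hval y s v h14]
  exact TR_iff.2 ⟨srF m c' r b q, co_srF m c' r b q, srF_mono m c' r b q, hex⟩

include hc'1 in
/-- bounded injury -/
theorem inj_bound {b : ℕ} (hfin : ∀ b' < b, ∃ s0, ∀ s ≥ s0, isN (act m s) c' b' = false) :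
    ∃ s1, ∀ t ≥ s1, inj (act m) c' b t = false := by
  -- a bound on the elements
  have h1 : ∀ n ≤ b, ∃ r, ∀ s ≥ r, ∀ b' < n, isN (act m s) c' b' = false := by
    intro n
    induction n with
    | zero => intro _; exact ⟨0, fun s _ b' hb' => absurd hb' (Nat.not_lt_zero _)⟩
    | succ n ih =>
      intro hn
      obtain ⟨r1, hr1⟩ := ih (by omega)
      obtain ⟨r2, hr2⟩ := hfin n (by omega)
      refine ⟨max r1 r2, fun s hs b' hb' => ?_⟩
      rcases Nat.lt_succ_iff_lt_or_eq.1 hb' with h' | h'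
      · exact hr1 s (by omega) b' h'
      · subst h'; exact hr2 s (by omega)
  obtain ⟨r, hr⟩ := h1 b le_rfl
  -- entry stages of small elements
  have h2 : ∀ N, ∃ s1, ∀ t ≥ s1, ∀ x < N, fe c x t = false := by
    intro N
    induction N with
    | zero => exact ⟨0, fun t _ x hx => absurd hx (Nat.not_lt_zero _)⟩
    | succ N ih =>
      obtain ⟨s1, hs1⟩ := ih
      by_cases hex : ∃ t, fe c N t = true
      · obtain ⟨t0, ht0⟩ := hex
        refine ⟨max s1 (t0+1), fun t ht x hx => ?_⟩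
        rcases Nat.lt_succ_iff_lt_or_eq.1 hx with h' | h'
        · exact hs1 t (by omega) x h'
        · subst h'
          rw [Bool.eq_false_iff]
          intro hc
          have := fe_unique hc ht0
          omega
      · refine ⟨s1, fun t ht x hx => ?_⟩
        rcases Nat.lt_succ_iff_lt_or_eq.1 hx with h' | h'
        · exact hs1 t (by omega) x h'
        · subst h'
          rw [Bool.eq_false_iff]
          intro hc
          exact hex ⟨t, hc⟩
  obtain ⟨s1, hs1⟩ := h2 r
  refine ⟨s1, fun t ht => ?_⟩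
  rw [Bool.eq_false_iff]
  intro hc
  obtain ⟨x, _, h3, b', hb', h4⟩ := inj_iff.1 hc
  rw [hc'1] at h3
  obtain ⟨t', _, h5, h6⟩ := blk_iff.1 h4
  have h7 : t' < r := by
    by_contra hcon
    have := hr t' (by omega) b' hb'
    rw [this] at h6; simp at h6
  have := hs1 t ht x (by omega)
  rw [this] at h3; simp at h3

theorem last_inj {b : ℕ} (h : ∃ s1, ∀ t ≥ s1, inj (act m) c' b t = false) :
    ∃ q, (q = 0 ∨ inj (act m) c' b q = true) ∧ ∀ t > q, inj (act m) c' b t = false := by
  obtain ⟨s1, hs1⟩ := h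
  induction s1 with
  | zero => exact ⟨0, Or.inl rfl, fun t _ => hs1 t (Nat.zero_le _)⟩
  | succ s1 ih =>
    by_cases h : inj (act m) c' b s1 = true
    · exact ⟨s1, Or.inr h, fun t ht => hs1 t (by omega)⟩
    · apply ih
      intro t ht
      rcases Nat.lt_or_eq_of_le ht with h' | h'
      · exact hs1 t (by omega)
      · rw [← h']; simpa using h

include hc'1 hr2 hr3 hr4 hr5 hX hT hB hγ hψ hN in
/-- a splitting block acts finitely often -/
theorem fin_block_N {b : ℕ} (hkd : b.ufst.ufst ≤ 1) (hrb : rho c' b = r)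
    (ih : ∀ b' < b, ∃ s0, ∀ s ≥ s0, isN (act m s) c' b' = false) :
    ∃ s0, ∀ s ≥ s0, isN (act m s) c' b = false := by
  obtain ⟨q, hq0, hq⟩ := last_inj c' (inj_bound c' hc'1 ih)
  have hnr := not_reduction c' hc'1 hr2 hr3 hr4 hr5 hX hT hB hγ hψ hN hkd hrb hq0 hq
  push Not at hnr
  obtain ⟨y0, hy0⟩ := hnr
  -- no agreement at `y0` at late stages
  have hno : ∃ s2, ∀ s ≥ s2, agr (act m) c' r b y0 s = false ∨ agree (act m) c' r b y0 s = false := by
    by_contra hcon
    push Not at hcon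
    have hinf : ∀ N, ∃ s ≥ N, agree (act m) c' r b y0 s = true := by
      intro N
      obtain ⟨s, h1, _, h2⟩ := hcon N
      exact ⟨s, h1, by simpa using h2⟩
    obtain ⟨s, h1, h2, h3, h4⟩ := acts (m := m) c' (b := b) (y := y0) (q := q) hkd hrb hq0 hq hinf
    have hisN : isN (act m s) c' b = true := isN_iff.2 (Or.inl ⟨y0, q, h2⟩)
    obtain ⟨u, h6, u0, h7, h8, h9, h10, h11⟩ :=
      true_at c' hc'1 hr2 hr3 hr4 hr5 hX hγ hψ h1 hq hisN ((agree_iff c').1 h3 y0 le_rfl) h4
    -- at a late agreement stage the value is `T y0`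
    have hX' := hX
    rw [← hc'1] at hX'
    obtain ⟨s1, hs1⟩ := hT y0
    obtain ⟨s2, hs2⟩ := unif hB u0
    obtain ⟨s3, hs3⟩ := unif (fun x => Yap_EC (m := m) (c' := c') hX' b.usnd x) u0
    obtain ⟨s', h12, h13⟩ := hinf (max (max s1 s2) s3)
    obtain ⟨u', _, u0', _, h14, _, _⟩ :=
      (agr_iff c' hc'1 hr2 hr3 hr4 hr5).1 ((agree_iff c').1 h13 y0 le_rfl)
    have h15 : pre (join (fun v => Xap β s' v) (fun v => Yap (act m) c' b.usnd s' v)) u0 =
        pre (join B (Yl m c' X b.usnd)) u0 :=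
      pre_join_congr (fun k hk => hs2 s' (by omega) k hk) (fun k hk => hs3 s' (by omega) k hk)
    rw [← h15] at h11
    have h16 := (U_mono _).unique h11 h14
    rw [hs1 s' (by omega)] at h16
    rw [h15] at h11
    exact hy0 u0 (by rw [h11, h16])
  obtain ⟨s2, hs2⟩ := hno
  have hno' : ∀ y ≥ y0, ∀ s ≥ s2, agree (act m) c' r b y s = false := by
    intro y hy s hs
    rw [Bool.eq_false_iff]
    intro hc
    rw [agree_iff] at hc
    rcases hs2 s hs with h | h
    · rw [hc y0 hy] at h; simp at h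
    · have : agree (act m) c' r b y0 s = true := (agree_iff c').2 fun y' hy' => hc y' (by omega)
      rw [this] at h; simp at h
  -- each of the finitely many remaining requirements stops
  have hstop : ∀ Y, ∃ s3, ∀ s ≥ s3, ∀ y < Y,
      act m s ≠ Nat.pair 2 (Nat.pair c' (Nat.pair b (Nat.pair y q))) := by
    intro Y
    induction Y with
    | zero => exact ⟨0, fun s _ y hy => absurd hy (Nat.not_lt_zero _)⟩
    | succ Y ihY =>
      obtain ⟨s3, hs3⟩ := ihY
      obtain ⟨s4, hs4⟩ := fin_inj m (Nat.pair 2 (Nat.pair c' (Nat.pair b (Nat.pair Y q))))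
      refine ⟨max s3 s4, fun s hs y hy => ?_⟩
      rcases Nat.lt_succ_iff_lt_or_eq.1 hy with h' | h'
      · exact hs3 s (by omega) y h'
      · subst h'; exact (hs4 s (by omega)).ne'
  obtain ⟨s3, hs3⟩ := hstop y0
  refine ⟨max (max s2 s3) (q+1), fun s hs => ?_⟩
  rw [Bool.eq_false_iff]
  intro hc
  have hle := (isN_le hc).1
  obtain ⟨t, _, _, _, _, _, hw⟩ := wt_spec (act_real rfl hle)
  rcases isN_iff.1 hc with ⟨y, q', hj⟩ | ⟨i, q', hj⟩
  · have hwN : wantN (act m) s (act m s).usnd = true := by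
      rcases hw with h | h | h
      · rw [hj] at h; simp at h
      · rw [hj] at h; simp at h
      · exact h.2.2
    unfold wantN at hwN
    rw [Bool.and_eq_true, Bool.and_eq_true, hj] at hwN
    simp only [Nat.ufst_pair, Nat.usnd_pair] at hwN
    obtain ⟨h1, h2, h4⟩ := hwN
    rw [hrb] at h4
    have hqq : q' = q := okq_unique c' (by omega) hq0 hq h1
    subst hqq
    by_cases hy : y < y0
    · exact hs3 s (by omega) y hy hj
    · rw [hno' y (by omega) s (by omega)] at h4; simp at h4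
  · have hwT : wantT (act m) s (act m s) (act m s).usnd (Nat.pair (act m s) t) = true := by
      rcases hw with h | h | h
      · rw [hj] at h; simp at h
      · exact h.2
      · rw [hj] at h; simp at h
    unfold wantT at hwT
    rw [Bool.and_eq_true, Bool.and_eq_true, hj] at hwT
    simp only [Nat.ufst_pair, Nat.usnd_pair] at hwT
    have := hwT.2.1
    rw [decide_eq_true_eq] at this
    omega

include hc'1 in
/-- an independence block acts finitely often -/
theorem fin_block_T {b : ℕ} (hkd : ¬ b.ufst.ufst ≤ 1)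
    (ih : ∀ b' < b, ∃ s0, ∀ s ≥ s0, isN (act m s) c' b' = false) :
    ∃ s0, ∀ s ≥ s0, isN (act m s) c' b = false := by
  obtain ⟨q, hq0, hq⟩ := last_inj c' (inj_bound c' hc'1 ih)
  obtain ⟨s4, hs4⟩ := fin_inj m (Nat.pair 1 (Nat.pair b.ufst.usnd.ufst (Nat.pair c' (Nat.pair b q))))
  refine ⟨max s4 (q+1), fun s hs => ?_⟩
  rw [Bool.eq_false_iff]
  intro hc
  have hle := (isN_le hc).1
  obtain ⟨t, _, _, _, _, _, hw⟩ := wt_spec (act_real rfl hle)
  rcases isN_iff.1 hc with ⟨y, q', hj⟩ | ⟨i, q', hj⟩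
  · have hwN : wantN (act m) s (act m s).usnd = true := by
      rcases hw with h | h | h
      · rw [hj] at h; simp at h
      · rw [hj] at h; simp at h
      · exact h.2.2
    unfold wantN at hwN
    rw [Bool.and_eq_true, Bool.and_eq_true, hj] at hwN
    simp only [Nat.ufst_pair, Nat.usnd_pair] at hwN
    have := hwN.2.1
    rw [decide_eq_true_eq] at this
    exact hkd this
  · have hwT : wantT (act m) s (act m s) (act m s).usnd (Nat.pair (act m s) t) = true := by
      rcases hw with h | h | h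
      · rw [hj] at h; simp at h
      · exact h.2
      · rw [hj] at h; simp at h
    unfold wantT at hwT
    rw [Bool.and_eq_true, Bool.and_eq_true, Bool.and_eq_true, hj] at hwT
    simp only [Nat.ufst_pair, Nat.usnd_pair] at hwT
    obtain ⟨h1, h2, h3, _⟩ := hwT
    have hqq : q' = q := okq_unique c' (by omega) hq0 hq h1
    rw [decide_eq_true_eq] at h3
    rw [hqq, ← h3] at hj
    have := hs4 s (by omega)
    omega

end main

/-- the hypotheses on a pair (target, base) -/
def Good (m c' r : ℕ) (X B T : ℕ → Bool) : Prop :=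
  (∀ x, ∃ s0, ∀ s ≥ s0, Xap r.usnd.usnd.usnd s x = T x) ∧
  (∀ x, ∃ s0, ∀ s ≥ s0, Xap r.usnd.ufst s x = B x) ∧
  (∀ z, ∃ n, U r.usnd.usnd.ufst z (pre (MSl m 1) n) = some (B z).toNat) ∧
  (∀ x, (∃ s, Xap c'.ufst s x = true) → ∃ n, U r.ufst x (pre B n) = some (X x).toNat) ∧
  ¬ TR T B

theorem fin_block {m c' : ℕ} {X B0 T0 B1 T1 : ℕ → Bool}
    (hX : ∀ x, ∃ s0, ∀ s ≥ s0, Xap c'.ufst s x = X x)
    (h0 : Good m c' c'.usnd.ufst X B0 T0) (h1 : Good m c' c'.usnd.usnd X B1 T1) (b : ℕ) :
    ∃ s0, ∀ s ≥ s0, isN (act m s) c' b = false := by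
  induction b using Nat.strong_induction_on with
  | _ b ih =>
    by_cases hkd : b.ufst.ufst ≤ 1
    · by_cases hk0 : b.ufst.ufst = 0
      · obtain ⟨g1, g2, g3, g4, g5⟩ := h0
        exact fin_block_N c' rfl rfl rfl rfl rfl hX g1 g2 g3 g4 g5 hkd (by unfold rho; simp [hk0]) ih
      · obtain ⟨g1, g2, g3, g4, g5⟩ := h1
        exact fin_block_N c' rfl rfl rfl rfl rfl hX g1 g2 g3 g4 g5 hkd (by unfold rho; simp [hk0]) ih
    · exact fin_block_T c' rfl hkd ih

theorem last_injury {m c' : ℕ} {X B0 T0 B1 T1 : ℕ → Bool}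
    (hX : ∀ x, ∃ s0, ∀ s ≥ s0, Xap c'.ufst s x = X x)
    (h0 : Good m c' c'.usnd.ufst X B0 T0) (h1 : Good m c' c'.usnd.usnd X B1 T1) (b : ℕ) :
    ∃ q, (q = 0 ∨ inj (act m) c' b q = true) ∧ ∀ t > q, inj (act m) c' b t = false :=
  last_inj c' (inj_bound c' rfl (b := b) (fun b' _ => fin_block hX h0 h1 b'))

/-- the splitting requirement, first pair -/
theorem split_not_TR0 {m c' : ℕ} {X B0 T0 B1 T1 : ℕ → Bool}
    (hX : ∀ x, ∃ s0, ∀ s ≥ s0, Xap c'.ufst s x = X x)
    (h0 : Good m c' c'.usnd.ufst X B0 T0) (h1 : Good m c' c'.usnd.usnd X B1 T1) (i : ℕ) :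
    ¬ TR T0 (join B0 (Yl m c' X i)) := by
  intro h
  obtain ⟨e, he⟩ := TR_iff_U.1 h
  obtain ⟨b, hb⟩ : ∃ b, b = Nat.pair (Nat.pair 0 e) i := ⟨_, rfl⟩
  have e1 : b.usnd = i := by rw [hb]; simp
  have e2 : b.ufst.usnd = e := by rw [hb]; simp
  have e3 : b.ufst.ufst = 0 := by rw [hb]; simp
  clear hb
  obtain ⟨q, hq0, hq⟩ := last_injury hX h0 h1 b
  obtain ⟨g1, g2, g3, g4, g5⟩ := h0
  apply not_reduction c' rfl rfl rfl rfl rfl hX g1 g2 g3 g4 g5 (b := b) (by omega)
    (by unfold rho; simp [e3]) hq0 hq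
  rw [e1, e2]
  exact he

/-- the splitting requirement, second pair -/
theorem split_not_TR1 {m c' : ℕ} {X B0 T0 B1 T1 : ℕ → Bool}
    (hX : ∀ x, ∃ s0, ∀ s ≥ s0, Xap c'.ufst s x = X x)
    (h0 : Good m c' c'.usnd.ufst X B0 T0) (h1 : Good m c' c'.usnd.usnd X B1 T1) (i : ℕ) :
    ¬ TR T1 (join B1 (Yl m c' X i)) := by
  intro h
  obtain ⟨e, he⟩ := TR_iff_U.1 h
  obtain ⟨b, hb⟩ : ∃ b, b = Nat.pair (Nat.pair 1 e) i := ⟨_, rfl⟩
  have e1 : b.usnd = i := by rw [hb]; simp
  have e2 : b.ufst.usnd = e := by rw [hb]; simp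
  have e3 : b.ufst.ufst = 1 := by rw [hb]; simp
  clear hb
  obtain ⟨q, hq0, hq⟩ := last_injury hX h0 h1 b
  obtain ⟨g1, g2, g3, g4, g5⟩ := h1
  apply not_reduction c' rfl rfl rfl rfl rfl hX g1 g2 g3 g4 g5 (b := b) (by omega)
    (by unfold rho; simp [e3]) hq0 hq
  rw [e1, e2]
  exact he

end DegC
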