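import Pool.Agent.Lib_helper53.Deg2.Run

/-!
# Verification of the Cooper and Friedberg-Muchnik requirements
-/

namespace DegC

open DegB

/-- limit of the selected part of the master set -/
noncomputable def MSl (m k x : ℕ) : Bool :=
  Ml m x && (decide (x.ufst.ufst ≤ 1) && sel k (colm x))

theorem MS_EC (m k x : ℕ) : ∃ s0, ∀ s ≥ s0, MS (act m) s k x = MSl m k x := by
  obtain ⟨s0, hs0⟩ := Ml_spec m x
  exact ⟨s0, fun s hs => by unfold MS MSl; rw [hs0 s hs]⟩

/-- uniformisation of pointwise limits -/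
theorem unif {f : ℕ → ℕ → Bool} {F : ℕ → Bool} (h : ∀ x, ∃ s0, ∀ s ≥ s0, f s x = F x) (N : ℕ) :
    ∃ s0, ∀ s ≥ s0, ∀ x < N, f s x = F x := by
  induction N with
  | zero => exact ⟨0, fun s _ x hx => absurd hx (Nat.not_lt_zero x)⟩
  | succ N ih =>
    obtain ⟨s1, h1⟩ := ih
    obtain ⟨s2, h2⟩ := h N
    refine ⟨max s1 s2, fun s hs x hx => ?_⟩
    rcases Nat.lt_succ_iff_lt_or_eq.1 hx with h' | h'
    · exact h1 s (by omega) x h'
    · subst h'; exact h2 s (by omega)

/-- uniformisation of computations: for oracle approximations `f s → F` and convergent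
computations below `N`, at late stages the computations from `f s` agree. -/
theorem unifU {f : ℕ → ℕ → Bool} {F G : ℕ → Bool} {ψ : ℕ}
    (h : ∀ x, ∃ s0, ∀ s ≥ s0, f s x = F x)
    (hψ : ∀ z, ∃ n, U ψ z (pre F n) = some (G z).toNat) (N : ℕ) :
    ∃ s0, ∀ s ≥ s0, ∀ z < N, U ψ z (pre (f s) s) = some (G z).toNat := by
  have h1 : ∃ n, ∀ z < N, U ψ z (pre F n) = some (G z).toNat := by
    induction N with
    | zero => exact ⟨0, fun z hz => absurd hz (Nat.not_lt_zero z)⟩
    | succ N ih =>
      obtain ⟨n1, h1⟩ := ih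
      obtain ⟨n2, h2⟩ := hψ N
      refine ⟨max n1 n2, fun z hz => ?_⟩
      rcases Nat.lt_succ_iff_lt_or_eq.1 hz with h' | h'
      · exact (U_mono ψ).pre (le_max_left _ _) (h1 z h')
      · subst h'; exact (U_mono ψ).pre (le_max_right _ _) h2
  obtain ⟨n, hn⟩ := h1
  obtain ⟨s1, hs1⟩ := unif h n
  refine ⟨max s1 n, fun s hs z hz => ?_⟩
  have h2 : pre (f s) n = pre F n := pre_congr (hs1 s (by omega))
  have h3 := hn z hz
  rw [← h2] at h3
  exact (U_mono ψ).pre (by omega) h3

/-- the final incarnation of a requirement -/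
theorem final_start (m j : ℕ) : ∃ t0 S, t0 ≤ S ∧ legit (act m) j t0 = true ∧
    (∀ s, alive (act m) j t0 s = true) ∧ (∀ s ≥ S, j < act m s) ∧ j ≤ t0 := by
  obtain ⟨s0, hs0⟩ := fin_inj m j
  obtain ⟨t, ht, hl, ha⟩ := start_exists (a := act m) (j := j) (s := max s0 j) (by omega)
  refine ⟨t, max s0 j, ht, hl, fun s => ?_, fun s hs => hs0 s (by omega), (legit_iff.1 hl).1⟩
  rw [alive_iff] at ha ⊢
  intro t' h1 h2
  by_cases h3 : t' < max s0 j
  · exact ha t' h3 h2
  · exact (hs0 t' (by omega)).le

/-- if the counter exceeds `i`, there is an action at which it is exactly `i` -/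
theorem cnt_step {a : ℕ → ℕ} {j t i : ℕ} {N : ℕ} (h : i < cnt a j t N) :
    ∃ s < N, t ≤ s ∧ a s = j ∧ cnt a j t s = i := by
  induction N with
  | zero => exact absurd h (Nat.not_lt_zero _)
  | succ N ih =>
    by_cases h' : i < cnt a j t N
    · obtain ⟨s, h1, h2⟩ := ih h'
      exact ⟨s, by omega, h2⟩
    · by_cases h2 : t ≤ N ∧ a N = j ∧ alive a j t N = true
      · rw [cnt_act h2.1 h2.2.1 h2.2.2] at h
        exact ⟨N, by omega, h2.1, h2.2.1, by omega⟩
      · rw [cnt_not_act h2] at h
        exact absurd h h'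

theorem M_witness {m j t0 s : ℕ} (hl : legit (act m) j t0 = true) :
    M (act m) s (Nat.pair j t0) = decide (cnt (act m) j t0 s % 2 = 1) := by
  unfold M
  rw [Nat.ufst_pair, Nat.usnd_pair]
  rw [hl, Bool.true_and]
  by_cases h : t0 < s
  · have : decide (t0 < s) = true := by simpa using h
    rw [this, Bool.true_and]
  · have : decide (t0 < s) = false := by simpa using h
    rw [this, cnt_zero_of_le (by omega)]; rfl

/-- preservation after an action of `j` in its final incarnation -/
theorem pres' {m j t0 s : ℕ} (hl : legit (act m) j t0 = true)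
    (ha : ∀ s, alive (act m) j t0 s = true) (hs : t0 ≤ s) (hact : act m s = j) {x : ℕ}
    (hx : x < s) (hne : x ≠ Nat.pair j t0) : ∀ t ≥ s, M (act m) t x = M (act m) s x := by
  refine pres (fun t ht => ?_) hx ?_
  · rw [hact]
    exact alive_iff.1 (ha (t+1)) t (by omega) (by omega)
  · intro t1 h1 h2 h3
    rw [hact] at h1 h2 ⊢
    have := start_unique h1 hl h2 (ha s) h3 hs
    rw [this]; exact hne

theorem no_m_ce (m : ℕ) {w φ ψ : ℕ} {W : ℕ → Bool}
    (hW : ∀ x, ∃ s0, ∀ s ≥ s0, Xap w s x = W x) (hc : ∀ x, (chg fun s => Xap w s x).encard ≤ m)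
    (hφ : ∀ x, ∃ n, U φ x (pre W n) = some (MSl m 0 x).toNat)
    (hψ : ∀ z, ∃ n, U ψ z (pre (MSl m 0) n) = some (W z).toNat) : False := by
  obtain ⟨j, hj⟩ : ∃ j, j = Nat.pair 0 (Nat.pair w (Nat.pair φ ψ)) := ⟨_, rfl⟩
  have hj1 : j.ufst = 0 := by rw [hj]; simp
  have hj2 : j.usnd.ufst = w := by rw [hj]; simp
  have hj3 : j.usnd.usnd.ufst = φ := by rw [hj]; simp
  have hj4 : j.usnd.usnd.usnd = ψ := by rw [hj]; simp
  clear hj
  obtain ⟨t0, S, hS, hl, ha, hact, hjt⟩ := final_start m j
  have hcol : ∀ s, MS (act m) s 0 (Nat.pair j t0) = decide (cnt (act m) j t0 s % 2 = 1) := by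
    intro s
    unfold MS
    rw [M_witness hl]
    have h1 : colm (Nat.pair j t0) = 0 := by
      unfold colm
      rw [Nat.ufst_pair]
      simp [hj1]
    rw [h1, Nat.ufst_pair]
    simp [hj1, sel]
  -- `wantR` holds at all late stages
  have hlate : ∃ s1, ∀ s ≥ s1, wantR (act m) s j (Nat.pair j t0) = true := by
    obtain ⟨n, hn⟩ := hφ (Nat.pair j t0)
    obtain ⟨s1, h1⟩ := unif hW (max n S)
    obtain ⟨s2, h2⟩ := unifU (f := fun s x => MS (act m) s 0 x) (MS_EC m 0) hψ (max n S)
    obtain ⟨s3, h3⟩ := MS_EC m 0 (Nat.pair j t0)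
    refine ⟨max (max s1 s2) (max s3 (max n S)), fun s hs => ?_⟩
    unfold wantR
    rw [bex_iff]
    refine ⟨max n S, by omega, ?_⟩
    rw [Bool.and_eq_true, Bool.and_eq_true, ball_iff, ball_iff, decide_eq_true_eq]
    refine ⟨?_, ?_, ?_⟩
    · intro t' _
      rw [Bool.or_eq_true, decide_eq_true_eq]
      by_cases h4 : t' ≤ max n S
      · exact Or.inr h4
      · left
        have := hact t' (by omega)
        simp; omega
    · rw [hj3, hj2, h3 s (by omega)]
      have : pre (fun z => Xap w s z) (max n S) = pre W (max n S) :=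
        pre_congr fun k hk => h1 s (by omega) k hk
      rw [this]
      exact (U_mono φ).pre (le_max_left _ _) hn
    · intro z hz
      rw [decide_eq_true_eq, hj4, hj2, h1 s (by omega) z hz]
      exact h2 s (by omega) z hz
  obtain ⟨s1, hs1⟩ := hlate
  -- the counter reaches `m+1`
  have hcnt : ∃ N, ∀ s ≥ N, cnt (act m) j t0 s = m + 1 := by
    obtain ⟨s2, hs2⟩ := cnt_const m j t0
    by_cases hle : cnt (act m) j t0 s2 ≤ m
    · exfalso
      have hw : wt m (act m) (max (max s1 s2) (max S t0)) j = true :=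
        wt_of (t := t0) (by omega) hl (ha _)
          (Or.inl ⟨hj1, by rw [hs2 _ (by omega)]; exact hle, hs1 _ (by omega)⟩)
      have h1 := act_le_of_wt hw (by omega)
      have h2 := hact (max (max s1 s2) (max S t0)) (by omega)
      omega
    · refine ⟨s2, fun s hs => ?_⟩
      rw [hs2 s hs]
      have := cnt_le m hl s2
      omega
  obtain ⟨N, hN⟩ := hcnt
  -- the stages
  have hstages : ∀ i, i ≤ m + 1 → ∃ s, t0 ≤ s ∧ cnt (act m) j t0 s = i ∧
      wantR (act m) s j (Nat.pair j t0) = true ∧ (i ≤ m → act m s = j) := by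
    intro i hi
    rcases Nat.lt_or_eq_of_le hi with h | h
    · obtain ⟨s, h1, h2, h3, h4⟩ := cnt_step (a := act m) (j := j) (t := t0) (i := i) (N := N)
        (by rw [hN N le_rfl]; exact h)
      refine ⟨s, h2, h4, ?_, fun _ => h3⟩
      obtain ⟨t', h5, _, h6, h7, h8, h9⟩ := wt_spec (act_real h3 (by omega))
      have : t' = t0 := start_unique h6 hl h7 (ha s) h5 h2
      subst this
      rcases h9 with h9 | h9 | h9
      · exact h9.2
      · rw [hj1] at h9; omega
      · rw [hj1] at h9; omega
    · exact ⟨max (max N s1) t0, by omega, by rw [hN _ (by omega), h], hs1 _ (by omega), by omega⟩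
  choose! f hf1 hf2 hf3 hf4 using hstages
  have hmono : ∀ i i', i < i' → i' ≤ m + 1 → f i < f i' := by
    intro i i' h1 h2
    by_contra hc
    have := cnt_mono (a := act m) (j := j) (t := t0) (show f i' ≤ f i by omega)
    rw [hf2 i (by omega), hf2 i' h2] at this
    omega
  -- unfold wantR at each stage
  have hR : ∀ i, i ≤ m + 1 → ∃ u ≤ f i, (∀ t' < f i, act m t' = j → t' ≤ u) ∧
      U φ (Nat.pair j t0) (pre (fun z => Xap w (f i) z) u) = some (i % 2) ∧
      ∀ z < u, U ψ z (pre (fun v => MS (act m) (f i) 0 v) (f i)) = some (Xap w (f i) z).toNat := by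
    intro i hi
    have h := hf3 i hi
    unfold wantR at h
    rw [bex_iff] at h
    obtain ⟨u, h1, h2⟩ := h
    rw [Bool.and_eq_true, Bool.and_eq_true, ball_iff, ball_iff, decide_eq_true_eq] at h2
    obtain ⟨h2, h3, h4⟩ := h2
    refine ⟨u, by omega, ?_, ?_, ?_⟩
    · intro t' ht' he
      have := h2 t' ht'
      rw [Bool.or_eq_true, decide_eq_true_eq] at this
      rcases this with h5 | h5
      · simp [he] at h5
      · exact h5
    · rw [hj3, hj2, hcol, hf2 i hi] at h3
      rw [h3]
      congr 1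
      rcases Nat.mod_two_eq_zero_or_one i with h5 | h5 <;> simp [h5]
    · intro z hz
      have := h4 z hz
      rw [decide_eq_true_eq, hj4, hj2] at this
      exact this
  obtain ⟨u0, hu0, _, hφ0, hψ0⟩ := hR 0 (by omega)
  obtain ⟨u1, hu1, _, hφ1, _⟩ := hR 1 (by omega)
  -- the changing element
  have hz : ∃ z < u0, Xap w (f 1) z ≠ Xap w (f 0) z := by
    by_contra hcon
    push Not at hcon
    have h1 : pre (fun z => Xap w (f 0) z) u0 = pre (fun z => Xap w (f 1) z) u0 :=
      pre_congr fun k hk => (hcon k hk).symm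
    rw [h1] at hφ0
    have := (U_mono φ).unique hφ0 hφ1
    omega
  obtain ⟨z, hz0, hz1⟩ := hz
  have hzψ : ∀ i, i ≤ m + 1 → U ψ z (pre (fun v => MS (act m) (f i) 0 v) (f i)) =
      some (Xap w (f i) z).toNat := by
    intro i hi
    rcases Nat.eq_zero_or_pos i with h | h
    · subst h
      exact hψ0 z hz0
    · obtain ⟨u, hu, h1, _, h3⟩ := hR i hi
      apply h3
      have h4 := h1 (f 0) (hmono 0 i h hi) (hf4 0 (by omega) (by omega))
      omega
  -- period two
  have hper : ∀ i, i + 2 ≤ m + 1 → Xap w (f (i+2)) z = Xap w (f i) z := by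
    intro i hi
    have h1 := hzψ i (by omega)
    have h2 := hzψ (i+2) hi
    have h3 : pre (fun v => MS (act m) (f i) 0 v) (f i) =
        pre (fun v => MS (act m) (f (i+2)) 0 v) (f i) := by
      refine pre_congr fun v hv => ?_
      by_cases hvx : v = Nat.pair j t0
      · subst hvx
        show MS (act m) (f i) 0 (Nat.pair j t0) = MS (act m) (f (i+2)) 0 (Nat.pair j t0)
        rw [hcol, hcol, hf2 i (by omega), hf2 (i+2) hi]
        congr 1
        simp
      · have := pres' hl ha (hf1 i (by omega)) (hf4 i (by omega) (by omega)) hv hvx (f (i+2))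
          (hmono i (i+2) (by omega) hi).le
        show MS (act m) (f i) 0 v = MS (act m) (f (i+2)) 0 v
        unfold MS
        rw [this]
    rw [h3] at h1
    have := (U_mono ψ).unique h1 h2
    cases h5 : Xap w (f (i+2)) z <;> cases h6 : Xap w (f i) z <;> rw [h5, h6] at this <;>
      simp at this ⊢
  have halt : ∀ i, i + 1 ≤ m + 1 → Xap w (f i) z ≠ Xap w (f (i+1)) z := by
    intro i
    induction i with
    | zero => intro _ h; exact hz1 h.symm
    | succ i ih =>
      intro hi h
      rw [hper i hi] at h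
      exact ih (by omega) h.symm
  -- too many changes
  have hex : ∀ i, i ≤ m → ∃ t, f i ≤ t ∧ t < f (i+1) ∧ Xap w t z ≠ Xap w (t+1) z := by
    intro i hi
    exact exists_change (f := fun s => Xap w s z) (hmono i (i+1) (by omega) (by omega)).le
      (halt i (by omega))
  choose! g hg1 hg2 hg3 using hex
  have hle : (Set.Iio (m+1)).encard ≤ (chg fun s => Xap w s z).encard := by
    refine Set.encard_le_encard_of_injOn (f := g) (fun i hi => hg3 i ?_) ?_
    · simp only [Set.mem_Iio] at hi; omega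
    · intro i hi i' hi' heq
      simp only [Set.mem_Iio] at hi hi'
      rcases Nat.lt_trichotomy i i' with h | h | h
      · have h1 := hg2 i (by omega)
        have h2 := hg1 i' (by omega)
        have h3 : f (i+1) ≤ f i' := by
          rcases Nat.lt_or_eq_of_le (show i + 1 ≤ i' by omega) with h4 | h4
          · exact (hmono _ _ h4 (by omega)).le
          · rw [h4]
        omega
      · exact h
      · have h1 := hg2 i' (by omega)
        have h2 := hg1 i (by omega)
        have h3 : f (i'+1) ≤ f i := by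
          rcases Nat.lt_or_eq_of_le (show i' + 1 ≤ i by omega) with h4 | h4
          · exact (hmono _ _ h4 (by omega)).le
          · rw [h4]
        omega
  have h1 : (Set.Iio (m+1)).encard = (m + 1 : ℕ) := by
    rw [← Finset.coe_range, Set.encard_coe_eq_coe_finsetCard, Finset.card_range]
  rw [h1] at hle
  have h2 := hle.trans (hc z)
  have h3 : m + 1 ≤ m := by exact_mod_cast h2
  omega

end DegC
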