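import Pool.Agent.Lib_helper53.Deg2.VerN

/-!
# Verification of the independence requirements
-/

namespace DegC

open DegB

/-- the `i`-th column -/
noncomputable def Vcol (m i x : ℕ) : Bool :=
  Ml m x && (decide (x.ufst.ufst ≤ 1) && decide (colm x = i))

theorem indepT {m c' i k : ℕ} {X B0 T0 B1 T1 : ℕ → Bool}
    (hX : ∀ x, ∃ s0, ∀ s ≥ s0, Xap c'.ufst s x = X x)
    (hc : ∀ x, (chg fun s => Xap c'.ufst s x).encard ≤ (m + 1 : ℕ))
    (h0 : Good m c' c'.usnd.ufst X B0 T0) (h1 : Good m c' c'.usnd.usnd X B1 T1) :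
    ¬ TR (Vcol m i) (join (MSl m (i+2)) (Yl m c' X k)) := by
  intro hTR
  obtain ⟨e, he⟩ := TR_iff_U.1 hTR
  obtain ⟨b, hb⟩ : ∃ b, b = Nat.pair (Nat.pair 2 (Nat.pair i e)) k := ⟨_, rfl⟩
  have e1 : b.usnd = k := by rw [hb]; simp
  have e2 : b.ufst.usnd.usnd = e := by rw [hb]; simp
  have e3 : b.ufst.ufst = 2 := by rw [hb]; simp
  have e4 : b.ufst.usnd.ufst = i := by rw [hb]; simp
  clear hb
  obtain ⟨q, hq0, hq⟩ := last_injury hX h0 h1 b
  obtain ⟨g1, g2, g3, g4, _⟩ := h0
  obtain ⟨c, hcc⟩ : ∃ c, c = c'.ufst := ⟨_, rfl⟩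
  obtain ⟨r, hr⟩ : ∃ r, r = c'.usnd.ufst := ⟨_, rfl⟩
  obtain ⟨ψ, hψ⟩ : ∃ ψ, ψ = r.ufst := ⟨_, rfl⟩
  obtain ⟨β, hβ⟩ : ∃ β, β = r.usnd.ufst := ⟨_, rfl⟩
  obtain ⟨γ, hγ⟩ : ∃ γ, γ = r.usnd.usnd.ufst := ⟨_, rfl⟩
  rw [← hr, ← hβ] at g2
  rw [← hr, ← hγ] at g3
  rw [← hr, ← hψ, ← hcc] at g4
  rw [← hcc] at hc
  have hXc : ∀ x, ∃ s0, ∀ s ≥ s0, Xap c s x = X x := by rw [hcc]; exact hX
  obtain ⟨j, hj⟩ : ∃ j, j = Nat.pair 1 (Nat.pair i (Nat.pair c' (Nat.pair b q))) := ⟨_, rfl⟩
  have hj1 : j.ufst = 1 := by rw [hj]; simp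
  have hj2 : j.usnd.ufst = i := by rw [hj]; simp
  have hj3 : j.usnd.usnd.ufst = c' := by rw [hj]; simp
  have hj4 : j.usnd.usnd.usnd.ufst = b := by rw [hj]; simp
  have hj5 : j.usnd.usnd.usnd.usnd = q := by rw [hj]; simp
  have hjN : isN j c' b = true := isN_iff.2 (Or.inr ⟨i, q, hj⟩)
  clear hj
  obtain ⟨t0, S, hS, hl, ha, hact, hjt⟩ := final_start m j
  have hcolm : colm (Nat.pair j t0) = i := by
    unfold colm
    rw [Nat.ufst_pair]
    simp [hj1, hj2]
  have hcol : ∀ s, MS (act m) s 1 (Nat.pair j t0) = decide (cnt (act m) j t0 s % 2 = 1) := by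
    intro s
    unfold MS
    rw [M_witness hl, Nat.ufst_pair]
    simp [hj1, sel]
  -- meaning of `wantT`
  have hwT : ∀ s, wantT (act m) s j j.usnd (Nat.pair j t0) = true ↔ okq (act m) c' b q s = true ∧
      ∃ u ≤ s, (∀ t' < s, act m t' = j → t' ≤ u) ∧
        U e (Nat.pair j t0) (pre (join (fun v => MS (act m) s (i+2) v)
          (fun v => Yap (act m) c' k s v)) u) = some (MS (act m) s 1 (Nat.pair j t0)).toNat ∧
        ∃ u' ≤ s, crt (act m) c' r k s u' u = true := by
    intro s
    unfold wantT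
    rw [hj2, hj3, hj4, hj5, e1, e2, e3, e4, ← hr]
    rw [Bool.and_eq_true, Bool.and_eq_true, Bool.and_eq_true, decide_eq_true_eq, decide_eq_true_eq,
      bex_iff]
    constructor
    · rintro ⟨h1, _, _, u, h2, h3⟩
      rw [Bool.and_eq_true, Bool.and_eq_true, ball_iff, decide_eq_true_eq, bex_iff] at h3
      obtain ⟨h3, h4, u', h5, h6⟩ := h3
      refine ⟨h1, u, by omega, ?_, h4, u', by omega, h6⟩
      intro t' ht' he
      have := h3 t' ht'
      rw [Bool.or_eq_true, decide_eq_true_eq] at this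
      rcases this with h5 | h5
      · simp [he] at h5
      · exact h5
    · rintro ⟨h1, u, h2, h3, h4, u', h5, h6⟩
      refine ⟨h1, rfl, rfl, u, by omega, ?_⟩
      rw [Bool.and_eq_true, Bool.and_eq_true, ball_iff, decide_eq_true_eq, bex_iff]
      refine ⟨fun t' ht' => ?_, h4, u', by omega, h6⟩
      rw [Bool.or_eq_true, decide_eq_true_eq]
      by_cases h7 : act m t' = j
      · exact Or.inr (h3 t' ht' h7)
      · left; simp [h7]
  -- `wantT` holds at all late stages
  have hV : ∃ s3, ∀ s ≥ s3, MS (act m) s 1 (Nat.pair j t0) = Vcol m i (Nat.pair j t0) := by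
    obtain ⟨s3, hs3⟩ := Ml_spec m (Nat.pair j t0)
    refine ⟨s3, fun s hs => ?_⟩
    unfold MS Vcol
    rw [hs3 s hs, hcolm]
    simp [sel]
  have hlate : ∃ s1, ∀ s ≥ s1, wantT (act m) s j j.usnd (Nat.pair j t0) = true := by
    obtain ⟨n, hn⟩ := he (Nat.pair j t0)
    obtain ⟨s3, h3⟩ := hV
    obtain ⟨u', huu, s5, hs5⟩ := crt_late (m := m) c' (r := r) hcc.symm hψ.symm hβ.symm hγ.symm hXc g2 g3
      g4 k (max n S)
    obtain ⟨s1, h1⟩ := unif (MS_EC m (i+2)) (max n S)
    obtain ⟨s2, h2⟩ := unif (fun x => Yap_EC (m := m) (c' := c') hX k x) (max n S)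
    refine ⟨max (max (max s1 s2) (max s3 s5)) (max (max n S) (max u' q)), fun s hs => ?_⟩
    rw [hwT]
    refine ⟨okq_of c' (by omega) hq0 hq, max n S, by omega, ?_, ?_, u', by omega, hs5 s (by omega)⟩
    · intro t' _ he'
      by_contra hcon
      have := hact t' (by omega)
      omega
    · rw [h3 s (by omega)]
      have : pre (join (fun v => MS (act m) s (i+2) v) (fun v => Yap (act m) c' k s v)) (max n S) =
          pre (join (MSl m (i+2)) (Yl m c' X k)) (max n S) :=
        pre_join_congr (fun v hv => h1 s (by omega) v hv) (fun v hv => h2 s (by omega) v hv)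
      rw [this]
      exact (U_mono e).pre (le_max_left _ _) hn
  obtain ⟨s1, hs1⟩ := hlate
  -- the counter reaches `m+1`
  have hcnt : ∃ N, ∀ s ≥ N, cnt (act m) j t0 s = m + 1 := by
    obtain ⟨s2, hs2⟩ := cnt_const m j t0
    by_cases hle : cnt (act m) j t0 s2 ≤ m
    · exfalso
      have hw : wt m (act m) (max (max s1 s2) (max S t0)) j = true :=
        wt_of (t := t0) (by omega) hl (ha _)
          (Or.inr (Or.inl ⟨hj1, by rw [hs2 _ (by omega)]; exact hle, hs1 _ (by omega)⟩))
      have h1 := act_le_of_wt hw (by omega)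
      have h2 := hact (max (max s1 s2) (max S t0)) (by omega)
      omega
    · refine ⟨s2, fun s hs => ?_⟩
      rw [hs2 s hs]
      have := cnt_le m hl s2
      omega
  obtain ⟨N, hN⟩ := hcnt
  -- the stages
  have hstages : ∀ i, i ≤ m + 1 → ∃ s, t0 ≤ s ∧ cnt (act m) j t0 s = i ∧
      wantT (act m) s j j.usnd (Nat.pair j t0) = true ∧ (i ≤ m → act m s = j) := by
    intro i hi
    rcases Nat.lt_or_eq_of_le hi with h | h
    · obtain ⟨s, h1, h2, h3, h4⟩ := cnt_step (a := act m) (j := j) (t := t0) (i := i) (N := N)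
        (by rw [hN N le_rfl]; exact h)
      refine ⟨s, h2, h4, ?_, fun _ => h3⟩
      obtain ⟨t', h5, _, h6, h7, h8, h9⟩ := wt_spec (act_real h3 (by omega))
      have : t' = t0 := start_unique h6 hl h7 (ha s) h5 h2
      subst this
      rcases h9 with h9 | h9 | h9
      · rw [hj1] at h9; omega
      · exact h9.2
      · rw [hj1] at h9; omega
    · exact ⟨max (max N s1) t0, by omega, by rw [hN _ (by omega), h], hs1 _ (by omega), by omega⟩
  choose! f hf1 hf2 hf3 hf4 using hstages
  have hmono : ∀ i i', i < i' → i' ≤ m + 1 → f i < f i' := by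
    intro i i' h1 h2
    by_contra hc
    have := cnt_mono (a := act m) (j := j) (t := t0) (show f i' ≤ f i by omega)
    rw [hf2 i (by omega), hf2 i' h2] at this
    omega
  -- unfold at each stage
  have hR : ∀ n, n ≤ m + 1 → okq (act m) c' b q (f n) = true ∧
      ∃ u ≤ f n, (∀ t' < f n, act m t' = j → t' ≤ u) ∧
      U e (Nat.pair j t0) (pre (join (fun v => MS (act m) (f n) (i+2) v)
          (fun v => Yap (act m) c' k (f n) v)) u) = some (n % 2) ∧
      ∃ u' ≤ f n, (∀ x < u, hNe (act m) c' x (f n) k = true →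
        U ψ x (pre (fun v => Xap β (f n) v) u') = some (Xap c (f n) x).toNat) ∧
        ∀ z < u', U γ z (pre (fun v => MS (act m) (f n) 1 v) (f n)) =
          some (Xap β (f n) z).toNat := by
    intro n hn
    obtain ⟨h1, u, h2, h3, h4, u', h5, h6⟩ := (hwT _).1 (hf3 n hn)
    refine ⟨h1, u, h2, h3, ?_, u', h5, (crt_iff c' hcc.symm hψ.symm hβ.symm hγ.symm).1 h6⟩
    rw [hcol, hf2 n hn] at h4
    rw [h4]
    congr 1
    rcases Nat.mod_two_eq_zero_or_one n with h5 | h5 <;> simp [h5]
  -- preservation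
  have hpres : ∀ n n', n < n' → n' ≤ m + 1 → ∀ v < f n, v ≠ Nat.pair j t0 →
      M (act m) (f n') v = M (act m) (f n) v := by
    intro n n' h1 h2 v hv hvx
    exact pres' hl ha (hf1 n (by omega)) (hf4 n (by omega) (by omega)) hv hvx (f n')
      (hmono n n' h1 h2).le
  obtain ⟨hok0, u0, hu0, _, hφ0, u0', hu0', hψ0, hγ0⟩ := hR 0 (by omega)
  obtain ⟨_, u1, hu1, hu1', hφ1, _⟩ := hR 1 (by omega)
  have hact0 : act m (f 0) = j := hf4 0 (by omega) (by omega)
  have hu01 : f 0 ≤ u1 := hu1' (f 0) (hmono 0 1 (by omega) (by omega)) hact0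
  have hqf : q ≤ f 0 := ((okq_iff c').1 hok0).1
  -- the changing element
  have hz : ∃ z < u0, Yap (act m) c' k (f 0) z ≠ Yap (act m) c' k (f 1) z := by
    by_contra hcon
    push Not at hcon
    have h1 : pre (join (fun v => MS (act m) (f 0) (i+2) v)
        (fun v => Yap (act m) c' k (f 0) v)) u0 = pre (join (fun v => MS (act m) (f 1) (i+2) v)
        (fun v => Yap (act m) c' k (f 1) v)) u0 := by
      refine pre_join_congr (fun v hv => ?_) (fun v hv => hcon v hv)
      by_cases hvx : v = Nat.pair j t0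
      · subst hvx
        show MS (act m) (f 0) (i+2) (Nat.pair j t0) = MS (act m) (f 1) (i+2) (Nat.pair j t0)
        unfold MS
        rw [hcolm]
        simp [sel]
      · show MS (act m) (f 0) (i+2) v = MS (act m) (f 1) (i+2) v
        unfold MS
        rw [hpres 0 1 (by omega) (by omega) v (by omega) hvx]
    rw [h1] at hφ0
    have := (U_mono e).unique hφ0 hφ1
    omega
  obtain ⟨z, hz0, hz1⟩ := hz
  -- it has entered with another home
  have hzNe : hNe (act m) c' z (f 0) k = true := by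
    rw [hNe_iff]
    by_cases hent : ∃ t ≤ f 0, fe c'.ufst z t = true
    · refine ⟨hent, fun hh => ?_⟩
      have h1 : hEq (act m) c' z (f 0) k = true := hEq_iff.2 ⟨hent, hh⟩
      obtain ⟨t, ht, ht'⟩ := hent
      have h2 : hEq (act m) c' z (f 1) k = true :=
        hEq_iff.2 ⟨⟨t, by have := hmono 0 1 (by omega) (by omega); omega, ht'⟩, hh⟩
      apply hz1
      unfold Yap
      rw [h1, h2]; simp
    · exfalso
      have h1 : Yap (act m) c' k (f 0) z = false := by
        unfold Yap
        have : Xap c'.ufst (f 0) z = false := by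
          rw [Bool.eq_false_iff]; intro h
          obtain ⟨t, ht, h'⟩ := fe_exists h
          exact hent ⟨t, ht, h'⟩
        rw [this]; rfl
      have h2 : Yap (act m) c' k (f 1) z = true := by
        rw [h1] at hz1
        cases h : Yap (act m) c' k (f 1) z
        · rw [h] at hz1; exact absurd rfl hz1
        · rfl
      unfold Yap at h2
      rw [Bool.and_eq_true, Bool.not_eq_true'] at h2
      obtain ⟨t, ht, hft⟩ := fe_exists h2.1
      have hts : f 0 < t := by
        by_contra hcon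
        exact hent ⟨t, by omega, hft⟩
      have h3 : blk (act m) c' z t b = true :=
        blk_iff.2 ⟨f 0, hts, by omega, by rw [hact0]; exact hjN⟩
      have h4 := hm_of_blk (by omega) hft h3 (hq t (by omega))
      rw [e1] at h4
      have h5 : hEq (act m) c' z (f 1) k = true := hEq_iff.2 ⟨⟨t, ht, hft⟩, h4⟩
      rw [h5] at h2
      simp at h2
  obtain ⟨⟨tz, htz, hfz⟩, hhome⟩ := hNe_iff.1 hzNe
  have hfle : ∀ n, n ≤ m + 1 → f 0 ≤ f n := by
    intro n hn
    rcases Nat.eq_zero_or_pos n with h | h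
    · rw [h]
    · exact (hmono 0 n h hn).le
  have hzNe' : ∀ n, n ≤ m + 1 → hNe (act m) c' z (f n) k = true := fun n hn =>
    hNe_iff.2 ⟨⟨tz, by have := hfle n hn; omega, hfz⟩, hhome⟩
  have hYX : ∀ n, Yap (act m) c' k (f n) z = Xap c (f n) z := by
    intro n
    unfold Yap
    have : hEq (act m) c' z (f n) k = false := by
      rw [Bool.eq_false_iff]; intro h; exact hhome (hEq_iff.1 h).2
    rw [this, hcc]; simp
  rw [hYX, hYX] at hz1
  have hzψ : ∀ n, n ≤ m + 1 → ∃ u', (U ψ z (pre (fun v => Xap β (f n) v) u') =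
      some (Xap c (f n) z).toNat) ∧ ∀ w < u', U γ w (pre (fun v => MS (act m) (f n) 1 v) (f n)) =
        some (Xap β (f n) w).toNat := by
    intro n hn
    rcases Nat.eq_zero_or_pos n with h | h
    · subst h
      exact ⟨u0', hψ0 z hz0 hzNe, hγ0⟩
    · obtain ⟨_, u, hu, h1, _, u', _, h3, h4⟩ := hR n hn
      refine ⟨u', h3 z ?_ (hzNe' n hn), h4⟩
      have h5 := h1 (f 0) (hmono 0 n h hn) hact0
      omega
  -- period two
  have hper : ∀ n, n + 2 ≤ m + 1 → Xap c (f (n+2)) z = Xap c (f n) z := by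
    intro n hn
    obtain ⟨ua, h1, h1'⟩ := hzψ n (by omega)
    obtain ⟨ub, h2, h2'⟩ := hzψ (n+2) hn
    have h3 : pre (fun v => MS (act m) (f n) 1 v) (f n) =
        pre (fun v => MS (act m) (f (n+2)) 1 v) (f n) := by
      refine pre_congr fun v hv => ?_
      by_cases hvx : v = Nat.pair j t0
      · subst hvx
        show MS (act m) (f n) 1 (Nat.pair j t0) = MS (act m) (f (n+2)) 1 (Nat.pair j t0)
        rw [hcol, hcol, hf2 n (by omega), hf2 (n+2) hn]
        congr 1
        simp
      · show MS (act m) (f n) 1 v = MS (act m) (f (n+2)) 1 v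
        unfold MS
        rw [hpres n (n+2) (by omega) hn v hv hvx]
    have h4 : ∀ w, w < ua → w < ub → Xap β (f n) w = Xap β (f (n+2)) w := by
      intro w hw1 hw2
      have h5 := h1' w hw1
      rw [h3] at h5
      have := (U_mono γ).unique h5 (h2' w hw2)
      cases h6 : Xap β (f (n+2)) w <;> cases h7 : Xap β (f n) w <;> rw [h6, h7] at this <;>
        simp at this ⊢
    have h5 : (Xap c (f n) z).toNat = (Xap c (f (n+2)) z).toNat := by
      rcases Nat.le_total ua ub with h6 | h6
      · have h7 : pre (fun v => Xap β (f n) v) ua = pre (fun v => Xap β (f (n+2)) v) ua :=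
          pre_congr fun w hw => h4 w hw (by omega)
        rw [h7] at h1
        exact (U_mono ψ).unique h1 h2
      · have h7 : pre (fun v => Xap β (f n) v) ub = pre (fun v => Xap β (f (n+2)) v) ub :=
          pre_congr fun w hw => h4 w (by omega) hw
        rw [← h7] at h2
        exact (U_mono ψ).unique h1 h2
    cases h6 : Xap c (f (n+2)) z <;> cases h7 : Xap c (f n) z <;> rw [h6, h7] at h5 <;>
      simp at h5 ⊢
  have halt : ∀ n, n + 1 ≤ m + 1 → Xap c (f n) z ≠ Xap c (f (n+1)) z := by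
    intro n
    induction n with
    | zero => intro _ h; exact hz1 h
    | succ n ih =>
      intro hn h
      rw [hper n hn] at h
      exact ih (by omega) h.symm
  -- too many changes: before `f 0` and between consecutive stages
  have hex : ∀ n, n ≤ m + 1 → ∃ t, (∀ n', n' < n → f n' ≤ t) ∧ t < f n ∧ Xap c t z ≠ Xap c (t+1) z := by
    intro n hn
    rcases Nat.eq_zero_or_pos n with h | h
    · subst h
      have h1 : Xap c 0 z ≠ Xap c tz z := by
        rw [Xap_zero, hcc, (fe_iff.1 hfz).1]; simp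
      obtain ⟨t, _, h2, h3⟩ := exists_change (f := fun s => Xap c s z) (Nat.zero_le tz) h1
      exact ⟨t, fun n' hn' => absurd hn' (Nat.not_lt_zero _), by omega, h3⟩
    · obtain ⟨n, rfl⟩ : ∃ n', n = n' + 1 := ⟨n-1, by omega⟩
      obtain ⟨t, h1, h2, h3⟩ := exists_change (f := fun s => Xap c s z)
        (hmono n (n+1) (by omega) (by omega)).le (halt n (by omega))
      refine ⟨t, fun n' hn' => ?_, h2, h3⟩
      rcases Nat.lt_or_eq_of_le (show n' ≤ n by omega) with h4 | h4
      · have := hmono n' n h4 (by omega); omega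
      · rw [h4]; exact h1
  choose! g hg1 hg2 hg3 using hex
  have hle : (Set.Iio (m+2)).encard ≤ (chg fun s => Xap c s z).encard := by
    refine Set.encard_le_encard_of_injOn (f := g) (fun n hn => hg3 n ?_) ?_
    · simp only [Set.mem_Iio] at hn; omega
    · intro n hn n' hn' heq
      simp only [Set.mem_Iio] at hn hn'
      rcases Nat.lt_trichotomy n n' with h | h | h
      · have h1 := hg2 n (by omega)
        have h2 := hg1 n' (by omega) n h
        omega
      · exact h
      · have h1 := hg2 n' (by omega)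
        have h2 := hg1 n (by omega) n' h
        omega
  have h1 : (Set.Iio (m+2)).encard = (m + 2 : ℕ) := by
    rw [← Finset.coe_range, Set.encard_coe_eq_coe_finsetCard, Finset.card_range]
  rw [h1] at hle
  have h2 := hle.trans (hc z)
  have h3 : m + 2 ≤ m + 1 := by exact_mod_cast h2
  omega

end DegC
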